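import Pool.Agent.K3h13.RG.Asm6

/-!
# Almost all parameters
-/

set_option autoImplicit false

namespace Pool.Agent.K3h13.RG

open Finset Pool.Agent.Y732 Pool.Agent.R89.SR Pool.Agent.K3h2.AP WeierstrassCurve Filter Topology

/-- `τ ‖Reg‖ ≤ 1` for some canonical height `h` -/
def ExcR6 (p : ℕ) [Fact p.Prime] (τ : ℝ) (v : Fin 6 → ℤ) : Prop :=
  IsOrdinaryW p (sW v) ∧ ∃ h : (WQ (sW v)).Point → ℚ_[p], IsHeightW p (sW v) h ∧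
    τ * ‖Reg h (fun i : Fin 4 => sP v 0 i.succ)‖ ≤ 1

open scoped Classical in
/-- the primes in question -/
noncomputable def Pr6 (N : ℕ) (δ : ℝ) : Finset ℕ :=
  (Icc 1 N).filter fun p : ℕ => p.Prime ∧ 5 ≤ p ∧ (p : ℝ) ^ 20 * (N : ℝ) ^ δ ≤ N

lemma sum_Pr6 {N : ℕ} (hN : 1 ≤ N) {δ : ℝ} (hδ : 0 < δ) :
    ∑ p ∈ Pr6 N δ, (p : ℝ) ^ 4 / ((p : ℝ) ^ 5 * (N : ℝ) ^ (δ / 4) / 2) ≤
      4 * pl 1 1 1 (δ / 8) N / (⌊(N : ℝ) ^ (δ / 8)⌋₊ : ℝ) := by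
  have hN1 : (1 : ℝ) ≤ N := by exact_mod_cast hN
  have hN0 : (0 : ℝ) < N := by linarith
  have hNδ : (1 : ℝ) ≤ (N : ℝ) ^ (δ / 4) := Real.one_le_rpow hN1 (by linarith)
  have hNδ2 : (1 : ℝ) ≤ (N : ℝ) ^ (δ / 8) := Real.one_le_rpow hN1 (by linarith)
  have h1 : ∀ p ∈ Pr6 N δ, (p : ℝ) ^ 4 / ((p : ℝ) ^ 5 * (N : ℝ) ^ (δ / 4) / 2) ≤
      2 / (N : ℝ) ^ (δ / 4) * (p : ℝ)⁻¹ := by
    intro p hp
    unfold Pr6 at hp
    obtain ⟨hp1, hp2, hp3, hp4⟩ := mem_filter.1 hp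
    have hpR : (1 : ℝ) ≤ p := by exact_mod_cast hp2.one_le
    have hpR0 : (p : ℝ) ≠ 0 := by linarith
    have hNe : (N : ℝ) ^ (δ / 4) ≠ 0 := by linarith
    refine le_of_eq ?_
    field_simp
  have h2 : ∑ p ∈ Pr6 N δ, (p : ℝ)⁻¹ ≤ 1 + Real.log N := by
    have h6 := harmonic_le_one_add_log N
    refine le_trans ?_ h6
    rw [harmonic_eq_sum_Icc]
    push_cast
    apply sum_le_sum_of_subset_of_nonneg
    · exact filter_subset _ _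
    · intro i _ _
      positivity
  have h3 := log_le_natLog hN
  have h4 : (1 : ℝ) ≤ ((Nat.log 2 (1 * N ^ 1) + 1 : ℕ) : ℝ) := by
    exact_mod_cast Nat.le_add_left 1 _
  have h5 : ∑ p ∈ Pr6 N δ, (p : ℝ)⁻¹ ≤ 2 * ((Nat.log 2 (1 * N ^ 1) + 1 : ℕ) : ℝ) := by linarith
  have hf : (0 : ℝ) < (⌊(N : ℝ) ^ (δ / 8)⌋₊ : ℝ) := by
    exact_mod_cast Nat.floor_pos.2 hNδ2
  have hff : (⌊(N : ℝ) ^ (δ / 8)⌋₊ : ℝ) * (⌊(N : ℝ) ^ (δ / 8)⌋₊ : ℝ) ≤ (N : ℝ) ^ (δ / 4) := by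
    have h6 : (⌊(N : ℝ) ^ (δ / 8)⌋₊ : ℝ) ≤ (N : ℝ) ^ (δ / 8) := Nat.floor_le (by positivity)
    calc _ ≤ (N : ℝ) ^ (δ / 8) * (N : ℝ) ^ (δ / 8) := mul_le_mul h6 h6 hf.le (by positivity)
      _ = _ := by
        rw [← Real.rpow_add hN0]
        congr 1
        ring
  refine (sum_le_sum h1).trans ?_
  rw [← mul_sum]
  calc 2 / (N : ℝ) ^ (δ / 4) * ∑ p ∈ Pr6 N δ, (p : ℝ)⁻¹
      ≤ 2 / (N : ℝ) ^ (δ / 4) * (2 * ((Nat.log 2 (1 * N ^ 1) + 1 : ℕ) : ℝ)) :=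
        mul_le_mul_of_nonneg_left h5 (by positivity)
    _ = (4 * ((Nat.log 2 (1 * N ^ 1) + 1 : ℕ) : ℝ)) / (N : ℝ) ^ (δ / 4) := by ring
    _ ≤ (4 * ((Nat.log 2 (1 * N ^ 1) + 1 : ℕ) : ℝ)) /
        ((⌊(N : ℝ) ^ (δ / 8)⌋₊ : ℝ) * (⌊(N : ℝ) ^ (δ / 8)⌋₊ : ℝ)) :=
        div_le_div_of_nonneg_left (by positivity) (mul_pos hf hf) hff
    _ = _ := by
        unfold pl
        rw [pow_one]
        field_simp

open scoped Classical in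
/-- for almost all parameters the regulators are not small at all primes up to
`N ^ ((1 - δ) / 20)` -/
theorem almost_all6 {ε : ℝ} (hε : 0 < ε) : ∃ m : ℕ, 1 ≤ m ∧ ∀ {δ : ℝ}, 0 < δ →
    ∃ N₀ : ℕ, ∀ N : ℕ, N₀ ≤ N →
      (((Cb N).filter fun v => (curveA v).Δ = 0 ∨ (¬ ∃ d, TypS m d v) ∨
        ∃ p : ℕ, ∃ hp : Fact p.Prime, 5 ≤ p ∧ (p : ℝ) ^ 20 * (N : ℝ) ^ δ ≤ N ∧
          @ExcR6 p hp ((p : ℝ) ^ 20 * (N : ℝ) ^ δ) v).card : ℝ) ≤ ε * (Cb N).card := by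
  obtain ⟨C₀, hC₀⟩ : ∃ C₀ : ℕ, ∀ N M : ℕ, 0 < N → 0 < M → (((Cb N).filter fun v => ∃ ℓ : ℕ,
      ℓ.Prime ∧ M < ℓ ∧ ∃ i j k l m, Dst i j k l m ∧ BadZ ℓ v i j k l m).card : ℝ) ≤
      ((C₀ : ℝ) / (M : ℝ) + (C₀ : ℝ) / (N : ℝ)) * (Cb N).card :=
    ⟨_, fun N M hN hM => bad_large6 hN hM⟩
  obtain ⟨L₀, hL₀⟩ := exists_nat_ge (4 * C₀ / ε)
  obtain ⟨L, hL3, hLL⟩ : ∃ L : ℕ, 3 ≤ L ∧ L₀ ≤ L := ⟨max 3 L₀, le_max_left _ _, le_max_right _ _⟩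
  have hLR : (0 : ℝ) < L := by exact_mod_cast (by omega : 0 < L)
  have hLε : (C₀ : ℝ) / (L : ℝ) ≤ ε / 4 := by
    have h1 : 4 * C₀ / ε ≤ L := hL₀.trans (by exact_mod_cast hLL)
    rw [div_le_iff₀ hε] at h1
    rw [div_le_div_iff₀ hLR (by norm_num)]
    linarith
  obtain ⟨t, ht⟩ := pow_unbounded_of_one_lt (1536 * L / ε) (one_lt_two (α := ℝ))
  have htε : 384 * (L : ℝ) / 2 ^ (t + 1) ≤ ε / 4 := by
    rw [div_lt_iff₀ hε] at ht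
    rw [div_le_div_iff₀ (by positivity) (by norm_num), pow_succ]
    have : (0 : ℝ) < 2 ^ t * ε := by positivity
    nlinarith
  obtain ⟨m, hm⟩ : ∃ m, mul L (12 * t + 12 + 1) = m := ⟨_, rfl⟩
  have hm1 : 1 ≤ m := by
    rw [← hm]
    exact mul_pos' _ _
  refine ⟨m, hm1, fun {δ} hδ => ?_⟩
  obtain ⟨C₁, C, K, hmain⟩ := count6 hC₀ hL3 hm hm1
  -- the error terms
  have lim : Tendsto (fun N : ℕ => (C₁ : ℝ) / (N : ℝ) +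
      5120 * (m : ℝ) ^ 8 * (pl C K (25 * (L + 1)) (δ / 8) N * pl 1 1 1 (δ / 8) N))
      atTop (𝓝 0) := by
    have l1 : Tendsto (fun N : ℕ => (C₁ : ℝ) / (N : ℝ)) atTop (𝓝 0) :=
      tendsto_const_div_atTop_nhds_zero_nat _
    have l3 := ((pl_tendsto C K (25 * (L + 1)) (δ := δ / 8) (by positivity)).mul
      (pl_tendsto 1 1 1 (δ := δ / 8) (by positivity))).const_mul (5120 * (m : ℝ) ^ 8)
    have l4 := l1.add l3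
    simpa using l4
  have hev := (lim.eventually (gt_mem_nhds (by positivity : (0 : ℝ) < ε / 2))).and
    (eventually_ge_atTop 1)
  obtain ⟨N₀, hN₀⟩ := eventually_atTop.1 hev
  refine ⟨N₀, fun N hN => ?_⟩
  obtain ⟨hR, hN1⟩ := hN₀ N hN
  have hN1R : (1 : ℝ) ≤ N := by exact_mod_cast hN1
  have hN0R : (0 : ℝ) < N := by linarith
  have hNδ : (1 : ℝ) ≤ (N : ℝ) ^ δ := Real.one_le_rpow hN1R hδ.le
  have hNδ4 : (1 : ℝ) ≤ (N : ℝ) ^ (δ / 4) := Real.one_le_rpow hN1R (by linarith)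
  have key := hmain N hN1 (Pr6 N δ) (by
      intro p hp
      unfold Pr6 at hp
      obtain ⟨-, h1, h2, -⟩ := mem_filter.1 hp
      exact ⟨h1, h2⟩) (fun p => ⌊(p : ℝ) ^ 20 * (N : ℝ) ^ δ⌋₊) (by
      intro p hp
      unfold Pr6 at hp
      obtain ⟨-, -, -, h1⟩ := mem_filter.1 hp
      have h2 : ⌊(p : ℝ) ^ 20 * (N : ℝ) ^ δ⌋₊ ≤ N := by
        have := Nat.floor_mono h1
        rwa [Nat.floor_natCast] at this
      exact h2.trans (by omega)) (fun p => (p : ℝ) ^ 5 * (N : ℝ) ^ (δ / 4) / 2) (by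
      intro p hp
      unfold Pr6 at hp
      obtain ⟨-, h1, -, -⟩ := mem_filter.1 hp
      have hpR : (0 : ℝ) < p := by exact_mod_cast h1.pos
      positivity) (by
      intro p hp
      unfold Pr6 at hp
      obtain ⟨-, h1, -, -⟩ := mem_filter.1 hp
      have hpR : (1 : ℝ) ≤ p := by exact_mod_cast h1.one_le
      have h2 : (1 : ℝ) ≤ (p : ℝ) ^ 20 * (N : ℝ) ^ δ := by
        have := one_le_pow₀ (n := 20) hpR
        nlinarith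
      have h3 := floor_half h2
      have h4 : ((N : ℝ) ^ (δ / 4)) ^ 4 = (N : ℝ) ^ δ := by
        rw [← Real.rpow_mul_natCast hN0R.le]
        congr 1
        push_cast
        ring
      have h5 : ((p : ℝ) ^ 5 * (N : ℝ) ^ (δ / 4) / 2) ^ 4 =
          (p : ℝ) ^ 20 * (N : ℝ) ^ δ / 16 := by
        rw [← h4]
        ring
      rw [h5]
      linarith)
  have hsub : ((Cb N).filter fun v => (curveA v).Δ = 0 ∨ (¬ ∃ d, TypS m d v) ∨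
        ∃ p : ℕ, ∃ hp : Fact p.Prime, 5 ≤ p ∧ (p : ℝ) ^ 20 * (N : ℝ) ^ δ ≤ N ∧
          @ExcR6 p hp ((p : ℝ) ^ 20 * (N : ℝ) ^ δ) v) ⊆
      (Cb N).filter fun v => Ex6 m (Pr6 N δ) (fun p => ⌊(p : ℝ) ^ 20 * (N : ℝ) ^ δ⌋₊) v := by
    intro v hv
    rw [mem_filter] at hv ⊢
    refine ⟨hv.1, ?_⟩
    rcases hv.2 with h | h | ⟨p, hp, hp5, hpN, ho, h, hh, hs⟩
    · exact Or.inl h
    · exact Or.inr (Or.inl h)
    · right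
      right
      have hpR : (1 : ℝ) ≤ p := by exact_mod_cast hp.out.one_le
      have hpN' : p ≤ N := by
        have h1 : (p : ℝ) ≤ (p : ℝ) ^ 20 := by
          calc (p : ℝ) = (p : ℝ) ^ 1 := (pow_one _).symm
            _ ≤ (p : ℝ) ^ 20 := pow_le_pow_right₀ hpR (by norm_num)
        have h2 : (p : ℝ) ^ 20 * 1 ≤ (p : ℝ) ^ 20 * (N : ℝ) ^ δ :=
          mul_le_mul_of_nonneg_left hNδ (by positivity)
        exact_mod_cast (by linarith : (p : ℝ) ≤ N)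
      refine ⟨p, ?_, hp, ho, h, hh, ?_⟩
      · unfold Pr6
        exact mem_filter.2 ⟨mem_Icc.2 ⟨hp.out.one_le, hpN'⟩, hp.out, hp5, hpN⟩
      · refine le_trans (mul_le_mul_of_nonneg_right ?_ (norm_nonneg _)) hs
        exact Nat.floor_le (by positivity)
  have hcard : (((Cb N).filter fun v => (curveA v).Δ = 0 ∨ (¬ ∃ d, TypS m d v) ∨
        ∃ p : ℕ, ∃ hp : Fact p.Prime, 5 ≤ p ∧ (p : ℝ) ^ 20 * (N : ℝ) ^ δ ≤ N ∧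
          @ExcR6 p hp ((p : ℝ) ^ 20 * (N : ℝ) ^ δ) v).card : ℝ) ≤
      (((Cb N).filter fun v =>
        Ex6 m (Pr6 N δ) (fun p => ⌊(p : ℝ) ^ 20 * (N : ℝ) ^ δ⌋₊) v).card : ℝ) := by
    exact_mod_cast card_le_card hsub
  refine hcard.trans (key.trans (mul_le_mul_of_nonneg_right ?_ (by positivity)))
  -- comparison of the error terms
  have hE : 1280 * (m : ℝ) ^ 8 * (∑ p ∈ Pr6 N δ, (p : ℝ) ^ 4 /
      ((p : ℝ) ^ 5 * (N : ℝ) ^ (δ / 4) / 2)) *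
      (((Nat.log 2 (C * N ^ K) + 1 : ℕ) : ℝ) ^ (25 * (L + 1))) ≤
      5120 * (m : ℝ) ^ 8 * (pl C K (25 * (L + 1)) (δ / 8) N * pl 1 1 1 (δ / 8) N) := by
    have h1 := sum_Pr6 hN1 hδ
    have h2 : 1280 * (m : ℝ) ^ 8 * (∑ p ∈ Pr6 N δ, (p : ℝ) ^ 4 /
        ((p : ℝ) ^ 5 * (N : ℝ) ^ (δ / 4) / 2)) *
        (((Nat.log 2 (C * N ^ K) + 1 : ℕ) : ℝ) ^ (25 * (L + 1))) ≤
      1280 * (m : ℝ) ^ 8 * (4 * pl 1 1 1 (δ / 8) N / (⌊(N : ℝ) ^ (δ / 8)⌋₊ : ℝ)) *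
      (((Nat.log 2 (C * N ^ K) + 1 : ℕ) : ℝ) ^ (25 * (L + 1))) := by gcongr
    refine h2.trans (le_of_eq ?_)
    have e1 : pl C K (25 * (L + 1)) (δ / 8) N =
      ((Nat.log 2 (C * N ^ K) + 1 : ℕ) : ℝ) ^ (25 * (L + 1)) /
      (⌊(N : ℝ) ^ (δ / 8)⌋₊ : ℝ) := rfl
    rw [e1]
    ring
  push_cast at hR hE ⊢
  linarith

end Pool.Agent.K3h13.RG
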