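import Pool.Agent.K3h13.RG.Lim6
import Pool.Agent.K3h2.AP.All

/-!
# The number of exceptional parameters
-/

set_option autoImplicit false
set_option maxHeartbeats 400000

namespace Pool.Agent.K3h13.RG

open Finset Pool.Agent.Y732 Pool.Agent.K3h2.AP WeierstrassCurve Filter Topology

/-- the parameter is degenerate, or `m P i j` is not nonsingular modulo all primes, or the
regulator is small for a prime of `S` -/
def Ex6 (m : ℕ) (S : Finset ℕ) (T₀ : ℕ → ℕ) (v : Fin 6 → ℤ) : Prop :=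
  (curveA v).Δ = 0 ∨ (¬ ∃ d, TypS m d v) ∨ ∃ p ∈ S, ∃ hp : Fact p.Prime, @ExcS p hp (T₀ p) v

open scoped Classical in
/-- the parameters of a given type -/
lemma card_type6 {N : ℕ} {S : Finset ℕ} (hS : ∀ p ∈ S, p.Prime ∧ 5 ≤ p) {m : ℕ}
    {d : Fin 5 → Fin 5 → ℕ} (hm : 1 ≤ m) {T₀ : ℕ → ℕ} (hT : ∀ p ∈ S, T₀ p ≤ 2 * N + 1)
    {R : ℕ → ℝ} (hR0 : ∀ p ∈ S, 0 < R p) (hR : ∀ p ∈ S, R p ^ 4 ≤ T₀ p) :
    (((Cb N).filter fun v => TypS m d v ∧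
      ∃ p ∈ S, ∃ hp : Fact p.Prime, @ExcS p hp (T₀ p) v).card : ℝ) ≤
      1280 * m ^ 8 * (∑ p ∈ S, (p : ℝ) ^ 4 / R p) * (Cb N).card := by
  have h0 : ∀ p ∈ S, (((Cb N).filter fun v => TypS m d v ∧
      ∃ hp : Fact p.Prime, @ExcS p hp (T₀ p) v).card : ℝ) ≤
      1280 * m ^ 8 * ((p : ℝ) ^ 4 / R p) * (Cb N).card := by
    intro p hp
    have hpf : Fact p.Prime := ⟨(hS p hp).1⟩
    have h1 := typS_count (p := p) (hS p hp).2 (d := d) hm (fun _ => -(N : ℤ))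
      (fun _ => 2 * N + 1)
      ((Cb N).filter fun v => TypS m d v ∧ ∃ hp : Fact p.Prime, @ExcS p hp (T₀ p) v) (by
        intro v hv l
        have h2 := mem_Cb.1 (mem_filter.1 hv).1 l
        refine ⟨h2.1, ?_⟩
        have h3 := h2.2
        push_cast
        linarith) (fun _ => hT p hp) (by
        intro v hv
        obtain ⟨-, h2, hp', h3⟩ := mem_filter.1 hv
        exact ⟨h2, h3⟩)
    have hprod : (∏ _l : Fin 6, (2 * N + 1)) = (Cb N).card := by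
      rw [card_Cb, prod_const, card_univ, Fintype.card_fin]
    rw [hprod] at h1
    set Z := (((Cb N).filter fun v => TypS m d v ∧
      ∃ hp : Fact p.Prime, @ExcS p hp (T₀ p) v).card : ℝ) with hZ
    have h2 : (Z * R p) ^ 4 ≤ (1280 * m ^ 8 * p ^ 4 * (Cb N).card : ℝ) ^ 4 := by
      have h3 : Z ^ 4 * (T₀ p : ℝ) ≤
          (2 ^ 6 * 4 * (m ^ 8 * 5) * p ^ 4 * (Cb N).card : ℝ) ^ 4 := by
        rw [hZ]
        exact_mod_cast h1
      calc (Z * R p) ^ 4 = Z ^ 4 * R p ^ 4 := by ring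
        _ ≤ Z ^ 4 * (T₀ p : ℝ) := mul_le_mul_of_nonneg_left (hR p hp) (by positivity)
        _ ≤ _ := h3
        _ = _ := by ring
    have h3 := le_of_pow_le_pow_left₀ (by norm_num) (by positivity) h2
    rw [mul_div_assoc', div_mul_eq_mul_div, le_div_iff₀ (hR0 p hp)]
    exact h3
  have h1 : ((Cb N).filter fun v => TypS m d v ∧
      ∃ p ∈ S, ∃ hp : Fact p.Prime, @ExcS p hp (T₀ p) v) ⊆
      S.biUnion fun p => (Cb N).filter fun v => TypS m d v ∧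
        ∃ hp : Fact p.Prime, @ExcS p hp (T₀ p) v := by
    intro v hv
    obtain ⟨hv, h1, p, hp, h2⟩ := mem_filter.1 hv
    rw [mem_biUnion]
    exact ⟨p, hp, mem_filter.2 ⟨hv, h1, h2⟩⟩
  have h2 := (card_le_card h1).trans card_biUnion_le
  have h3 : (((Cb N).filter fun v => TypS m d v ∧
      ∃ p ∈ S, ∃ hp : Fact p.Prime, @ExcS p hp (T₀ p) v).card : ℝ) ≤
      ∑ p ∈ S, (((Cb N).filter fun v => TypS m d v ∧
        ∃ hp : Fact p.Prime, @ExcS p hp (T₀ p) v).card : ℝ) := by exact_mod_cast h2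
  refine h3.trans ((sum_le_sum h0).trans (le_of_eq ?_))
  rw [mul_sum, sum_mul]

open scoped Classical in
/-- the zeros of the polynomials `TP6` -/
lemma card_T {N : ℕ} (hN : 0 < N) {m : ℕ} (hm : 1 ≤ m) :
    (((Cb N).filter fun v => ∃ i j : Fin 5, i < j ∧
      MvPolynomial.eval v (TP6 i j m) = 0).card : ℝ) ≤
      ((∑ e : Fin 5 × Fin 5, ∑ l, (TP6 e.1 e.2 m).degreeOf l : ℕ) : ℝ) / N * (Cb N).card := by
  have h1 : ((Cb N).filter fun v => ∃ i j : Fin 5, i < j ∧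
      MvPolynomial.eval v (TP6 i j m) = 0) ⊆ (univ : Finset (Fin 5 × Fin 5)).biUnion fun e =>
        (Cb N).filter fun v => e.1 < e.2 ∧ MvPolynomial.eval v (TP6 e.1 e.2 m) = 0 := by
    intro v hv
    obtain ⟨hv, i, j, h1, h2⟩ := mem_filter.1 hv
    rw [mem_biUnion]
    exact ⟨(i, j), mem_univ _, mem_filter.2 ⟨hv, h1, h2⟩⟩
  have h2 : (((Cb N).filter fun v => ∃ i j : Fin 5, i < j ∧
      MvPolynomial.eval v (TP6 i j m) = 0).card : ℝ) ≤ ∑ e : Fin 5 × Fin 5,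
        (((Cb N).filter fun v => e.1 < e.2 ∧
          MvPolynomial.eval v (TP6 e.1 e.2 m) = 0).card : ℝ) := by
    exact_mod_cast (card_le_card h1).trans card_biUnion_le
  have h3 : ∀ e ∈ (univ : Finset (Fin 5 × Fin 5)), (((Cb N).filter fun v => e.1 < e.2 ∧
          MvPolynomial.eval v (TP6 e.1 e.2 m) = 0).card : ℝ) ≤
          ((∑ l, (TP6 e.1 e.2 m).degreeOf l : ℕ) : ℝ) / N * (Cb N).card := by
    intro e _
    by_cases he : e.1 < e.2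
    · refine le_trans ?_ (card_zeros6 (TP6_ne he hm) hN)
      have h4 : ((Cb N).filter fun v => e.1 < e.2 ∧
          MvPolynomial.eval v (TP6 e.1 e.2 m) = 0) ⊆
          (Cb N).filter fun v => MvPolynomial.eval v (TP6 e.1 e.2 m) = 0 := by
        intro v hv
        rw [mem_filter] at hv ⊢
        exact ⟨hv.1, hv.2.2⟩
      exact_mod_cast card_le_card h4
    · have : ((Cb N).filter fun v => e.1 < e.2 ∧
          MvPolynomial.eval v (TP6 e.1 e.2 m) = 0) = ∅ := by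
        rw [filter_eq_empty_iff]
        exact fun v _ h => he h.1
      rw [this, card_empty, Nat.cast_zero]
      positivity
  refine h2.trans ((sum_le_sum h3).trans (le_of_eq ?_))
  rw [← sum_mul, ← sum_div]
  push_cast
  rfl

/-- the types with bounded smooth entries -/
@[irreducible] noncomputable def Sm5 (L M : ℕ) : Finset (Fin 5 → Fin 5 → ℕ) := by
  classical
  exact Fintype.piFinset fun _ => Fintype.piFinset fun _ =>
    (Icc 1 M).filter fun d : ℕ => ∀ q : ℕ, q.Prime → q ∣ d → q ≤ L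

lemma mem_Sm5 {L M : ℕ} {d : Fin 5 → Fin 5 → ℕ} :
    d ∈ Sm5 L M ↔ ∀ i j, (1 ≤ d i j ∧ d i j ≤ M) ∧ ∀ q : ℕ, q.Prime → q ∣ d i j → q ≤ L := by
  unfold Sm5
  simp only [Fintype.mem_piFinset, mem_filter, mem_Icc]

lemma card_Sm5 (L M : ℕ) :
    ((Sm5 L M).card : ℝ) ≤ ((Nat.log 2 M + 1 : ℕ) : ℝ) ^ (25 * (L + 1)) := by
  classical
  have h0 : (Sm5 L M).card = ((Icc 1 M).filter fun d : ℕ => ∀ q : ℕ, q.Prime → q ∣ d →
      q ≤ L).card ^ 25 := by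
    unfold Sm5
    rw [Fintype.card_piFinset]
    simp only [Fintype.card_piFinset, prod_const, card_univ, Fintype.card_fin]
    rw [← pow_mul]
  have h1 : ((Icc 1 M).filter fun d : ℕ => ∀ q : ℕ, q.Prime → q ∣ d →
      q ≤ L).card ≤ (Nat.log 2 M + 1) ^ (L + 1) := by
    convert card_smooth L M
  have h2 := Nat.pow_le_pow_left h1 25
  rw [← h0, ← pow_mul, mul_comm (L + 1)] at h2
  exact_mod_cast h2

/-- the type of a parameter outside the exceptional sets -/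
lemma type6 {L s m : ℕ} (hL : 3 ≤ L) (hmd : mul L (12 * s + 12 + 1) = m)
    {Cf Kf : Fin 5 × Fin 5 → ℕ} (hCK : ∀ (e : Fin 5 × Fin 5) (M : ℕ) (v : Fin 6 → ℤ), 1 ≤ M →
      (∀ l, |v l| ≤ M) → |MvPolynomial.eval v (TP6 e.1 e.2 m)| ≤ (Cf e * M ^ Kf e : ℕ))
    {N : ℕ} (hN : 1 ≤ N) {v : Fin 6 → ℤ} (hv : v ∈ Cb N)
    (k1 : MvPolynomial.eval v (curveA gX).Δ ≠ 0)
    (k2 : ¬ ∃ i j : Fin 5, i < j ∧ MvPolynomial.eval v (TP6 i j m) = 0)
    (k3 : ¬ ∃ ℓ : ℕ, ℓ.Prime ∧ ℓ ≤ L ∧ (ℓ : ℤ) ^ (12 * s + 12 + 1) ∣ 544195584 * (curveA v).Δ)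
    (k4 : ¬ ∃ ℓ : ℕ, ℓ.Prime ∧ L < ℓ ∧ ∃ i j k l m, Dst i j k l m ∧ BadZ ℓ v i j k l m) :
    ∃ d ∈ Sm5 L ((1 + ∑ e, Cf e) * N ^ (∑ e, Kf e)), TypS m d v := by
  have hD : (curveA v).Δ ≠ 0 := by rwa [dP_eval] at k1
  have hDS : (sW v).Δ ≠ 0 := by
    rw [sW_disc]
    exact mul_ne_zero (by norm_num) hD
  have hTm : ∀ i j : Fin 5, i < j → T (sW v) (sX v i j) (sY v i j) 1 m 2 ≠ 0 :=
    fun i j hij h => k2 ⟨i, j, hij, by rw [TP6_eval]; exact h⟩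
  obtain ⟨d, hd0, hd1⟩ := typS_of (L := L) (k := 12 * s + 12 + 1) hDS (by rwa [hmd])
    (fun ℓ hℓ hle hdv => k3 ⟨ℓ, hℓ, hle, by
      rw [disc_short, dvd_neg] at hdv
      exact hdv⟩)
    (fun ℓ hℓ hlt i j hij => nsat_short hℓ (by omega)
      (nsat_of_not_bad hℓ (by omega) (fun hb => k4 ⟨ℓ, hℓ, hlt, hb⟩)) hij)
  rw [hmd] at hd0 hd1
  refine ⟨d, ?_, hd0⟩
  rw [mem_Sm5]
  intro i j
  obtain ⟨a1, a2, a3, a4⟩ := hd1 i j
  refine ⟨⟨a1, ?_⟩, a4⟩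
  by_cases hij : i < j
  · have h1 := hCK (i, j) N v hN (by
      intro l
      have h2 := mem_Cb.1 hv l
      exact abs_le.2 h2)
    rw [TP6_eval] at h1
    have h2 : (d i j : ℤ) ≤ |T (sW v) (sX v i j) (sY v i j) 1 m 2| :=
      Int.le_of_dvd (abs_pos.2 (hTm i j hij)) ((dvd_abs _ _).2 (a2 hij))
    have h3 := h2.trans h1
    have h4 : d i j ≤ Cf (i, j) * N ^ Kf (i, j) := by exact_mod_cast h3
    refine h4.trans (Nat.mul_le_mul ?_ ?_)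
    · have := single_le_sum (f := Cf) (fun _ _ => Nat.zero_le _) (mem_univ (i, j))
      exact this.trans (Nat.le_add_left _ _)
    · exact Nat.pow_le_pow_right hN
        (single_le_sum (f := Kf) (fun _ _ => Nat.zero_le _) (mem_univ (i, j)))
  · rw [a3 hij]
    exact Nat.mul_pos (Nat.add_pos_left one_pos _) (Nat.pow_pos hN)

open scoped Classical in
/-- the parameters whose type is bounded and smooth -/
lemma card_E {N L M m : ℕ} {S : Finset ℕ} (hS : ∀ p ∈ S, p.Prime ∧ 5 ≤ p)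
    (hm : 1 ≤ m) {T₀ : ℕ → ℕ} (hT : ∀ p ∈ S, T₀ p ≤ 2 * N + 1)
    {R : ℕ → ℝ} (hR0 : ∀ p ∈ S, 0 < R p) (hR : ∀ p ∈ S, R p ^ 4 ≤ T₀ p) :
    (((Sm5 L M).biUnion fun d => (Cb N).filter fun v => TypS m d v ∧
      ∃ p ∈ S, ∃ hp : Fact p.Prime, @ExcS p hp (T₀ p) v).card : ℝ) ≤
      1280 * (m : ℝ) ^ 8 * (∑ p ∈ S, (p : ℝ) ^ 4 / R p) *
            ((Nat.log 2 M + 1 : ℕ) ^ (25 * (L + 1))) * (Cb N).card := by
  have hsum0 : (0 : ℝ) ≤ ∑ p ∈ S, (p : ℝ) ^ 4 / R p :=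
    sum_nonneg fun p hp => div_nonneg (pow_nonneg (Nat.cast_nonneg _) _) (hR0 p hp).le
  have h1 : (((Sm5 L M).biUnion fun d => (Cb N).filter fun v => TypS m d v ∧
      ∃ p ∈ S, ∃ hp : Fact p.Prime, @ExcS p hp (T₀ p) v).card : ℝ) ≤
      ∑ d ∈ Sm5 L M, (((Cb N).filter fun v => TypS m d v ∧
      ∃ p ∈ S, ∃ hp : Fact p.Prime, @ExcS p hp (T₀ p) v).card : ℝ) := by
    exact_mod_cast card_biUnion_le
  refine h1.trans ((sum_le_sum fun d _ => card_type6 hS hm hT hR0 hR).trans ?_)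
  rw [sum_const, nsmul_eq_mul]
  have h2 := card_Sm5 L M
  have h3 : (0 : ℝ) ≤ 1280 * (m : ℝ) ^ 8 * (∑ p ∈ S, (p : ℝ) ^ 4 / R p) * (Cb N).card := by
    positivity
  refine (mul_le_mul_of_nonneg_right h2 h3).trans (le_of_eq ?_)
  push_cast
  ring

open scoped Classical in
/-- the exceptional parameters in terms of all constants -/
theorem count6 {C₀ : ℕ} (hC₀ : ∀ N M : ℕ, 0 < N → 0 < M → (((Cb N).filter fun v => ∃ ℓ : ℕ,
      ℓ.Prime ∧ M < ℓ ∧ ∃ i j k l m, Dst i j k l m ∧ BadZ ℓ v i j k l m).card : ℝ) ≤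
      ((C₀ : ℝ) / (M : ℝ) + (C₀ : ℝ) / (N : ℝ)) * (Cb N).card) {L : ℕ} (hL : 3 ≤ L) {s m : ℕ}
    (hmd : mul L (12 * s + 12 + 1) = m) (hm : 1 ≤ m) :
    ∃ C₁ C K : ℕ, ∀ N : ℕ, 1 ≤ N →
      ∀ S : Finset ℕ, (∀ p ∈ S, p.Prime ∧ 5 ≤ p) →
      ∀ T₀ : ℕ → ℕ, (∀ p ∈ S, T₀ p ≤ 2 * N + 1) →
      ∀ R : ℕ → ℝ, (∀ p ∈ S, 0 < R p) → (∀ p ∈ S, R p ^ 4 ≤ T₀ p) →
      (((Cb N).filter fun v => Ex6 m S T₀ v).card : ℝ) ≤
        ((C₁ : ℝ) / N + 384 * L / 2 ^ (s + 1) + (C₀ : ℝ) / (L : ℝ) +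
          1280 * m ^ 8 * (∑ p ∈ S, (p : ℝ) ^ 4 / R p) *
            ((Nat.log 2 (C * N ^ K) + 1 : ℕ) ^ (25 * (L + 1)))) * (Cb N).card := by
  choose Cf Kf hCK using fun e : Fin 5 × Fin 5 => poly_bound6 (TP6 e.1 e.2 m)
  refine ⟨(∑ l, ((curveA gX).Δ).degreeOf l) +
    (∑ e : Fin 5 × Fin 5, ∑ l, (TP6 e.1 e.2 m).degreeOf l) + 384 * L + C₀,
    1 + ∑ e, Cf e, ∑ e, Kf e, ?_⟩
  intro N hN S hS T₀ hT R hR0 hR
  have c1 := card_zeros6 (F := (curveA gX).Δ) dP_ne (N := N) hN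
  have c2 := card_T (N := N) hN hm
  have c3 := bad_small6 (N := N) hN L s
  have c4 := hC₀ N L hN (by omega)
  have cE := card_E (N := N) (L := L) (M := (1 + ∑ e, Cf e) * N ^ (∑ e, Kf e)) hS hm hT hR0 hR
  have hsub : ((Cb N).filter fun v => Ex6 m S T₀ v) ⊆
      (((((Cb N).filter fun v => MvPolynomial.eval v (curveA gX).Δ = 0) ∪
      ((Cb N).filter fun v => ∃ i j : Fin 5, i < j ∧ MvPolynomial.eval v (TP6 i j m) = 0)) ∪
      ((Cb N).filter fun v => ∃ ℓ : ℕ, ℓ.Prime ∧ ℓ ≤ L ∧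
        (ℓ : ℤ) ^ (12 * s + 12 + 1) ∣ 544195584 * (curveA v).Δ)) ∪
      ((Cb N).filter fun v => ∃ ℓ : ℕ, ℓ.Prime ∧ L < ℓ ∧ ∃ i j k l m, Dst i j k l m ∧
        BadZ ℓ v i j k l m)) ∪
      ((Sm5 L ((1 + ∑ e, Cf e) * N ^ (∑ e, Kf e))).biUnion fun d =>
        (Cb N).filter fun v => TypS m d v ∧
          ∃ p ∈ S, ∃ hp : Fact p.Prime, @ExcS p hp (T₀ p) v) := by
    intro v hv
    obtain ⟨hvb, hex⟩ := mem_filter.1 hv
    by_cases k1 : MvPolynomial.eval v (curveA gX).Δ = 0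
    · exact mem_union_left _ (mem_union_left _ (mem_union_left _ (mem_union_left _
        (mem_filter.2 ⟨hvb, k1⟩))))
    by_cases k2 : ∃ i j : Fin 5, i < j ∧ MvPolynomial.eval v (TP6 i j m) = 0
    · exact mem_union_left _ (mem_union_left _ (mem_union_left _ (mem_union_right _
        (mem_filter.2 ⟨hvb, k2⟩))))
    by_cases k3 : ∃ ℓ : ℕ, ℓ.Prime ∧ ℓ ≤ L ∧
        (ℓ : ℤ) ^ (12 * s + 12 + 1) ∣ 544195584 * (curveA v).Δ
    · exact mem_union_left _ (mem_union_left _ (mem_union_right _ (mem_filter.2 ⟨hvb, k3⟩)))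
    by_cases k4 : ∃ ℓ : ℕ, ℓ.Prime ∧ L < ℓ ∧ ∃ i j k l m, Dst i j k l m ∧ BadZ ℓ v i j k l m
    · exact mem_union_left _ (mem_union_right _ (mem_filter.2 ⟨hvb, k4⟩))
    obtain ⟨d, hd, hdv⟩ := type6 hL hmd hCK hN hvb k1 k2 k3 k4
    have hD : (curveA v).Δ ≠ 0 := fun h => k1 ((dP_eval v).trans h)
    exact mem_union_right _ (mem_biUnion.2 ⟨d, hd, mem_filter.2 ⟨hvb, hdv,
      (hex.resolve_left hD).resolve_left (fun hcon => hcon ⟨d, hdv⟩)⟩⟩)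
  have htot := (card_le_card hsub).trans ((card_union_le _ _).trans (add_le_add_left
    ((card_union_le _ _).trans (add_le_add_left ((card_union_le _ _).trans (add_le_add_left
      (card_union_le _ _) _)) _)) _))
  have htot' := (Nat.cast_le (α := ℝ)).2 htot
  rw [Nat.cast_add, Nat.cast_add, Nat.cast_add, Nat.cast_add] at htot'
  have hsum := add_le_add (add_le_add (add_le_add (add_le_add c1 c2) c3) c4) cE
  refine htot'.trans (hsum.trans (le_of_eq ?_))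
  generalize ((Cb N).card : ℝ) = Q
  generalize (∑ p ∈ S, (p : ℝ) ^ 4 / R p) = Q'
  generalize (∑ e : Fin 5 × Fin 5, ∑ l, (TP6 e.1 e.2 m).degreeOf l) = q1
  generalize (∑ l, ((curveA gX).Δ).degreeOf l) = q2
  generalize (Nat.log 2 ((1 + ∑ e, Cf e) * N ^ (∑ e, Kf e)) + 1 : ℕ) = q3
  push_cast
  ring

end Pool.Agent.K3h13.RG
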