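import Pool.Agent.K3h13.RG.Fam4

/-!
# Every residue class of good reduction contains a positive proportion of marked members
-/

set_option autoImplicit false

namespace Pool.Agent.K3h13.RG

open Finset Pool.Agent.Y732

/-- a vector for which all points are nonsingular modulo all primes (the curve has the
discriminant `37`) -/
def v₁ : Fin 6 → ℤ := ![0, -1, 0, 1, 0, 0]

lemma nsat_v₁ (ℓ : ℕ) (hℓ : ℓ.Prime) : NSat ℓ v₁ := by
  intro i j hij
  have key : ∀ i j : Fin 5, i < j → Int.gcd (2 * yA v₁ i j + v₁ 0 * xA v₁ i j + pa3 v₁)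
      (v₁ 0 * yA v₁ i j - (3 * xA v₁ i j ^ 2 + 2 * (curveA v₁).a₂ * xA v₁ i j +
        (curveA v₁).a₄)) = 1 := by
    decide
  rintro ⟨h1, h2⟩
  have h3 := Int.dvd_coe_gcd h1 h2
  rw [key i j hij] at h3
  have h4 : ℓ ∣ 1 := by exact_mod_cast h3
  exact hℓ.one_lt.ne' (Nat.dvd_one.1 h4)

lemma delta_congr {p : ℕ} {v w : Fin 6 → ℤ} (h : ∀ l, v l ≡ w l [ZMOD p])
    (hw : ¬ (p : ℤ) ∣ (curveA w).Δ) : ¬ (p : ℤ) ∣ (curveA v).Δ := by
  have hvw : (fun l => ((v l : ℤ) : ZMod p)) = fun l => ((w l : ℤ) : ZMod p) := by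
    funext l
    exact (ZMod.intCast_eq_intCast_iff _ _ _).2 (h l)
  have e : ∀ u : Fin 6 → ℤ, (((curveA u).Δ : ℤ) : ZMod p) =
      (curveA (fun l => ((u l : ℤ) : ZMod p))).Δ := by
    intro u
    have h1 := map_curveA (Int.castRingHom (ZMod p)) u
    simp only [eq_intCast] at h1
    rw [← h1, WeierstrassCurve.map_Δ]
    rfl
  rw [← ZMod.intCast_zmod_eq_zero_iff_dvd] at hw ⊢
  rw [e v, hvw, ← e w]
  exact hw

/-- a class modulo a product of coprime numbers -/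
lemma crt {p m : ℕ} (h : p.Coprime m) (a b : Fin 6 → ℤ) :
    ∃ c : Fin 6 → ℤ, (∀ l, c l ≡ a l [ZMOD p]) ∧ ∀ l, c l ≡ b l [ZMOD m] := by
  have hb : ∃ x y : ℤ, (p : ℤ) * x + m * y = 1 := by
    have := Nat.isCoprime_iff_coprime.2 h
    obtain ⟨x, y, hxy⟩ := this
    exact ⟨x, y, by linarith⟩
  obtain ⟨x, y, hxy⟩ := hb
  refine ⟨fun l => a l + (b l - a l) * (p * x), fun l => ?_, fun l => ?_⟩
  · exact Int.modEq_iff_dvd.2 ⟨-((b l - a l) * x), by ring⟩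
  · refine Int.modEq_iff_dvd.2 ⟨(b l - a l) * y, ?_⟩
    linear_combination (b l - a l) * (-hxy)

open scoped Classical in
lemma class_cube (N q : ℕ) (hq : 0 < q) (hN : q ≤ N) (c : Fin 6 → ℤ) :
    ((N : ℚ) / q) ^ 6 ≤ ((Cb N).filter fun v => ∀ l, v l ≡ c l [ZMOD q]).card := by
  have hqQ : (0 : ℚ) < q := by exact_mod_cast hq
  have hsub : (Fintype.piFinset fun l =>
      (Ico (-(N : ℤ)) (-(N : ℤ) + ((2 * N + 1 : ℕ) : ℤ))).filter fun z => z ≡ c l [ZMOD q]) ⊆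
      (Cb N).filter fun v => ∀ l, v l ≡ c l [ZMOD q] := by
    intro v hv
    rw [Fintype.mem_piFinset] at hv
    simp only [mem_filter, mem_Ico] at hv
    rw [mem_filter, mem_Cb]
    refine ⟨fun l => ⟨(hv l).1.1, ?_⟩, fun l => (hv l).2⟩
    have := (hv l).1.2
    push_cast at this
    omega
  have h1 : ∀ l : Fin 6, (N : ℚ) / q ≤
      (((Ico (-(N : ℤ)) (-(N : ℤ) + ((2 * N + 1 : ℕ) : ℤ))).filter fun z =>
        z ≡ c l [ZMOD q]).card : ℚ) := by
    intro l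
    have h2 := class_card_ge (-(N : ℤ)) (2 * N + 1) q hq (c l)
    refine le_trans ?_ h2
    push_cast
    rw [le_sub_iff_add_le, div_add_one hqQ.ne']
    apply div_le_div_of_nonneg_right _ hqQ.le
    have : (q : ℚ) ≤ N := by exact_mod_cast hN
    linarith
  calc ((N : ℚ) / q) ^ 6 = ∏ _l : Fin 6, ((N : ℚ) / q) := by
        rw [prod_const, card_univ, Fintype.card_fin]
    _ ≤ ∏ l : Fin 6, (((Ico (-(N : ℤ)) (-(N : ℤ) + ((2 * N + 1 : ℕ) : ℤ))).filter fun z =>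
        z ≡ c l [ZMOD q]).card : ℚ) :=
        prod_le_prod (fun l _ => by positivity) (fun l _ => h1 l)
    _ = ((Fintype.piFinset fun l =>
      (Ico (-(N : ℤ)) (-(N : ℤ) + ((2 * N + 1 : ℕ) : ℤ))).filter fun z =>
        z ≡ c l [ZMOD q]).card : ℚ) := by
        rw [Fintype.card_piFinset, Nat.cast_prod]
    _ ≤ _ := by exact_mod_cast card_le_card hsub

open scoped Classical in
/-- Every residue class modulo `p` of good reduction contains a positive proportion of marked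
members. -/
theorem many_marked :
    ∃ m₀ N₀ : ℕ, 0 < m₀ ∧ ∀ p : ℕ, p.Prime → ∀ N : ℕ, N₀ * p ^ 8 ≤ N → 0 < N →
      ∀ v₀ : Fin 6 → ℤ, ¬ (p : ℤ) ∣ (curveA v₀).Δ →
      ((N : ℚ) / (p * m₀)) ^ 6 / 2 ≤ ((Cb N).filter fun v => (∀ l, v l ≡ v₀ l [ZMOD p]) ∧
        family4.Marked v).card := by
  obtain ⟨M, hM⟩ : ∃ M : ℕ, M = 4 * 9375 * 8192 * 54 ^ 6 := ⟨_, rfl⟩
  have hM2 : 2 < M := by rw [hM]; norm_num
  obtain ⟨C, hC⟩ : ∃ C : ℕ, C = 9375 * 54 ^ 5 * 10136 := ⟨_, rfl⟩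
  set m₀ : ℕ := ∏ ℓ ∈ (range (M + 1)).filter (fun ℓ => ℓ.Prime), ℓ with hm₀
  have hm₀0 : 0 < m₀ := by
    rw [hm₀]
    apply prod_pos
    intro ℓ hℓ
    rw [mem_filter] at hℓ
    exact hℓ.2.pos
  refine ⟨m₀, 4 * C * m₀ ^ 8 + m₀, hm₀0, fun p hp N hN hN0 v₀ hgood => ?_⟩
  set m : ℕ := ∏ ℓ ∈ (range (M + 1)).filter (fun ℓ => ℓ.Prime ∧ ℓ ≠ p), ℓ with hm
  have hm0 : 0 < m := by
    rw [hm]
    apply prod_pos
    intro ℓ hℓ
    rw [mem_filter] at hℓ
    exact hℓ.2.1.pos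
  have hmm : m ≤ m₀ := by
    rw [hm, hm₀]
    apply Nat.le_of_dvd hm₀0
    apply prod_dvd_prod_of_subset
    intro ℓ hℓ
    rw [mem_filter] at hℓ ⊢
    exact ⟨hℓ.1, hℓ.2.1⟩
  have hcop : p.Coprime m := by
    rw [hm]
    apply Nat.Coprime.prod_right
    intro ℓ hℓ
    rw [mem_filter] at hℓ
    exact (Nat.coprime_primes hp hℓ.2.1).2 (Ne.symm hℓ.2.2)
  set q : ℕ := p * m with hq
  have hq0 : 0 < q := Nat.mul_pos hp.pos hm0
  have hqm : q ≤ p * m₀ := Nat.mul_le_mul_left _ hmm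
  have hN' : 4 * C * q ^ 8 + q ≤ N := by
    refine le_trans ?_ hN
    have h1 : q ^ 8 ≤ (p * m₀) ^ 8 := Nat.pow_le_pow_left hqm 8
    have h2 : q ≤ m₀ * p ^ 8 := by
      refine hqm.trans ?_
      rw [mul_comm]
      exact Nat.mul_le_mul_left _ (Nat.le_self_pow (by norm_num) p)
    calc 4 * C * q ^ 8 + q ≤ 4 * C * (p * m₀) ^ 8 + m₀ * p ^ 8 :=
          Nat.add_le_add (Nat.mul_le_mul_left _ h1) h2
      _ = _ := by ring
  obtain ⟨c, hc1, hc2⟩ := crt hcop v₀ v₁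
  have hNq : q ≤ N := by
    have : 0 ≤ 4 * C * q ^ 8 := Nat.zero_le _
    omega
  set S := (Cb N).filter fun v => ∀ l, v l ≡ c l [ZMOD q] with hS
  set B := (Cb N).filter fun v => (∀ l, v l ≡ c l [ZMOD q]) ∧
      ∃ ℓ : ℕ, ℓ.Prime ∧ M < ℓ ∧ q.Coprime ℓ ∧ ∃ i j k l m, Dst i j k l m ∧
        BadZ ℓ v i j k l m with hB
  set G := (Cb N).filter fun v => (∀ l, v l ≡ v₀ l [ZMOD p]) ∧ family4.Marked v with hG
  have hpq : ∀ {a b : ℤ}, a ≡ b [ZMOD q] → a ≡ b [ZMOD p] := by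
    intro a b h
    exact h.of_dvd (Dvd.intro _ (by rw [hq]; push_cast; rfl))
  have hmq : ∀ {a b : ℤ}, a ≡ b [ZMOD q] → a ≡ b [ZMOD m] := by
    intro a b h
    exact h.of_dvd (Dvd.intro_left _ (by rw [hq]; push_cast; rfl))
  have hcover : S ⊆ G ∪ B := by
    intro v hv
    rw [hS, mem_filter] at hv
    obtain ⟨hv1, hv2⟩ := hv
    rw [mem_union]
    by_cases hbad : ∃ ℓ : ℕ, ℓ.Prime ∧ M < ℓ ∧ q.Coprime ℓ ∧ ∃ i j k l m, Dst i j k l m ∧
        BadZ ℓ v i j k l m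
    · right
      rw [hB, mem_filter]
      exact ⟨hv1, hv2, hbad⟩
    · left
      rw [hG, mem_filter]
      have hcp : ∀ l, v l ≡ v₀ l [ZMOD p] := fun l => (hpq (hv2 l)).trans (hc1 l)
      have hD := delta_congr hcp hgood
      refine ⟨hv1, hcp, marked_of ?_ ?_⟩
      · intro h0
        apply hD
        rw [h0]
        exact dvd_zero _
      · intro ℓ hℓ
        by_cases hℓp : ℓ = p
        · subst hℓp
          exact nsat_good hℓ hD
        · by_cases hℓM : ℓ ≤ M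
          · have hℓm : ℓ ∣ m := by
              rw [hm]
              apply dvd_prod_of_mem
              rw [mem_filter, mem_range]
              exact ⟨by omega, hℓ, hℓp⟩
            apply nsat_congr _ (nsat_v₁ ℓ hℓ)
            intro l
            exact ((hmq (hv2 l)).trans (hc2 l)).of_dvd (by exact_mod_cast hℓm)
          · rw [not_le] at hℓM
            apply nsat_of_not_bad hℓ (by omega)
            intro hb
            apply hbad
            refine ⟨ℓ, hℓ, hℓM, ?_, hb⟩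
            rw [hq]
            apply Nat.Coprime.mul_left
            · exact (Nat.coprime_primes hp hℓ).2 (Ne.symm hℓp)
            · rw [hm]
              apply Nat.Coprime.prod_left
              intro r hr
              rw [mem_filter, mem_range] at hr
              exact (Nat.coprime_primes hr.2.1 hℓ).2 (by omega)
  have h1 : (S.card : ℚ) ≤ G.card + B.card := by
    exact_mod_cast (card_le_card hcover).trans (card_union_le _ _)
  have h2 := class_cube N q hq0 hNq c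
  rw [← hS] at h2
  have h3 := bad_count N q M hq0 (by omega) hN0 c
  rw [← hB] at h3
  obtain ⟨Z, hZ⟩ : ∃ Z : ℚ, Z = (N : ℚ) / q := ⟨_, rfl⟩
  have hqQ : (0 : ℚ) < q := by exact_mod_cast hq0
  have hNQ : (0 : ℚ) < N := by exact_mod_cast hN0
  have hZ0 : 0 < Z := by rw [hZ]; positivity
  have h4 : 9375 * (8192 * ((54 * (N : ℚ) / q) ^ 6 / M + q ^ 2 * (54 * N) ^ 5) +
        1944 * (54 * N) ^ 5) ≤ Z ^ 6 / 2 := by
    have e1 : 9375 * (8192 * ((54 * (N : ℚ) / q) ^ 6 / M)) = Z ^ 6 / 4 := by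
      have : (54 * (N : ℚ) / q) = 54 * Z := by rw [hZ]; ring
      rw [this, hM]
      push_cast
      ring
    have e2 : 9375 * (8192 * ((q : ℚ) ^ 2 * (54 * N) ^ 5) + 1944 * (54 * N) ^ 5) ≤
        C * q ^ 2 * N ^ 5 := by
      have hq1 : (1 : ℚ) ≤ (q : ℚ) ^ 2 := by
        have : (1 : ℚ) ≤ q := by exact_mod_cast hq0
        exact one_le_pow₀ this
      rw [hC]
      push_cast
      have hN5 : (0 : ℚ) ≤ (N : ℚ) ^ 5 := by positivity
      nlinarith [mul_le_mul_of_nonneg_right hq1 hN5]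
    have e3 : (C : ℚ) * q ^ 2 * N ^ 5 ≤ Z ^ 6 / 4 := by
      rw [hZ, div_pow, div_div, le_div_iff₀ (by positivity)]
      have e4 : (4 * C * q ^ 8 : ℚ) ≤ N := by
        have : 4 * C * q ^ 8 ≤ N := by omega
        exact_mod_cast this
      calc (C : ℚ) * (q : ℚ) ^ 2 * (N : ℚ) ^ 5 * ((q : ℚ) ^ 6 * 4) =
          (4 * (C : ℚ) * (q : ℚ) ^ 8) * (N : ℚ) ^ 5 := by ring
        _ ≤ (N : ℚ) * (N : ℚ) ^ 5 := mul_le_mul_of_nonneg_right e4 (by positivity)
        _ = (N : ℚ) ^ 6 := by ring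
    calc 9375 * (8192 * ((54 * (N : ℚ) / q) ^ 6 / M + q ^ 2 * (54 * N) ^ 5) +
        1944 * (54 * N) ^ 5) = 9375 * (8192 * ((54 * (N : ℚ) / q) ^ 6 / M)) +
        9375 * (8192 * ((q : ℚ) ^ 2 * (54 * N) ^ 5) + 1944 * (54 * N) ^ 5) := by ring
      _ ≤ Z ^ 6 / 4 + Z ^ 6 / 4 := add_le_add e1.le (e2.trans e3)
      _ = Z ^ 6 / 2 := by ring
  rw [← hZ] at h2
  have h5 : ((N : ℚ) / (p * m₀)) ^ 6 ≤ Z ^ 6 := by
    apply pow_le_pow_left₀ (by positivity)
    rw [hZ]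
    apply div_le_div_of_nonneg_left hNQ.le hqQ
    exact_mod_cast hqm
  linarith

end Pool.Agent.K3h13.RG
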