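import Pool.Agent.K3h13.RG.Line2
import Pool.Agent.K3h13.RG.Many

/-!
# Parameters with a bad prime: small primes and large primes
-/

set_option autoImplicit false

namespace Pool.Agent.K3h13.RG

open Finset Pool.Agent.Y732 Pool.Agent.K3h2.AP

lemma card_Cb (N : ℕ) : (Cb N).card = (2 * N + 1) ^ 6 := by
  unfold Cb
  rw [Fintype.card_piFinset]
  simp only [card_IccY, prod_const, card_univ, Fintype.card_fin]

/-- the zeros of a polynomial in the cube -/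
lemma card_zeros6 {F : MvPolynomial (Fin 6) ℤ} (hF : F ≠ 0) {N : ℕ} (hN : 0 < N) :
    (((Cb N).filter fun v => MvPolynomial.eval v F = 0).card : ℝ) ≤
      ((∑ l, F.degreeOf l : ℕ) : ℝ) / N * (Cb N).card := by
  have h1 := MvPolynomial.schwartz_zippel_sum_degreeOf hF (fun _ => Icc (-(N : ℤ)) (N : ℤ))
  have hb : (∏ _i : Fin 6, ((Icc (-(N : ℤ)) (N : ℤ)).card : ℚ≥0)) = ((Cb N).card : ℚ≥0) := by
    unfold Cb
    rw [Fintype.card_piFinset]
    push_cast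
    rfl
  rw [hb] at h1
  have hpos : (0 : ℚ≥0) < ((Cb N).card : ℚ≥0) := by
    have : 0 < (Cb N).card := by
      rw [card_Cb]
      positivity
    exact_mod_cast this
  rw [div_le_iff₀ hpos] at h1
  have h2 : (∑ i : Fin 6, ((F.degreeOf i : ℚ≥0) / ((Icc (-(N : ℤ)) (N : ℤ)).card : ℚ≥0))) ≤
      ((∑ l, F.degreeOf l : ℕ) : ℚ≥0) / N := by
    push_cast
    rw [sum_div]
    refine sum_le_sum fun i _ => ?_
    have hN' : (0 : ℚ≥0) < N := by exact_mod_cast hN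
    refine div_le_div_of_nonneg_left (by positivity) hN' ?_
    rw [card_IccY]
    exact_mod_cast (by omega : N ≤ 2 * N + 1)
  have h3 := h1.trans (mul_le_mul_of_nonneg_right h2 hpos.le)
  have h4 : ((((Cb N).filter fun v => MvPolynomial.eval v F = 0).card : ℚ≥0) : ℝ) ≤
      ((((∑ l, F.degreeOf l : ℕ) : ℚ≥0) / N * ((Cb N).card : ℚ≥0) : ℚ≥0) : ℝ) := by
    exact_mod_cast h3
  push_cast at h4 ⊢
  exact h4

/-- the size of a polynomial -/
lemma poly_bound6 (F : MvPolynomial (Fin 6) ℤ) : ∃ C K : ℕ, ∀ (M : ℕ) (v : Fin 6 → ℤ), 1 ≤ M →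
    (∀ l, |v l| ≤ M) → |MvPolynomial.eval v F| ≤ (C * M ^ K : ℕ) := by
  induction F using MvPolynomial.induction_on with
  | C a =>
    refine ⟨a.natAbs, 0, fun M v _ _ => ?_⟩
    rw [MvPolynomial.eval_C]
    simp
  | add F G hF hG =>
    obtain ⟨C, K, hF⟩ := hF
    obtain ⟨C', K', hG⟩ := hG
    refine ⟨C + C', K + K', fun M v hM hv => ?_⟩
    rw [map_add]
    refine (abs_add_le _ _).trans ((add_le_add (hF M v hM hv) (hG M v hM hv)).trans ?_)
    norm_cast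
    rw [Nat.add_mul]
    have h1 : M ^ K ≤ M ^ (K + K') := Nat.pow_le_pow_right hM (by omega)
    have h2 : M ^ K' ≤ M ^ (K + K') := Nat.pow_le_pow_right hM (by omega)
    exact add_le_add (Nat.mul_le_mul_left _ h1) (Nat.mul_le_mul_left _ h2)
  | mul_X F i hF =>
    obtain ⟨C, K, hF⟩ := hF
    refine ⟨C, K + 1, fun M v hM hv => ?_⟩
    rw [map_mul, MvPolynomial.eval_X, abs_mul]
    refine (mul_le_mul (hF M v hM hv) (hv i) (abs_nonneg _) (by positivity)).trans ?_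
    apply le_of_eq
    push_cast
    ring

lemma disc_v₁ : (curveA v₁).Δ = 37 := by decide

lemma not_dvd_lead {ℓ : ℕ} (hℓ : ℓ.Prime) : ¬ (ℓ : ℤ) ^ 13 ∣ 544195584 * (curveA v₁).Δ := by
  rw [disc_v₁]
  intro h
  have h1 : ℓ ^ 13 ∣ 2 ^ 10 * (3 ^ 12 * 37) := by
    have h2 : (544195584 * 37 : ℤ) = ((2 ^ 10 * (3 ^ 12 * 37) : ℕ) : ℤ) := by norm_num
    rw [h2] at h
    exact_mod_cast h
  have h2 : ℓ ∣ 2 ^ 10 * (3 ^ 12 * 37) := (dvd_pow_self ℓ (by norm_num)).trans h1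
  have h37 : Nat.Prime 37 := by norm_num
  rcases (Nat.Prime.dvd_mul hℓ).1 h2 with h3 | h3
  · have := (Nat.prime_dvd_prime_iff_eq hℓ Nat.prime_two).1 (hℓ.dvd_of_dvd_pow h3)
    subst this
    revert h1
    decide
  · rcases (Nat.Prime.dvd_mul hℓ).1 h3 with h4 | h4
    · have := (Nat.prime_dvd_prime_iff_eq hℓ Nat.prime_three).1 (hℓ.dvd_of_dvd_pow h4)
      subst this
      revert h1
      decide
    · have := (Nat.prime_dvd_prime_iff_eq hℓ h37).1 h4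
      subst this
      have := Nat.le_of_dvd (by norm_num) h1
      norm_num at this

/-- the coordinates which are constant on the lines in the direction `v₁` -/
def prj (v : Fin 6 → ℤ) : Fin 5 → ℤ := ![v 0, v 1 + v 3, v 2, v 4, v 5]

/-- the parameters with a discriminant which is highly divisible by `ℓ` -/
lemma small_one {ℓ : ℕ} (hℓ : ℓ.Prime) (N s : ℕ) :
    (((Cb N).filter fun v => (ℓ : ℤ) ^ (12 * s + 12 + 1) ∣ 544195584 * (curveA v).Δ).card : ℝ) ≤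
      (12 * (((2 * N + 1 : ℕ) : ℝ) / (ℓ ^ (s + 1) : ℕ) + 1)) * (4 * N + 1 : ℕ) ^ 5 := by
  have : Fact ℓ.Prime := ⟨hℓ⟩
  set Z := (Cb N).filter fun v => (ℓ : ℤ) ^ (12 * s + 12 + 1) ∣ 544195584 * (curveA v).Δ with hZ
  set B : Finset (Fin 5 → ℤ) := Fintype.piFinset fun _ => Icc (-((2 * N : ℕ) : ℤ)) ((2 * N : ℕ) : ℤ)
    with hB
  have hBc : B.card = (4 * N + 1) ^ 5 := by
    rw [hB, Fintype.card_piFinset]
    simp only [card_IccY, prod_const, card_univ, Fintype.card_fin]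
    congr 1
    ring
  have hmaps : ∀ v ∈ Z, prj v ∈ B := by
    intro v hv
    rw [hZ, mem_filter, mem_Cb] at hv
    have hv := hv.1
    have h0 := hv 0
    have h1 := hv 1
    have h2 := hv 2
    have h3 := hv 3
    have h4 := hv 4
    have h5 := hv 5
    rw [hB, Fintype.mem_piFinset]
    intro l
    rw [mem_Icc]
    push_cast
    fin_cases l
    · change -(2 * (N : ℤ)) ≤ v 0 ∧ v 0 ≤ 2 * N
      omega
    · change -(2 * (N : ℤ)) ≤ v 1 + v 3 ∧ v 1 + v 3 ≤ 2 * N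
      omega
    · change -(2 * (N : ℤ)) ≤ v 2 ∧ v 2 ≤ 2 * N
      omega
    · change -(2 * (N : ℤ)) ≤ v 4 ∧ v 4 ≤ 2 * N
      omega
    · change -(2 * (N : ℤ)) ≤ v 5 ∧ v 5 ≤ 2 * N
      omega
  have h1 : Z.card = ∑ b ∈ B, (Z.filter fun v => prj v = b).card :=
    card_eq_sum_card_fiberwise hmaps
  have h2 : ∀ b ∈ B, ((Z.filter fun v => prj v = b).card : ℝ) ≤
      12 * (((2 * N + 1 : ℕ) : ℝ) / (ℓ ^ (s + 1) : ℕ) + 1) := by
    intro b _
    set u : Fin 6 → ℤ := ![b 0, b 1, b 2, 0, b 3, b 4] with hu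
    set G : Polynomial ℤ := 544195584 * (curveA (ln u v₁)).Δ with hG
    set S := (Icc (-(N : ℤ)) (N : ℤ)).filter fun z => (ℓ : ℤ) ^ (12 * s + 12 + 1) ∣ G.eval z
      with hS
    have hline : ∀ v, prj v = b → v = fun l => u l + v₁ l * v 3 := by
      intro v hv
      have e0 : v 0 = b 0 := congrFun hv 0
      have e1 : v 1 + v 3 = b 1 := congrFun hv 1
      have e2 : v 2 = b 2 := congrFun hv 2
      have e4 : v 4 = b 3 := congrFun hv 3
      have e5 : v 5 = b 4 := congrFun hv 4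
      funext l
      fin_cases l
      · change v 0 = b 0 + 0 * v 3
        linarith
      · change v 1 = b 1 + (-1) * v 3
        linarith
      · change v 2 = b 2 + 0 * v 3
        linarith
      · change v 3 = 0 + 1 * v 3
        linarith
      · change v 4 = b 3 + 0 * v 3
        linarith
      · change v 5 = b 4 + 0 * v 3
        linarith
    have hcard : (Z.filter fun v => prj v = b).card ≤ S.card := by
      apply card_le_card_of_injOn (fun v => v 3)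
      · intro v hv
        rw [mem_coe, mem_filter, hZ, mem_filter, mem_Cb] at hv
        obtain ⟨⟨hv1, hv2⟩, hv3⟩ := hv
        rw [mem_coe, hS, mem_filter, mem_Icc]
        refine ⟨hv1 3, ?_⟩
        have e : G.eval (v 3) = 544195584 * (curveA v).Δ := by
          rw [hG, Polynomial.eval_mul, eval_disc, ← hline v hv3]
          congr 1
          exact Polynomial.eval_ofNat ..
        rw [e]
        exact hv2
      · intro v hv w hw h
        rw [mem_coe, mem_filter] at hv hw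
        rw [hline v hv.2, hline w hw.2]
        simp only at h
        rw [h]
    have hcl := poly_classes (ℓ := ℓ) (n := 12) (c := 12) (s := s)
      (((deg_disc u v₁).smul 544195584)) (not_dvd_lead hℓ) S (fun z hz => (mem_filter.1 hz).2)
    have h3 := card_classes N (r := ℓ ^ (s + 1)) (pow_pos hℓ.pos _) S (filter_subset _ _) 12 hcl
    have h4 : ((Z.filter fun v => prj v = b).card : ℝ) ≤ S.card := by exact_mod_cast hcard
    refine h4.trans (h3.trans (le_of_eq ?_))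
    push_cast
    ring
  have h3 : (Z.card : ℝ) = ∑ b ∈ B, ((Z.filter fun v => prj v = b).card : ℝ) := by
    exact_mod_cast h1
  rw [h3]
  refine (sum_le_sum h2).trans (le_of_eq ?_)
  rw [sum_const, nsmul_eq_mul, hBc]
  push_cast
  ring

open scoped Classical in
/-- the parameters with a discriminant which is highly divisible by a small prime -/
lemma bad_small6 {N : ℕ} (hN : 0 < N) (L s : ℕ) :
    (((Cb N).filter fun v => ∃ ℓ : ℕ, ℓ.Prime ∧ ℓ ≤ L ∧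
      (ℓ : ℤ) ^ (12 * s + 12 + 1) ∣ 544195584 * (curveA v).Δ).card : ℝ) ≤
      (384 * L / 2 ^ (s + 1) + 384 * L / N) * (Cb N).card := by
  have hN0 : (0 : ℝ) < N := by exact_mod_cast hN
  set Q : ℝ := (12 * (((2 * N + 1 : ℕ) : ℝ) / 2 ^ (s + 1) + 1)) * (4 * N + 1 : ℕ) ^ 5 with hQ
  have h1 : ((Cb N).filter fun v => ∃ ℓ : ℕ, ℓ.Prime ∧ ℓ ≤ L ∧
      (ℓ : ℤ) ^ (12 * s + 12 + 1) ∣ 544195584 * (curveA v).Δ) ⊆
      (Icc 1 L).biUnion fun ℓ => (Cb N).filter fun v => ℓ.Prime ∧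
        (ℓ : ℤ) ^ (12 * s + 12 + 1) ∣ 544195584 * (curveA v).Δ := by
    intro v hv
    obtain ⟨hv, ℓ, h1, h2, h3⟩ := mem_filter.1 hv
    rw [mem_biUnion]
    exact ⟨ℓ, mem_Icc.2 ⟨h1.one_le, h2⟩, mem_filter.2 ⟨hv, h1, h3⟩⟩
  have h2 : (((Cb N).filter fun v => ∃ ℓ : ℕ, ℓ.Prime ∧ ℓ ≤ L ∧
      (ℓ : ℤ) ^ (12 * s + 12 + 1) ∣ 544195584 * (curveA v).Δ).card : ℝ) ≤
      ∑ ℓ ∈ Icc 1 L, (((Cb N).filter fun v => ℓ.Prime ∧
        (ℓ : ℤ) ^ (12 * s + 12 + 1) ∣ 544195584 * (curveA v).Δ).card : ℝ) := by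
    exact_mod_cast (card_le_card h1).trans card_biUnion_le
  have h3 : ∀ ℓ ∈ Icc 1 L, (((Cb N).filter fun v => ℓ.Prime ∧
        (ℓ : ℤ) ^ (12 * s + 12 + 1) ∣ 544195584 * (curveA v).Δ).card : ℝ) ≤ Q := by
    intro ℓ _
    by_cases hℓ : ℓ.Prime
    · have h4 := small_one hℓ N s
      have e : ((Cb N).filter fun v => ℓ.Prime ∧
        (ℓ : ℤ) ^ (12 * s + 12 + 1) ∣ 544195584 * (curveA v).Δ) =
        (Cb N).filter fun v => (ℓ : ℤ) ^ (12 * s + 12 + 1) ∣ 544195584 * (curveA v).Δ := by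
        apply filter_congr
        intro v _
        exact ⟨fun h => h.2, fun h => ⟨hℓ, h⟩⟩
      rw [e]
      refine h4.trans ?_
      rw [hQ]
      apply mul_le_mul_of_nonneg_right _ (by positivity)
      have h5 : (2 : ℝ) ^ (s + 1) ≤ ((ℓ ^ (s + 1) : ℕ) : ℝ) := by
        exact_mod_cast Nat.pow_le_pow_left hℓ.two_le _
      gcongr
    · have e : ((Cb N).filter fun v => ℓ.Prime ∧
        (ℓ : ℤ) ^ (12 * s + 12 + 1) ∣ 544195584 * (curveA v).Δ) = ∅ := by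
        rw [filter_eq_empty_iff]
        exact fun v _ h => hℓ h.1
      rw [e, card_empty, Nat.cast_zero]
      positivity
  refine h2.trans ((sum_le_sum h3).trans ?_)
  rw [sum_const, nsmul_eq_mul, Nat.card_Icc, Nat.add_sub_cancel, hQ, card_Cb]
  have h5 : ((4 * N + 1 : ℕ) : ℝ) ^ 5 ≤ 32 * ((2 * N + 1 : ℕ) : ℝ) ^ 5 := by
    have : ((4 * N + 1 : ℕ) : ℝ) ≤ 2 * ((2 * N + 1 : ℕ) : ℝ) := by
      push_cast
      linarith
    calc ((4 * N + 1 : ℕ) : ℝ) ^ 5 ≤ (2 * ((2 * N + 1 : ℕ) : ℝ)) ^ 5 :=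
          pow_le_pow_left₀ (by positivity) this 5
      _ = _ := by ring
  set M : ℝ := ((2 * N + 1 : ℕ) : ℝ) with hM
  have hMN : (N : ℝ) ≤ M := by
    rw [hM]
    push_cast
    linarith
  have hM0 : 0 < M := lt_of_lt_of_le hN0 hMN
  have h6 : (1 : ℝ) ≤ M / N := by rwa [le_div_iff₀ hN0, one_mul]
  have hL0 : (0 : ℝ) ≤ L := by positivity
  calc (L : ℝ) * (12 * (M / 2 ^ (s + 1) + 1) * ((4 * N + 1 : ℕ) : ℝ) ^ 5)
      ≤ (L : ℝ) * (12 * (M / 2 ^ (s + 1) + M / N) * (32 * M ^ 5)) := by gcongr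
    _ = (384 * L / 2 ^ (s + 1) + 384 * L / N) * M ^ 6 := by ring
    _ = _ := by
      rw [hM]
      push_cast
      ring

open scoped Classical in
/-- the parameters which are bad at a large prime -/
lemma bad_large6 {N M : ℕ} (hN : 0 < N) (hM : 0 < M) :
    (((Cb N).filter fun v => ∃ ℓ : ℕ, ℓ.Prime ∧ M < ℓ ∧ ∃ i j k l m, Dst i j k l m ∧
        BadZ ℓ v i j k l m).card : ℝ) ≤
      ((9375 * 8192 * 54 ^ 6 : ℕ) / (M : ℝ) + (9375 * 8192 * 54 ^ 6 : ℕ) / (N : ℝ)) *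
        (Cb N).card := by
  have h1 := bad_count N 1 M one_pos hM hN (fun _ => 0)
  have e : ((Cb N).filter fun v => (∀ l, v l ≡ (fun _ => 0 : Fin 6 → ℤ) l [ZMOD (1 : ℕ)]) ∧
      ∃ ℓ : ℕ, ℓ.Prime ∧ M < ℓ ∧ Nat.Coprime 1 ℓ ∧ ∃ i j k l m, Dst i j k l m ∧
        BadZ ℓ v i j k l m) = (Cb N).filter fun v => ∃ ℓ : ℕ, ℓ.Prime ∧ M < ℓ ∧
        ∃ i j k l m, Dst i j k l m ∧ BadZ ℓ v i j k l m := by
    apply filter_congr
    intro v _
    constructor
    · rintro ⟨-, ℓ, a, b, -, c⟩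
      exact ⟨ℓ, a, b, c⟩
    · rintro ⟨ℓ, a, b, c⟩
      refine ⟨fun l => ?_, ℓ, a, b, Nat.coprime_one_left ℓ, c⟩
      rw [Nat.cast_one]
      exact Int.modEq_one
  rw [e] at h1
  have h2 : (((Cb N).filter fun v => ∃ ℓ : ℕ, ℓ.Prime ∧ M < ℓ ∧ ∃ i j k l m, Dst i j k l m ∧
        BadZ ℓ v i j k l m).card : ℝ) ≤ 9375 * (8192 * ((54 * (N : ℝ) / (1 : ℕ)) ^ 6 / M +
          (1 : ℕ) ^ 2 * (54 * N) ^ 5) + 1944 * (54 * N) ^ 5) := by
    have h1' := (Rat.cast_le (K := ℝ)).2 h1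
    push_cast at h1' ⊢
    exact h1'
  refine h2.trans ?_
  rw [card_Cb]
  have hN0 : (0 : ℝ) < N := by exact_mod_cast hN
  have hM0 : (0 : ℝ) < M := by exact_mod_cast hM
  have h3 : (N : ℝ) ^ 6 ≤ (((2 * N + 1) ^ 6 : ℕ) : ℝ) := by
    push_cast
    exact pow_le_pow_left₀ hN0.le (by linarith) 6
  have h4 : (0 : ℝ) ≤ (9375 * 8192 * 54 ^ 6 : ℕ) / (M : ℝ) +
      (9375 * 8192 * 54 ^ 6 : ℕ) / (N : ℝ) := by positivity
  refine le_trans ?_ (mul_le_mul_of_nonneg_left h3 h4)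
  have h5 : 9375 * (8192 * ((54 * (N : ℝ) / (1 : ℕ)) ^ 6 / M +
          (1 : ℕ) ^ 2 * (54 * N) ^ 5) + 1944 * (54 * N) ^ 5) =
      (9375 * 8192 * 54 ^ 6) / (M : ℝ) * (N : ℝ) ^ 6 +
        9375 * (8192 + 1944) * 54 ^ 5 * (N : ℝ) ^ 5 := by
    push_cast
    ring
  have h6 : ((9375 * 8192 * 54 ^ 6 : ℕ) / (M : ℝ) +
      (9375 * 8192 * 54 ^ 6 : ℕ) / (N : ℝ)) * (N : ℝ) ^ 6 =
      (9375 * 8192 * 54 ^ 6) / (M : ℝ) * (N : ℝ) ^ 6 + 9375 * 8192 * 54 ^ 6 * (N : ℝ) ^ 5 := by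
    have e7 : ((9375 * 8192 * 54 ^ 6 : ℕ) : ℝ) / (N : ℝ) * (N : ℝ) ^ 6 =
        ((9375 * 8192 * 54 ^ 6 : ℕ) : ℝ) * (N : ℝ) ^ 5 := by
      rw [div_mul_eq_mul_div, div_eq_iff hN0.ne']
      ring
    rw [add_mul, e7]
    push_cast
    ring
  rw [h5, h6]
  have h7 : (0 : ℝ) ≤ (N : ℝ) ^ 5 := by positivity
  nlinarith

end Pool.Agent.K3h13.RG
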