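import Pool.Agent.K3h13.RG.Count

/-!
# The primes larger than the side of the cube
-/

set_option autoImplicit false

namespace Pool.Agent.K3h13.RG

open Finset Pool.Agent.Y732

lemma card_IccY (Y : ℕ) : (Icc (-(Y : ℤ)) Y).card = 2 * Y + 1 := by
  rw [Int.card_Icc]
  omega

/-- `f` is a linear map with `f E ≤ 5` coordinates -/
lemma card_le_cube {n : ℕ} (Y : ℕ) (S : Finset (Fin 6 → ℤ)) (g : Fin n → Fin 6) (hS : S ⊆ Cb Y)
    (hinj : ∀ E ∈ S, ∀ E' ∈ S, (∀ i, E (g i) = E' (g i)) → E = E') : S.card ≤ (2 * Y + 1) ^ n := by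
  have h1 : (Fintype.piFinset fun _ : Fin n => Icc (-(Y : ℤ)) Y).card = (2 * Y + 1) ^ n := by
    rw [Fintype.card_piFinset, prod_const, card_univ, Fintype.card_fin, card_IccY]
  rw [← h1]
  apply card_le_card_of_injOn (fun E i => E (g i))
  · intro E hE
    rw [mem_coe, Fintype.mem_piFinset]
    intro i
    rw [mem_Icc]
    exact (mem_Cb.1 (hS hE)) (g i)
  · intro E hE E' hE' h
    exact hinj E hE E' hE' fun i => congrFun h i

lemma eq_zero_of_dvd {Y ℓ : ℕ} {z : ℤ} (hY : Y < ℓ) (h1 : -(Y : ℤ) ≤ z) (h2 : z ≤ Y)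
    (h : (ℓ : ℤ) ∣ z) : z = 0 := by
  by_contra h0
  have h3 := Int.le_of_dvd (abs_pos.2 h0) ((dvd_abs _ _).2 h)
  have h4 : |z| ≤ Y := abs_le.2 ⟨h1, h2⟩
  omega

open scoped Classical in
lemma big_L (Y : ℕ) :
    ((Cb Y).filter fun E => ∃ ℓ : ℕ, ℓ.Prime ∧ Y < ℓ ∧ PL ℓ E).card ≤ (2 * Y + 1) ^ 5 := by
  apply card_le_cube Y _ (![1, 2, 3, 4, 5] : Fin 5 → Fin 6) (filter_subset _ _)
  have h0 : ∀ E ∈ (Cb Y).filter fun E => ∃ ℓ : ℕ, ℓ.Prime ∧ Y < ℓ ∧ PL ℓ E, E 0 = 0 := by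
    intro E hE
    rw [mem_filter, mem_Cb] at hE
    obtain ⟨h1, ℓ, -, hℓ, h2, -⟩ := hE
    exact eq_zero_of_dvd hℓ (h1 0).1 (h1 0).2 h2
  intro E hE E' hE' h
  funext l
  fin_cases l
  · exact (h0 E hE).trans (h0 E' hE').symm
  · exact h 0
  · exact h 1
  · exact h 2
  · exact h 3
  · exact h 4

/-- one residue class modulo `ℓ > Y` -/
lemma one_class (Y ℓ : ℕ) (hℓ : ℓ.Prime) (hY : Y < ℓ) (a c : ℤ) (ha : ¬ (ℓ : ℤ) ∣ a) :
    ((Icc (-(Y : ℤ)) Y).filter fun z => (ℓ : ℤ) ∣ a * z - c).card ≤ 3 := by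
  rcases ((Icc (-(Y : ℤ)) Y).filter fun z => (ℓ : ℤ) ∣ a * z - c).eq_empty_or_nonempty with h | ⟨z₀, hz₀⟩
  · rw [h, card_empty]
    omega
  · rw [mem_filter] at hz₀
    have h1 : ((Icc (-(Y : ℤ)) Y).filter fun z => (ℓ : ℤ) ∣ a * z - c) ⊆
        (Ico (-(Y : ℤ)) (-(Y : ℤ) + ((2 * Y + 1 : ℕ) : ℤ))).filter fun z => z ≡ z₀ [ZMOD ℓ] := by
      intro z hz
      rw [mem_filter, mem_Icc] at hz
      rw [mem_filter, mem_Ico]
      refine ⟨⟨hz.1.1, by push_cast; linarith [hz.1.2]⟩, ?_⟩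
      have h2 : (ℓ : ℤ) ∣ a * (z₀ - z) := by
        have := dvd_sub hz₀.2 hz.2
        have e : a * z₀ - c - (a * z - c) = a * (z₀ - z) := by ring
        rwa [e] at this
      exact Int.modEq_iff_dvd.2 (((Nat.prime_iff_prime_int.1 hℓ).dvd_or_dvd h2).resolve_left ha)
    have h2 := class_card_le (-(Y : ℤ)) (2 * Y + 1) ℓ hℓ.pos z₀
    have h3 : (((2 * Y + 1 : ℕ) : ℚ)) / ℓ ≤ 2 := by
      rw [div_le_iff₀ (by exact_mod_cast hℓ.pos)]
      have : 2 * Y + 1 ≤ 2 * ℓ := by omega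
      exact_mod_cast this
    have h4 : ((((Ico (-(Y : ℤ)) (-(Y : ℤ) + ((2 * Y + 1 : ℕ) : ℤ))).filter fun z =>
        z ≡ z₀ [ZMOD ℓ]).card : ℕ) : ℚ) ≤ ((3 : ℕ) : ℚ) := by
      push_cast
      push_cast at h2 h3
      linarith
    exact (card_le_card h1).trans (by exact_mod_cast h4)

/-- the pairs on a line modulo `ℓ > Y` -/
lemma one_line (Y ℓ : ℕ) (hℓ : ℓ.Prime) (hY : Y < ℓ) (a b : ℤ)
    (hab : ¬ ((ℓ : ℤ) ∣ a ∧ (ℓ : ℤ) ∣ b)) :
    ((Icc (-(Y : ℤ)) Y ×ˢ Icc (-(Y : ℤ)) Y).filter fun z => (ℓ : ℤ) ∣ a * z.2 - z.1 * b).card ≤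
      3 * (2 * Y + 1) := by
  classical
  by_cases ha : (ℓ : ℤ) ∣ a
  · have hb : ¬ (ℓ : ℤ) ∣ b := fun h => hab ⟨ha, h⟩
    rw [← card_IccY Y]
    apply card_le_mul_card_image_of_maps_to (f := Prod.snd)
    · intro z hz
      rw [mem_filter, mem_product] at hz
      exact hz.1.2
    · intro y _
      refine le_trans (card_le_card_of_injOn Prod.fst ?_ ?_) (one_class Y ℓ hℓ hY b (a * y) hb)
      · rintro ⟨z1, z2⟩ hz
        rw [mem_coe, mem_filter, mem_filter, mem_product] at hz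
        obtain ⟨⟨⟨h1, h2⟩, h3⟩, rfl⟩ := hz
        rw [mem_coe, mem_filter]
        refine ⟨h1, ?_⟩
        have e : b * z1 - a * z2 = -(a * z2 - z1 * b) := by ring
        change (ℓ : ℤ) ∣ b * z1 - a * z2
        rw [e]
        exact h3.neg_right
      · rintro ⟨z1, z2⟩ hz ⟨w1, w2⟩ hw h
        rw [mem_coe, mem_filter] at hz hw
        simp only at h
        rw [Prod.mk.injEq]
        exact ⟨h, hz.2.trans hw.2.symm⟩
  · rw [← card_IccY Y]
    apply card_le_mul_card_image_of_maps_to (f := Prod.fst)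
    · intro z hz
      rw [mem_filter, mem_product] at hz
      exact hz.1.1
    · intro y _
      refine le_trans (card_le_card_of_injOn Prod.snd ?_ ?_) (one_class Y ℓ hℓ hY a (y * b) ha)
      · rintro ⟨z1, z2⟩ hz
        rw [mem_coe, mem_filter, mem_filter, mem_product] at hz
        obtain ⟨⟨⟨h1, h2⟩, h3⟩, rfl⟩ := hz
        rw [mem_coe, mem_filter]
        exact ⟨h2, h3⟩
      · rintro ⟨z1, z2⟩ hz ⟨w1, w2⟩ hw h
        rw [mem_coe, mem_filter] at hz hw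
        simp only at h
        rw [Prod.mk.injEq]
        exact ⟨hz.2.trans hw.2.symm, h⟩

/-- few primes larger than `Y` divide a number of size `2 Y²` -/
lemma few_primes (Y : ℕ) (D : ℤ) (hD : D ≠ 0) (hD2 : |D| ≤ 2 * (Y : ℤ) ^ 2) :
    (D.natAbs.primeFactors.filter fun ℓ => Y < ℓ).card ≤ 2 := by
  by_contra h
  rw [not_le] at h
  have hN : D.natAbs ≠ 0 := Int.natAbs_ne_zero.2 hD
  have h1 : (Y + 1) ^ (D.natAbs.primeFactors.filter fun ℓ => Y < ℓ).card ≤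
      ∏ ℓ ∈ D.natAbs.primeFactors.filter fun ℓ => Y < ℓ, ℓ := by
    apply Finset.pow_card_le_prod
    intro ℓ hℓ
    rw [mem_filter] at hℓ
    omega
  have h2 : ∏ ℓ ∈ D.natAbs.primeFactors.filter (fun ℓ => Y < ℓ), ℓ ∣ D.natAbs :=
    (prod_dvd_prod_of_subset _ _ _ (filter_subset _ _)).trans (Nat.prod_primeFactors_dvd _)
  have h3 := Nat.le_of_dvd (Nat.pos_of_ne_zero hN) h2
  have h4 : (Y + 1) ^ 3 ≤ (Y + 1) ^ (D.natAbs.primeFactors.filter fun ℓ => Y < ℓ).card :=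
    Nat.pow_le_pow_right (by omega) h
  have h5 : (D.natAbs : ℤ) ≤ 2 * (Y : ℤ) ^ 2 := by
    rw [Int.natCast_natAbs]
    exact hD2
  have h6 : D.natAbs ≤ 2 * Y ^ 2 := by exact_mod_cast h5
  have h7 : (Y + 1) ^ 3 ≤ 2 * Y ^ 2 := h4.trans (h1.trans (h3.trans h6))
  nlinarith [sq_nonneg (Y : ℤ), Nat.zero_le (Y ^ 3), Nat.zero_le Y]

open scoped Classical in
lemma det_zero (Y : ℕ) :
    ((Cb Y).filter fun E => E 0 * E 4 - E 1 * E 3 = 0).card ≤ 2 * (2 * Y + 1) ^ 5 := by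
  have hsub : ((Cb Y).filter fun E => E 0 * E 4 - E 1 * E 3 = 0) ⊆
      ((Cb Y).filter fun E => E 0 = 0) ∪
      ((Cb Y).filter fun E => E 0 ≠ 0 ∧ E 0 * E 4 - E 1 * E 3 = 0) := by
    intro E hE
    rw [mem_filter] at hE
    rw [mem_union, mem_filter, mem_filter]
    by_cases h : E 0 = 0
    · exact Or.inl ⟨hE.1, h⟩
    · exact Or.inr ⟨hE.1, h, hE.2⟩
  have h1 : ((Cb Y).filter fun E => E 0 = 0).card ≤ (2 * Y + 1) ^ 5 := by
    apply card_le_cube Y _ (![1, 2, 3, 4, 5] : Fin 5 → Fin 6) (filter_subset _ _)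
    intro E hE E' hE' h
    rw [mem_filter] at hE hE'
    funext l
    fin_cases l
    · exact hE.2.trans hE'.2.symm
    · exact h 0
    · exact h 1
    · exact h 2
    · exact h 3
    · exact h 4
  have h2 : ((Cb Y).filter fun E => E 0 ≠ 0 ∧ E 0 * E 4 - E 1 * E 3 = 0).card ≤
      (2 * Y + 1) ^ 5 := by
    apply card_le_cube Y _ (![0, 1, 2, 3, 5] : Fin 5 → Fin 6) (filter_subset _ _)
    intro E hE E' hE' h
    rw [mem_filter] at hE hE'
    have e0 : E 0 = E' 0 := h 0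
    have e1 : E 1 = E' 1 := h 1
    have e2 : E 2 = E' 2 := h 2
    have e3 : E 3 = E' 3 := h 3
    have e5 : E 5 = E' 5 := h 4
    have e4 : E 4 = E' 4 := by
      have k1 := hE.2.2
      have k2 := hE'.2.2
      rw [← e0, ← e1, ← e3] at k2
      apply mul_left_cancel₀ hE.2.1
      linarith
    funext l
    fin_cases l
    · exact e0
    · exact e1
    · exact e2
    · exact e3
    · exact e4
    · exact e5
  calc _ ≤ _ := card_le_card hsub
    _ ≤ _ := card_union_le _ _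
    _ ≤ (2 * Y + 1) ^ 5 + (2 * Y + 1) ^ 5 := add_le_add h1 h2
    _ = _ := by ring

open scoped Classical in
lemma big_R (Y : ℕ) :
    ((Cb Y).filter fun E => ∃ ℓ : ℕ, ℓ.Prime ∧ Y < ℓ ∧ PR ℓ E).card ≤ 8 * (2 * Y + 1) ^ 5 := by
  set A := (Cb Y).filter fun E => ∃ ℓ : ℕ, ℓ.Prime ∧ Y < ℓ ∧ PR ℓ E with hA
  have hsub : A ⊆ ((Cb Y).filter fun E => E 0 * E 4 - E 1 * E 3 = 0) ∪
      (A.filter fun E => E 0 * E 4 - E 1 * E 3 ≠ 0) := by
    intro E hE
    rw [mem_union, mem_filter, mem_filter]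
    by_cases h : E 0 * E 4 - E 1 * E 3 = 0
    · exact Or.inl ⟨(mem_filter.1 hE).1, h⟩
    · exact Or.inr ⟨hE, h⟩
  have h1 : (A.filter fun E => E 0 * E 4 - E 1 * E 3 ≠ 0).card ≤
      (2 * (3 * (2 * Y + 1))) * (2 * Y + 1) ^ 4 := by
    have hc : (Fintype.piFinset fun _ : Fin 4 => Icc (-(Y : ℤ)) Y).card = (2 * Y + 1) ^ 4 := by
      rw [Fintype.card_piFinset, prod_const, card_univ, Fintype.card_fin, card_IccY]
    rw [← hc]
    apply card_le_mul_card_image_of_maps_to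
      (f := fun E : Fin 6 → ℤ => (![E 0, E 1, E 3, E 4] : Fin 4 → ℤ))
    · intro E hE
      rw [mem_filter, hA, mem_filter, mem_Cb] at hE
      rw [Fintype.mem_piFinset]
      intro l
      rw [mem_Icc]
      fin_cases l
      · exact hE.1.1 0
      · exact hE.1.1 1
      · exact hE.1.1 3
      · exact hE.1.1 4
    · intro g hg
      rw [Fintype.mem_piFinset] at hg
      simp only [mem_Icc] at hg
      by_cases hD : g 0 * g 3 - g 1 * g 2 = 0
      · rw [card_eq_zero.2]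
        · exact Nat.zero_le _
        · rw [filter_eq_empty_iff]
          intro E hE hEg
          rw [mem_filter] at hE
          apply hE.2
          rw [← hD, ← hEg]
          rfl
      · -- the primes
        have hDle : |g 0 * g 3 - g 1 * g 2| ≤ 2 * (Y : ℤ) ^ 2 := by
          have a0 : |g 0| ≤ Y := abs_le.2 (hg 0)
          have a1 : |g 1| ≤ Y := abs_le.2 (hg 1)
          have a2 : |g 2| ≤ Y := abs_le.2 (hg 2)
          have a3 : |g 3| ≤ Y := abs_le.2 (hg 3)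
          calc |g 0 * g 3 - g 1 * g 2| ≤ |g 0 * g 3| + |g 1 * g 2| := abs_sub _ _
            _ = |g 0| * |g 3| + |g 1| * |g 2| := by rw [abs_mul, abs_mul]
            _ ≤ Y * Y + Y * Y := by
              apply add_le_add
              · exact mul_le_mul a0 a3 (abs_nonneg _) (by positivity)
              · exact mul_le_mul a1 a2 (abs_nonneg _) (by positivity)
            _ = _ := by ring
        have hfew := few_primes Y _ hD hDle
        set Pr := (g 0 * g 3 - g 1 * g 2).natAbs.primeFactors.filter fun ℓ => Y < ℓ with hPr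
        set T : ℕ → Finset (ℤ × ℤ) := fun ℓ =>
          (Icc (-(Y : ℤ)) Y ×ˢ Icc (-(Y : ℤ)) Y).filter fun z =>
            (ℓ : ℤ) ∣ g 0 * z.2 - z.1 * g 2 ∧ (ℓ : ℤ) ∣ g 1 * z.2 - z.1 * g 3 with hT
        have hTcard : ∀ ℓ ∈ Pr, (T ℓ).card ≤ 3 * (2 * Y + 1) := by
          intro ℓ hℓ
          rw [hPr, mem_filter] at hℓ
          have hpr := Nat.prime_of_mem_primeFactors hℓ.1
          by_cases h : (ℓ : ℤ) ∣ g 0 ∧ (ℓ : ℤ) ∣ g 2
          · have h' : ¬ ((ℓ : ℤ) ∣ g 1 ∧ (ℓ : ℤ) ∣ g 3) := by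
              intro h'
              apply hD
              rw [eq_zero_of_dvd hℓ.2 (hg 0).1 (hg 0).2 h.1,
                eq_zero_of_dvd hℓ.2 (hg 2).1 (hg 2).2 h.2]
              ring
            refine le_trans (card_le_card ?_) (one_line Y ℓ hpr hℓ.2 (g 1) (g 3) h')
            intro z hz
            rw [hT] at hz
            simp only [mem_filter] at hz ⊢
            exact ⟨hz.1, hz.2.2⟩
          · refine le_trans (card_le_card ?_) (one_line Y ℓ hpr hℓ.2 (g 0) (g 2) h)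
            intro z hz
            rw [hT] at hz
            simp only [mem_filter] at hz ⊢
            exact ⟨hz.1, hz.2.1⟩
        have h3 : ((A.filter fun E => E 0 * E 4 - E 1 * E 3 ≠ 0).filter fun E =>
            (![E 0, E 1, E 3, E 4] : Fin 4 → ℤ) = g).card ≤ (Pr.biUnion T).card := by
          apply card_le_card_of_injOn (fun E => (E 2, E 5))
          · intro E hE
            rw [mem_coe, mem_filter, mem_filter, hA, mem_filter, mem_Cb] at hE
            obtain ⟨⟨⟨hb, ℓ, hpr, hY, r1, r2, r3⟩, hne⟩, hEg⟩ := hE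
            have g0 : g 0 = E 0 := by rw [← hEg]; rfl
            have g1 : g 1 = E 1 := by rw [← hEg]; rfl
            have g2 : g 2 = E 3 := by rw [← hEg]; rfl
            have g3 : g 3 = E 4 := by rw [← hEg]; rfl
            rw [mem_coe, mem_biUnion]
            refine ⟨ℓ, ?_, ?_⟩
            · rw [hPr, mem_filter, Nat.mem_primeFactors]
              refine ⟨⟨hpr, ?_, Int.natAbs_ne_zero.2 hD⟩, hY⟩
              rw [g0, g1, g2, g3]
              exact Int.natCast_dvd.1 r1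
            · rw [hT]
              simp only [mem_filter, mem_product, mem_Icc]
              rw [g0, g1, g2, g3]
              exact ⟨⟨hb 2, hb 5⟩, r2, r3⟩
          · intro E hE E' hE' h
            rw [mem_coe, mem_filter] at hE hE'
            rw [Prod.mk.injEq] at h
            have k := hE.2.trans hE'.2.symm
            funext l
            fin_cases l
            · exact congrFun k 0
            · exact congrFun k 1
            · exact h.1
            · exact congrFun k 2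
            · exact congrFun k 3
            · exact h.2
        refine h3.trans ?_
        calc (Pr.biUnion T).card ≤ Pr.card * (3 * (2 * Y + 1)) :=
              card_biUnion_le_card_mul _ _ _ hTcard
          _ ≤ 2 * (3 * (2 * Y + 1)) := Nat.mul_le_mul_right _ hfew
  calc A.card ≤ _ := card_le_card hsub
    _ ≤ _ := card_union_le _ _
    _ ≤ 2 * (2 * Y + 1) ^ 5 + (2 * (3 * (2 * Y + 1))) * (2 * Y + 1) ^ 4 :=
      add_le_add (det_zero Y) h1
    _ = _ := by ring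

open scoped Classical in
/-- The sieve in the cube. -/
theorem cube_sieve {P : ℕ → (Fin 6 → ℤ) → Prop} (hP : P = PL ∨ P = PR) (Y q M : ℕ) (hq : 0 < q)
    (hM : 0 < M) (hY : 0 < Y) (c : Fin 6 → ℤ) :
    (((Cb Y).filter fun E => (∀ l, E l ≡ c l [ZMOD q]) ∧
      ∃ ℓ : ℕ, ℓ.Prime ∧ M < ℓ ∧ q.Coprime ℓ ∧ P ℓ E).card : ℚ) ≤
      8192 * (((Y : ℚ) / q) ^ 6 / M + q ^ 2 * Y ^ 5) + 1944 * Y ^ 5 := by
  have hthin : Thin P := by
    rcases hP with rfl | rfl
    · exact thin_L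
    · exact thin_R
  have hbig : ((Cb Y).filter fun E => ∃ ℓ : ℕ, ℓ.Prime ∧ Y < ℓ ∧ P ℓ E).card ≤
      8 * (2 * Y + 1) ^ 5 := by
    rcases hP with rfl | rfl
    · exact (big_L Y).trans (by omega)
    · exact big_R Y
  have hsub : ((Cb Y).filter fun E => (∀ l, E l ≡ c l [ZMOD q]) ∧
      ∃ ℓ : ℕ, ℓ.Prime ∧ M < ℓ ∧ q.Coprime ℓ ∧ P ℓ E) ⊆
      ((Cb Y).filter fun E => (∀ l, E l ≡ c l [ZMOD q]) ∧
      ∃ ℓ : ℕ, ℓ.Prime ∧ M < ℓ ∧ ℓ ≤ Y ∧ q.Coprime ℓ ∧ P ℓ E) ∪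
      ((Cb Y).filter fun E => ∃ ℓ : ℕ, ℓ.Prime ∧ Y < ℓ ∧ P ℓ E) := by
    intro E hE
    rw [mem_filter] at hE
    obtain ⟨h1, h2, ℓ, a1, a2, a3, a4⟩ := hE
    rw [mem_union, mem_filter, mem_filter]
    by_cases h : ℓ ≤ Y
    · exact Or.inl ⟨h1, h2, ℓ, a1, a2, h, a3, a4⟩
    · exact Or.inr ⟨h1, ℓ, a1, not_le.1 h, a4⟩
  have h1 := (card_le_card hsub).trans (card_union_le _ _)
  have h2 := mid hthin Y q M hq hM c
  have h3 : (((Cb Y).filter fun E => ∃ ℓ : ℕ, ℓ.Prime ∧ Y < ℓ ∧ P ℓ E).card : ℚ) ≤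
      1944 * (Y : ℚ) ^ 5 := by
    have h4 : (((Cb Y).filter fun E => ∃ ℓ : ℕ, ℓ.Prime ∧ Y < ℓ ∧ P ℓ E).card : ℚ) ≤
        8 * (2 * Y + 1) ^ 5 := by exact_mod_cast hbig
    have h5 : (1 : ℚ) ≤ Y := by exact_mod_cast hY
    have h6 : (2 * (Y : ℚ) + 1) ^ 5 ≤ (3 * Y) ^ 5 :=
      pow_le_pow_left₀ (by positivity) (by linarith) 5
    calc _ ≤ _ := h4
      _ ≤ 8 * (3 * (Y : ℚ)) ^ 5 := by linarith
      _ = _ := by ring
  have h4 : (((Cb Y).filter fun E => (∀ l, E l ≡ c l [ZMOD q]) ∧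
      ∃ ℓ : ℕ, ℓ.Prime ∧ M < ℓ ∧ q.Coprime ℓ ∧ P ℓ E).card : ℚ) ≤
      (((Cb Y).filter fun E => (∀ l, E l ≡ c l [ZMOD q]) ∧
      ∃ ℓ : ℕ, ℓ.Prime ∧ M < ℓ ∧ ℓ ≤ Y ∧ q.Coprime ℓ ∧ P ℓ E).card : ℚ) +
      (((Cb Y).filter fun E => ∃ ℓ : ℕ, ℓ.Prime ∧ Y < ℓ ∧ P ℓ E).card : ℚ) := by
    exact_mod_cast h1
  linarith

end Pool.Agent.K3h13.RG
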