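import Pool.Agent.K3h13.RG.Poly

/-!
# Where are the marked points singular?
-/

set_option autoImplicit false

namespace Pool.Agent.K3h13.RG

/-- Abstract data over a field: symmetric `x i j`, antisymmetric `e i j` and `s i j k`
(an antisymmetric cocycle) with `4 (x i j + x j k + x i k) + b = (s i j k) ^ 2` and
`e j k - e i j = s i j k * (x j k - x i j)`. -/
structure Data (K : Type*) [Field K] where
  x : Fin 5 → Fin 5 → K
  e : Fin 5 → Fin 5 → K
  s : Fin 5 → Fin 5 → Fin 5 → K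
  b : K
  xs : ∀ i j, x i j = x j i
  es : ∀ i j, i ≠ j → e i j = -e j i
  cyc : ∀ i j k, s j k i = s i j k
  swap : ∀ i j k, s j i k = -s i j k
  coc : ∀ i j k l, s j k l - s i k l + s i j l - s i j k = 0
  tri : ∀ i j k, i ≠ j → j ≠ k → i ≠ k → 4 * (x i j + x j k + x i k) + b = s i j k ^ 2
  lin : ∀ i j k, i ≠ j → j ≠ k → i ≠ k → e j k - e i j = s i j k * (x j k - x i j)

namespace Data

variable {K : Type*} [Field K] (D : Data K)

lemma diff {i j k l : Fin 5} (hij : i ≠ j) (hik : i ≠ k) (hil : i ≠ l) (hjk : j ≠ k) (hjl : j ≠ l)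
    (hkl : k ≠ l) (h2 : (2 : K) ≠ 0) :
    4 * (D.x k l - D.x i j) = (D.s j k l - D.s i j k) * (D.s i k l + D.s i j k) := by
  have t1 := D.tri i j k hij hjk hik
  have t2 := D.tri i j l hij hjl hil
  have t3 := D.tri i k l hik hkl hil
  have t4 := D.tri j k l hjk hkl hjl
  have hc := D.coc i j k l
  have e : D.s i j l = D.s i j k + D.s i k l - D.s j k l := by linear_combination hc
  rw [e] at t2
  apply mul_left_cancel₀ h2
  linear_combination t3 + t4 - t1 - t2

lemma eta {i j k l : Fin 5} (hij : i ≠ j) (hik : i ≠ k) (hil : i ≠ l) (hjk : j ≠ k) (hjl : j ≠ l)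
    (hkl : k ≠ l) :
    2 * D.e i j = (D.s j k l - D.s i j k) * (D.x j k - D.x i j) -
      (D.s i k l + D.s i j k) * (D.x j l - D.x i j) := by
  have t1 := D.lin i j k hij hjk hik
  have t2 := D.lin i j l hij hjl hil
  have t4 := D.lin j k l hjk hkl hjl
  have t5 := D.lin k l j hkl hjl.symm hjk.symm
  rw [D.es l j hjl.symm, D.xs l j, D.cyc j k l] at t5
  have hc := D.coc i j k l
  have e : D.s i j l = D.s i j k + D.s i k l - D.s j k l := by linear_combination hc
  rw [e] at t2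
  linear_combination -t1 - t2 - t4 - t5

/-- The bad conditions for `(i, j, k, l, m)`: two linear conditions, or a matrix of rank one. -/
def Bad (i j k l m : Fin 5) : Prop :=
  (D.s i k l + D.s i j k = 0 ∧ D.s i k m + D.s i j k = 0) ∨
  (D.s i k l + D.s i j k = 0 ∧ D.s i l m - D.s i j m = 0) ∨
  ((D.s i j k - D.s i j l) * (D.s i k m - D.s i k l) -
      (D.s i j k + D.s i k m) * (D.s i j m - D.s i j l) = 0 ∧
    (D.s i j k - D.s i j l) * (D.s i j l - D.s i k l) -
      (D.s i l m + D.s i j l) * (D.s i j m - D.s i j l) = 0 ∧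
    (D.s i j k + D.s i k m) * (D.s i j l - D.s i k l) -
      (D.s i l m + D.s i j l) * (D.s i k m - D.s i k l) = 0)

/-- The lemma on four-cycles. -/
lemma cycle {i j k l m : Fin 5} (hij : i ≠ j) (hik : i ≠ k) (hil : i ≠ l) (him : i ≠ m)
    (hjk : j ≠ k) (hjl : j ≠ l) (hjm : j ≠ m) (hkl : k ≠ l) (hkm : k ≠ m) (hlm : l ≠ m)
    (h2 : (2 : K) ≠ 0) (c1 : D.x i j = D.x j k) (c3 : D.x k l = D.x i l)
    (hz : D.s i k l + D.s i j k = 0) : D.Bad i j k l m := by
  have t1 := D.tri i j m hij hjm him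
  have t2 := D.tri j k m hjk hkm hjm
  have t3 := D.tri k l m hkl hlm hkm
  have t4 := D.tri i l m hil hlm him
  have k1 := D.coc i j k m
  have k2 := D.coc i k l m
  -- `(s_ikm + s_ijk) (s_ilm - s_ijm) = 0`
  have e1 : D.s j k m = D.s i k m - D.s i j m + D.s i j k := by linear_combination k1
  have e2 : D.s k l m = D.s i l m - D.s i k m + D.s i k l := by linear_combination k2
  have e3 : D.s i k l = -D.s i j k := by linear_combination hz
  rw [e1] at t2
  rw [e2, e3] at t3
  have key : 2 * ((D.s i k m + D.s i j k) * (D.s i l m - D.s i j m)) = 0 := by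
    linear_combination -(t2 - t1 - t3 + t4) - 4 * c1 - 4 * c3
  rcases mul_eq_zero.1 ((mul_eq_zero.1 key).resolve_left h2) with h | h
  · left
    exact ⟨hz, h⟩
  · right
    left
    exact ⟨hz, h⟩

/-- The mixed case. -/
lemma mixed {i j k l m : Fin 5} (hij : i ≠ j) (hik : i ≠ k) (hil : i ≠ l) (him : i ≠ m)
    (hjk : j ≠ k) (hjl : j ≠ l) (hjm : j ≠ m) (hkl : k ≠ l) (hkm : k ≠ m) (hlm : l ≠ m)
    (h2 : (2 : K) ≠ 0) (c1 : D.x j k = D.x i j) (c2 : D.x i l = D.x i j) (he : D.e i j = 0) :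
    D.Bad i j k l m ∨ D.Bad i k j l m := by
  have h4 : (4 : K) ≠ 0 := by
    have : (4 : K) = 2 * 2 := by norm_num
    rw [this]
    exact mul_ne_zero h2 h2
  have d1 := D.diff hjk hij.symm hjl hik.symm hkl hil h2
  have e1 : D.s k i l = -D.s i k l := D.swap i k l
  have e2 : D.s j k i = D.s i j k := D.cyc i j k
  have e3 : D.s j i l = -D.s i j l := D.swap i j l
  rw [e1, e2, e3, c1, c2] at d1
  have d2 : (D.s i k l + D.s i j k) * (D.s i j l - D.s i j k) = 0 := by linear_combination -d1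
  have d3 := D.eta hij hik hil hjk hjl hkl
  rw [he, c1] at d3
  have d4 : (D.s i k l + D.s i j k) * (D.x j l - D.x i j) = 0 := by linear_combination d3
  by_cases hz : D.s i k l + D.s i j k = 0
  · left
    have d5 := D.diff hij hik hil hjk hjl hkl h2
    rw [hz, mul_zero] at d5
    have d6 := (mul_eq_zero.1 d5).resolve_left h4
    exact D.cycle hij hik hil him hjk hjl hjm hkl hkm hlm h2 c1.symm
      (by linear_combination d6 - c2) hz
  · right
    have w1 := (mul_eq_zero.1 d2).resolve_left hz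
    have w2 := (mul_eq_zero.1 d4).resolve_left hz
    have d5 := D.diff hik hij hil hjk.symm hkl hjl h2
    have e4 : D.s i k j = -D.s i j k := by
      rw [← D.cyc i k j, D.swap j k i, D.cyc i j k]
    have e5 : D.s i j l + D.s i k j = 0 := by rw [e4]; linear_combination w1
    rw [e5, mul_zero] at d5
    have d6 := (mul_eq_zero.1 d5).resolve_left h4
    have c5 : D.x k j = D.x j k := D.xs k j
    exact D.cycle hik hij hil him hjk.symm hkl hkm hjl hjm hlm h2
      (by linear_combination -d6 + w2 - c1 - c5) (by linear_combination w2 - c2) e5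

/-- All `x i ·` are equal. -/
lemma star {i j k l m : Fin 5} (hij : i ≠ j) (hik : i ≠ k) (hil : i ≠ l) (him : i ≠ m)
    (hjk : j ≠ k) (hjl : j ≠ l) (hjm : j ≠ m) (hkl : k ≠ l) (hkm : k ≠ m) (hlm : l ≠ m)
    (h2 : (2 : K) ≠ 0) (c1 : D.x i k = D.x i j) (c2 : D.x i l = D.x i j)
    (c3 : D.x i m = D.x i j) : D.Bad i j k l m := by
  right
  right
  have Q : ∀ a b c : Fin 5, i ≠ a → i ≠ b → i ≠ c → a ≠ b → a ≠ c → b ≠ c →
      D.x i a = D.x i j → D.x i b = D.x i j → D.x i c = D.x i j →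
      D.s i a b * D.s i b c - D.s i b c * D.s i a c - D.s i a c * D.s i a b =
        -12 * D.x i j - D.b := by
    intro a b c hia hib hic hab hac hbc ha hb hc
    have t1 := D.tri a b c hab hbc hac
    have t2 := D.tri i a b hia hab hib
    have t3 := D.tri i b c hib hbc hic
    have t4 := D.tri i a c hia hac hic
    have hk := D.coc i a b c
    have e : D.s a b c = D.s i b c - D.s i a c + D.s i a b := by linear_combination hk
    rw [e] at t1
    rw [ha, hb] at t2
    rw [hb, hc] at t3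
    rw [ha, hc] at t4
    apply mul_left_cancel₀ h2
    linear_combination -t1 + t2 + t3 + t4
  have q1 := Q j k l hij hik hil hjk hjl hkl rfl c1 c2
  have q2 := Q j k m hij hik him hjk hjm hkm rfl c1 c3
  have q3 := Q j l m hij hil him hjl hjm hlm rfl c2 c3
  have q4 := Q k l m hik hil him hkl hkm hlm c1 c2 c3
  refine ⟨?_, ?_, ?_⟩
  · linear_combination q2 - q1
  · linear_combination q3 - q1
  · linear_combination q4 - q1

/-- The classification. -/
theorem classify {i j k l m : Fin 5} (hij : i ≠ j) (hik : i ≠ k) (hil : i ≠ l) (him : i ≠ m)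
    (hjk : j ≠ k) (hjl : j ≠ l) (hjm : j ≠ m) (hkl : k ≠ l) (hkm : k ≠ m) (hlm : l ≠ m)
    (h2 : (2 : K) ≠ 0) (he : D.e i j = 0)
    (hk : (D.x i j - D.x j k) * (D.x i j - D.x i k) = 0)
    (hl : (D.x i j - D.x j l) * (D.x i j - D.x i l) = 0)
    (hm : (D.x i j - D.x j m) * (D.x i j - D.x i m) = 0) :
    ∃ i' j' k' l' m' : Fin 5, i' ≠ j' ∧ i' ≠ k' ∧ i' ≠ l' ∧ i' ≠ m' ∧ j' ≠ k' ∧ j' ≠ l' ∧ j' ≠ m' ∧
      k' ≠ l' ∧ k' ≠ m' ∧ l' ≠ m' ∧ D.Bad i' j' k' l' m' := by
  have mix : ∀ k l m : Fin 5, i ≠ k → i ≠ l → i ≠ m → j ≠ k → j ≠ l → j ≠ m → k ≠ l → k ≠ m →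
      l ≠ m → D.x i j - D.x j k = 0 → D.x i j - D.x i l = 0 →
      ∃ i' j' k' l' m' : Fin 5, i' ≠ j' ∧ i' ≠ k' ∧ i' ≠ l' ∧ i' ≠ m' ∧ j' ≠ k' ∧ j' ≠ l' ∧
        j' ≠ m' ∧ k' ≠ l' ∧ k' ≠ m' ∧ l' ≠ m' ∧ D.Bad i' j' k' l' m' := by
    intro k l m hik hil him hjk hjl hjm hkl hkm hlm c1 c2
    rcases D.mixed hij hik hil him hjk hjl hjm hkl hkm hlm h2 (by linear_combination -c1)
      (by linear_combination -c2) he with h | h
    · exact ⟨i, j, k, l, m, hij, hik, hil, him, hjk, hjl, hjm, hkl, hkm, hlm, h⟩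
    · exact ⟨i, k, j, l, m, hik, hij, hil, him, hjk.symm, hkl, hkm, hjl, hjm, hlm, h⟩
  rcases mul_eq_zero.1 hk with ak | ak <;> rcases mul_eq_zero.1 hl with al | al <;>
    rcases mul_eq_zero.1 hm with am | am
  · refine ⟨j, i, k, l, m, hij.symm, hjk, hjl, hjm, hik, hil, him, hkl, hkm, hlm,
      D.star hij.symm hjk hjl hjm hik hil him hkl hkm hlm h2 ?_ ?_ ?_⟩
    · rw [D.xs j i]; linear_combination -ak
    · rw [D.xs j i]; linear_combination -al
    · rw [D.xs j i]; linear_combination -am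
  · exact mix k m l hik him hil hjk hjm hjl hkm hkl hlm.symm ak am
  · exact mix k l m hik hil him hjk hjl hjm hkl hkm hlm ak al
  · exact mix k l m hik hil him hjk hjl hjm hkl hkm hlm ak al
  · exact mix l k m hil hik him hjl hjk hjm hkl.symm hlm hkm al ak
  · exact mix l k m hil hik him hjl hjk hjm hkl.symm hlm hkm al ak
  · exact mix m k l him hik hil hjm hjk hjl hkm.symm hlm.symm hkl am ak
  · refine ⟨i, j, k, l, m, hij, hik, hil, him, hjk, hjl, hjm, hkl, hkm, hlm,
      D.star hij hik hil him hjk hjl hjm hkl hkm hlm h2 ?_ ?_ ?_⟩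
    · linear_combination -ak
    · linear_combination -al
    · linear_combination -am

end Data

end Pool.Agent.K3h13.RG
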