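import Pool.Agent.Y732.Fam

/-!
# Counting integral vectors in a cube which are bad at a large prime
-/

set_option autoImplicit false

namespace Pool.Agent.K3h13.RG

open Finset Pool.Agent.Y732

/-- the cube `[-Y, Y]⁶` -/
noncomputable def Cb (Y : ℕ) : Finset (Fin 6 → ℤ) := Fintype.piFinset fun _ => Icc (-(Y : ℤ)) Y

lemma mem_Cb {Y : ℕ} {E : Fin 6 → ℤ} : E ∈ Cb Y ↔ ∀ l, -(Y : ℤ) ≤ E l ∧ E l ≤ Y := by
  simp [Cb, Fintype.mem_piFinset]

/-- reduction modulo `ℓ` -/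
def red6 (ℓ : ℕ) (E : Fin 6 → ℤ) : Fin 6 → ZMod ℓ := fun l => (E l : ZMod ℓ)

open scoped Classical in
lemma fibre (Y q ℓ : ℕ) (hq : 0 < q) (hℓ : 0 < ℓ) (hc : q.Coprime ℓ) (c : Fin 6 → ℤ)
    (b : Fin 6 → ZMod ℓ) :
    (((Cb Y).filter fun E => (∀ l, E l ≡ c l [ZMOD q]) ∧ red6 ℓ E = b).card : ℚ) ≤
      ((2 * Y + 1) / (q * ℓ) + 1) ^ 6 := by
  have hsub : ((Cb Y).filter fun E => (∀ l, E l ≡ c l [ZMOD q]) ∧ red6 ℓ E = b) ⊆
      Fintype.piFinset fun l => (Ico (-(Y : ℤ)) (-(Y : ℤ) + ((2 * Y + 1 : ℕ) : ℤ))).filter fun z =>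
        z ≡ c l [ZMOD q] ∧ (ℓ : ℤ) ∣ z + -((b l).cast : ℤ) := by
    intro E hE
    rw [mem_filter, mem_Cb] at hE
    rw [Fintype.mem_piFinset]
    intro l
    rw [mem_filter, mem_Ico]
    obtain ⟨h1, h2, h3⟩ := hE
    refine ⟨⟨(h1 l).1, ?_⟩, h2 l, ?_⟩
    · have := (h1 l).2
      push_cast
      linarith
    · rw [← ZMod.intCast_zmod_eq_zero_iff_dvd]
      push_cast
      have h4 := congrFun h3 l
      change (E l : ZMod ℓ) = b l at h4
      rw [h4, add_neg_cancel]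
  have h1 := card_le_card hsub
  rw [Fintype.card_piFinset] at h1
  have h2 : ∀ l : Fin 6, (((Ico (-(Y : ℤ)) (-(Y : ℤ) + ((2 * Y + 1 : ℕ) : ℤ))).filter fun z =>
        z ≡ c l [ZMOD q] ∧ (ℓ : ℤ) ∣ z + -((b l).cast : ℤ)).card : ℚ) ≤
        (2 * Y + 1) / (q * ℓ) + 1 := by
    intro l
    have := bad_le (-(Y : ℤ)) (2 * Y + 1) q ℓ hq hℓ hc (c l) (-((b l).cast : ℤ))
    push_cast at this ⊢
    exact this
  calc (((Cb Y).filter fun E => (∀ l, E l ≡ c l [ZMOD q]) ∧ red6 ℓ E = b).card : ℚ) ≤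
        ((∏ l : Fin 6, ((Ico (-(Y : ℤ)) (-(Y : ℤ) + ((2 * Y + 1 : ℕ) : ℤ))).filter fun z =>
        z ≡ c l [ZMOD q] ∧ (ℓ : ℤ) ∣ z + -((b l).cast : ℤ)).card : ℕ) : ℚ) := by
        exact_mod_cast h1
    _ ≤ ∏ _l : Fin 6, ((2 * (Y : ℚ) + 1) / (q * ℓ) + 1) := by
        rw [Nat.cast_prod]
        exact prod_le_prod (fun l _ => by positivity) (fun l _ => h2 l)
    _ = _ := by
        rw [prod_const, card_univ, Fintype.card_fin]

open scoped Classical in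
lemma classes (Y q ℓ : ℕ) (hq : 0 < q) (hℓ : 0 < ℓ) (hc : q.Coprime ℓ) (c : Fin 6 → ℤ)
    (B : Finset (Fin 6 → ZMod ℓ)) :
    (((Cb Y).filter fun E => (∀ l, E l ≡ c l [ZMOD q]) ∧ red6 ℓ E ∈ B).card : ℚ) ≤
      B.card * ((2 * Y + 1) / (q * ℓ) + 1) ^ 6 := by
  have h := card_eq_sum_card_fiberwise (f := red6 ℓ)
    (s := (Cb Y).filter fun E => (∀ l, E l ≡ c l [ZMOD q]) ∧ red6 ℓ E ∈ B) (t := B) (by
      intro E hE
      rw [mem_coe, mem_filter] at hE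
      exact hE.2.2)
  rw [h, Nat.cast_sum]
  have h2 : ∀ b ∈ B, ((((Cb Y).filter fun E => (∀ l, E l ≡ c l [ZMOD q]) ∧ red6 ℓ E ∈ B).filter
      fun E => red6 ℓ E = b).card : ℚ) ≤ ((2 * Y + 1) / (q * ℓ) + 1) ^ 6 := by
    intro b _
    refine le_trans ?_ (fibre Y q ℓ hq hℓ hc c b)
    have : ((((Cb Y).filter fun E => (∀ l, E l ≡ c l [ZMOD q]) ∧ red6 ℓ E ∈ B).filter
      fun E => red6 ℓ E = b)) ⊆
      ((Cb Y).filter fun E => (∀ l, E l ≡ c l [ZMOD q]) ∧ red6 ℓ E = b) := by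
      intro E hE
      rw [mem_filter, mem_filter] at hE
      rw [mem_filter]
      exact ⟨hE.1.1, hE.1.2.1, hE.2⟩
    exact_mod_cast card_le_card this
  refine (sum_le_sum h2).trans ?_
  rw [sum_const, nsmul_eq_mul]

/-- A condition at the prime `ℓ` given by at most `2 ℓ⁴` classes modulo `ℓ`. -/
def Thin (P : ℕ → (Fin 6 → ℤ) → Prop) : Prop :=
  ∀ ℓ : ℕ, ℓ.Prime → ∃ B : Finset (Fin 6 → ZMod ℓ), B.card ≤ 2 * ℓ ^ 4 ∧
    ∀ E, P ℓ E → red6 ℓ E ∈ B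

/-- two coordinates are divisible by `ℓ` -/
def PL (ℓ : ℕ) (E : Fin 6 → ℤ) : Prop := (ℓ : ℤ) ∣ E 0 ∧ (ℓ : ℤ) ∣ E 1

/-- the matrix with rows `E 0, E 1, E 2` and `E 3, E 4, E 5` has rank at most one modulo `ℓ` -/
def PR (ℓ : ℕ) (E : Fin 6 → ℤ) : Prop :=
  (ℓ : ℤ) ∣ E 0 * E 4 - E 1 * E 3 ∧ (ℓ : ℤ) ∣ E 0 * E 5 - E 2 * E 3 ∧
    (ℓ : ℤ) ∣ E 1 * E 5 - E 2 * E 4

lemma thin_L : Thin PL := by
  intro ℓ hℓ
  have : Fact ℓ.Prime := ⟨hℓ⟩
  classical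
  refine ⟨(univ : Finset (Fin 4 → ZMod ℓ)).image fun d => ![0, 0, d 0, d 1, d 2, d 3], ?_, ?_⟩
  · refine card_image_le.trans ?_
    rw [card_univ, Fintype.card_fun, ZMod.card, Fintype.card_fin]
    omega
  · rintro E ⟨h0, h1⟩
    rw [mem_image]
    refine ⟨fun l => ![(E 2 : ZMod ℓ), E 3, E 4, E 5] l, mem_univ _, ?_⟩
    have h0' : (E 0 : ZMod ℓ) = 0 := (ZMod.intCast_zmod_eq_zero_iff_dvd _ _).2 h0
    have h1' : (E 1 : ZMod ℓ) = 0 := (ZMod.intCast_zmod_eq_zero_iff_dvd _ _).2 h1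
    funext l
    fin_cases l <;> simp [red6, h0', h1']

lemma thin_R : Thin PR := by
  intro ℓ hℓ
  have : Fact ℓ.Prime := ⟨hℓ⟩
  classical
  refine ⟨((univ : Finset (Fin 4 → ZMod ℓ)).image fun d => ![0, 0, 0, d 0, d 1, d 2]) ∪
    ((univ : Finset (Fin 4 → ZMod ℓ)).image fun d =>
      ![d 0, d 1, d 2, d 3 * d 0, d 3 * d 1, d 3 * d 2]), ?_, ?_⟩
  · refine (card_union_le _ _).trans ?_
    have h1 := card_image_le (s := (univ : Finset (Fin 4 → ZMod ℓ)))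
      (f := fun d => (![0, 0, 0, d 0, d 1, d 2] : Fin 6 → ZMod ℓ))
    have h2 := card_image_le (s := (univ : Finset (Fin 4 → ZMod ℓ)))
      (f := fun d => (![d 0, d 1, d 2, d 3 * d 0, d 3 * d 1, d 3 * d 2] : Fin 6 → ZMod ℓ))
    rw [card_univ, Fintype.card_fun, ZMod.card, Fintype.card_fin] at h1 h2
    omega
  · rintro E ⟨h0, h1, h2⟩
    rw [← ZMod.intCast_zmod_eq_zero_iff_dvd] at h0 h1 h2
    push_cast at h0 h1 h2
    rw [mem_union, mem_image, mem_image]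
    by_cases a0 : (E 0 : ZMod ℓ) = 0
    · by_cases a1 : (E 1 : ZMod ℓ) = 0
      · by_cases a2 : (E 2 : ZMod ℓ) = 0
        · left
          refine ⟨fun l => ![(E 3 : ZMod ℓ), E 4, E 5, 0] l, mem_univ _, ?_⟩
          funext l
          fin_cases l <;> simp [red6, a0, a1, a2]
        · right
          rw [a0] at h1
          rw [a1] at h2
          have b3 : (E 3 : ZMod ℓ) = 0 := by
            have : (E 2 : ZMod ℓ) * E 3 = 0 := by linear_combination -h1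
            exact (mul_eq_zero.1 this).resolve_left a2
          have b4 : (E 4 : ZMod ℓ) = 0 := by
            have : (E 2 : ZMod ℓ) * E 4 = 0 := by linear_combination -h2
            exact (mul_eq_zero.1 this).resolve_left a2
          refine ⟨fun l => ![(E 0 : ZMod ℓ), E 1, E 2, E 5 / E 2] l, mem_univ _, ?_⟩
          funext l
          fin_cases l <;> simp [red6, a0, a1, a2, b3, b4]
      · right
        rw [a0] at h0 h1
        have b3 : (E 3 : ZMod ℓ) = 0 := by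
          have : (E 1 : ZMod ℓ) * E 3 = 0 := by linear_combination -h0
          exact (mul_eq_zero.1 this).resolve_left a1
        have b5 : (E 5 : ZMod ℓ) = E 4 / E 1 * E 2 := by
          field_simp
          linear_combination h2
        refine ⟨fun l => ![(E 0 : ZMod ℓ), E 1, E 2, E 4 / E 1] l, mem_univ _, ?_⟩
        funext l
        fin_cases l <;> simp [red6, a0, a1, b3, b5]
    · right
      have b4 : (E 4 : ZMod ℓ) = E 3 / E 0 * E 1 := by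
        field_simp
        linear_combination h0
      have b5 : (E 5 : ZMod ℓ) = E 3 / E 0 * E 2 := by
        field_simp
        linear_combination h1
      refine ⟨fun l => ![(E 0 : ZMod ℓ), E 1, E 2, E 3 / E 0] l, mem_univ _, ?_⟩
      funext l
      fin_cases l <;> simp [red6, a0, b4, b5]

open scoped Classical in
/-- The primes up to `Y`. -/
lemma mid {P : ℕ → (Fin 6 → ℤ) → Prop} (hP : Thin P) (Y q M : ℕ) (hq : 0 < q) (hM : 0 < M)
    (c : Fin 6 → ℤ) :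
    (((Cb Y).filter fun E => (∀ l, E l ≡ c l [ZMOD q]) ∧
      ∃ ℓ : ℕ, ℓ.Prime ∧ M < ℓ ∧ ℓ ≤ Y ∧ q.Coprime ℓ ∧ P ℓ E).card : ℚ) ≤
      8192 * (((Y : ℚ) / q) ^ 6 / M + q ^ 2 * Y ^ 5) := by
  set S : ℕ → Finset (Fin 6 → ℤ) := fun ℓ => (Cb Y).filter fun E =>
    (∀ l, E l ≡ c l [ZMOD q]) ∧ P ℓ E with hS
  set L : Finset ℕ := (Ioc M Y).filter fun ℓ => ℓ.Prime ∧ q.Coprime ℓ with hL
  have hsub : ((Cb Y).filter fun E => (∀ l, E l ≡ c l [ZMOD q]) ∧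
      ∃ ℓ : ℕ, ℓ.Prime ∧ M < ℓ ∧ ℓ ≤ Y ∧ q.Coprime ℓ ∧ P ℓ E) ⊆ L.biUnion S := by
    intro E hE
    rw [mem_filter] at hE
    obtain ⟨h1, h2, ℓ, hℓ, hMℓ, hℓY, hc, hPE⟩ := hE
    rw [mem_biUnion]
    refine ⟨ℓ, ?_, ?_⟩
    · rw [hL, mem_filter, mem_Ioc]
      exact ⟨⟨hMℓ, hℓY⟩, hℓ, hc⟩
    · rw [hS]
      simp only [mem_filter]
      exact ⟨h1, h2, hPE⟩
  have hqQ : (0 : ℚ) < q := by exact_mod_cast hq
  have hone : ∀ ℓ ∈ L, ((S ℓ).card : ℚ) ≤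
      8192 * (((Y : ℚ) / q) ^ 6 * ((ℓ : ℚ) ^ 2)⁻¹ + q ^ 2 * Y ^ 4) := by
    intro ℓ hℓ
    rw [hL, mem_filter, mem_Ioc] at hℓ
    obtain ⟨⟨hMℓ, hℓY⟩, hpr, hc⟩ := hℓ
    obtain ⟨B, hB, hPB⟩ := hP ℓ hpr
    have hℓ0 : 0 < ℓ := hpr.pos
    have hℓQ : (0 : ℚ) < ℓ := by exact_mod_cast hℓ0
    have hBQ : (B.card : ℚ) ≤ 2 * (ℓ : ℚ) ^ 4 := by exact_mod_cast hB
    have hY0 : (0 : ℚ) < Y := by
      have : 0 < Y := by omega
      exact_mod_cast this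
    have h1q : (0 : ℚ) ≤ q ^ 2 * Y ^ 4 := by positivity
    by_cases hqℓ : q * ℓ ≤ Y
    · have hqℓQ : (q : ℚ) * ℓ ≤ Y := by exact_mod_cast hqℓ
      have k1 : (S ℓ).card ≤ ((Cb Y).filter fun E =>
          (∀ l, E l ≡ c l [ZMOD q]) ∧ red6 ℓ E ∈ B).card := by
        apply card_le_card
        intro E hE
        rw [hS] at hE
        simp only [mem_filter] at hE ⊢
        exact ⟨hE.1, hE.2.1, hPB E hE.2.2⟩
      have k2 := classes Y q ℓ hq hℓ0 hc c B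
      have k3 : (2 * (Y : ℚ) + 1) / (q * ℓ) + 1 ≤ 4 * Y / (q * ℓ) := by
        rw [div_add_one (by positivity)]
        apply div_le_div_of_nonneg_right _ (by positivity)
        have : (1 : ℚ) ≤ Y := by
          have : 1 ≤ Y := by omega
          exact_mod_cast this
        linarith
      have k4 : ((S ℓ).card : ℚ) ≤ 2 * (ℓ : ℚ) ^ 4 * (4 * Y / (q * ℓ)) ^ 6 := by
        refine (Nat.cast_le.2 k1).trans (k2.trans ?_)
        apply mul_le_mul hBQ (pow_le_pow_left₀ (by positivity) k3 6) (by positivity) (by positivity)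
      refine k4.trans ?_
      have k5 : 2 * (ℓ : ℚ) ^ 4 * (4 * Y / (q * ℓ)) ^ 6 =
          8192 * (((Y : ℚ) / q) ^ 6 * ((ℓ : ℚ) ^ 2)⁻¹) := by
        field_simp
        norm_num
      rw [k5]
      nlinarith
    · have hqℓQ : (Y : ℚ) < q * ℓ := by
        rw [not_le] at hqℓ
        exact_mod_cast hqℓ
      have k1 : (S ℓ).card ≤ ((Cb Y).filter fun E =>
          (∀ l, E l ≡ c l [ZMOD (1 : ℕ)]) ∧ red6 ℓ E ∈ B).card := by
        apply card_le_card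
        intro E hE
        rw [hS] at hE
        simp only [mem_filter] at hE ⊢
        refine ⟨hE.1, fun l => ?_, hPB E hE.2.2⟩
        rw [Nat.cast_one]
        exact Int.modEq_one
      have k2 := classes Y 1 ℓ one_pos hℓ0 (Nat.coprime_one_left ℓ) c B
      have k3 : (2 * (Y : ℚ) + 1) / ((1 : ℕ) * ℓ) + 1 ≤ 4 * Y / ℓ := by
        rw [Nat.cast_one, one_mul, div_add_one (by positivity)]
        apply div_le_div_of_nonneg_right _ (by positivity)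
        have h1 : (1 : ℚ) ≤ Y := by
          have : 1 ≤ Y := by omega
          exact_mod_cast this
        have h2 : (ℓ : ℚ) ≤ Y := by exact_mod_cast hℓY
        linarith
      have k4 : ((S ℓ).card : ℚ) ≤ 2 * (ℓ : ℚ) ^ 4 * (4 * Y / ℓ) ^ 6 := by
        refine (Nat.cast_le.2 k1).trans (k2.trans ?_)
        apply mul_le_mul hBQ (pow_le_pow_left₀ (by positivity) k3 6) (by positivity) (by positivity)
      refine k4.trans ?_
      have k5 : 2 * (ℓ : ℚ) ^ 4 * (4 * Y / ℓ) ^ 6 = 8192 * ((Y : ℚ) ^ 6 / (ℓ : ℚ) ^ 2) := by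
        field_simp
        norm_num
      rw [k5]
      have k6 : (Y : ℚ) ^ 6 / (ℓ : ℚ) ^ 2 ≤ q ^ 2 * Y ^ 4 := by
        rw [div_le_iff₀ (by positivity)]
        have k7 : (Y : ℚ) ^ 2 ≤ (q * ℓ) ^ 2 := pow_le_pow_left₀ hY0.le hqℓQ.le 2
        calc (Y : ℚ) ^ 6 = (Y : ℚ) ^ 2 * (Y : ℚ) ^ 4 := by ring
          _ ≤ ((q : ℚ) * ℓ) ^ 2 * (Y : ℚ) ^ 4 := mul_le_mul_of_nonneg_right k7 (by positivity)
          _ = (q : ℚ) ^ 2 * (Y : ℚ) ^ 4 * (ℓ : ℚ) ^ 2 := by ring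
      have k8 : (0 : ℚ) ≤ ((Y : ℚ) / q) ^ 6 * ((ℓ : ℚ) ^ 2)⁻¹ := by positivity
      linarith
  have h1 : (((Cb Y).filter fun E => (∀ l, E l ≡ c l [ZMOD q]) ∧
      ∃ ℓ : ℕ, ℓ.Prime ∧ M < ℓ ∧ ℓ ≤ Y ∧ q.Coprime ℓ ∧ P ℓ E).card : ℚ) ≤
      ∑ ℓ ∈ L, ((S ℓ).card : ℚ) := by
    exact_mod_cast (card_le_card hsub).trans card_biUnion_le
  refine h1.trans ((sum_le_sum hone).trans ?_)
  by_cases hMY : M ≤ Y
  · have hMQ : (0 : ℚ) < M := by exact_mod_cast hM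
    calc ∑ ℓ ∈ L, 8192 * (((Y : ℚ) / q) ^ 6 * ((ℓ : ℚ) ^ 2)⁻¹ + q ^ 2 * Y ^ 4) ≤
          ∑ ℓ ∈ Ioc M Y, 8192 * (((Y : ℚ) / q) ^ 6 * ((ℓ : ℚ) ^ 2)⁻¹ + q ^ 2 * Y ^ 4) := by
          apply sum_le_sum_of_subset_of_nonneg (filter_subset _ _)
          intro ℓ _ _
          positivity
      _ = 8192 * (((Y : ℚ) / q) ^ 6 * (∑ ℓ ∈ Ioc M Y, ((ℓ : ℚ) ^ 2)⁻¹) +
          (Ioc M Y).card * (q ^ 2 * Y ^ 4)) := by
          rw [← mul_sum, sum_add_distrib, ← mul_sum, sum_const, nsmul_eq_mul]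
      _ ≤ 8192 * (((Y : ℚ) / q) ^ 6 * (1 / M) + Y * (q ^ 2 * Y ^ 4)) := by
          have e1 : ∑ ℓ ∈ Ioc M Y, ((ℓ : ℚ) ^ 2)⁻¹ ≤ 1 / M := by
            have := sum_Ioc_inv_sq_le_sub (α := ℚ) hM.ne' hMY
            have h0 : (0 : ℚ) ≤ (Y : ℚ)⁻¹ := by positivity
            rw [one_div]
            linarith
          have e2 : ((Ioc M Y).card : ℚ) ≤ Y := by
            rw [Nat.card_Ioc]
            exact_mod_cast Nat.sub_le _ _
          apply mul_le_mul_of_nonneg_left _ (by norm_num)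
          apply add_le_add
          · exact mul_le_mul_of_nonneg_left e1 (by positivity)
          · exact mul_le_mul_of_nonneg_right e2 (by positivity)
      _ = _ := by ring
  · have : L = ∅ := by
      rw [hL, Ioc_eq_empty (by omega), filter_empty]
    rw [this, sum_empty]
    positivity

end Pool.Agent.K3h13.RG
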