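import Pool.Agent.K3h13.RG.Cls

/-!
# Singular marked points satisfy one of the bad conditions
-/

set_option autoImplicit false

namespace Pool.Agent.K3h13.RG

section ring

variable {R : Type*} [CommRing R] (t : Fin 6 → R)

/-- `2 y + a₁ x + a₃` at the point `P i j`, `i < j`, and its negative for `j < i` -/
def eta (i j : Fin 5) : R :=
  if i < j then 2 * yA t i j + t 0 * xA t i j + pa3 t
  else -(2 * yA t j i + t 0 * xA t j i + pa3 t)

lemma eta_anti {i j : Fin 5} (h : i ≠ j) : eta t i j = -eta t j i := by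
  unfold eta
  rcases lt_or_gt_of_ne h with h | h
  · rw [if_pos h, if_neg h.asymm]
    ring
  · rw [if_neg h.asymm, if_pos h]

lemma tri_lt {i j k : Fin 5} (hij : i < j) (hjk : j < k) :
    4 * (xA t i j + xA t j k + xA t i k) + (curveA t).b₂ = sg t i j k ^ 2 := by
  obtain ⟨-, -, h3, -, -⟩ := lin_all t hij hjk
  rw [sg_lam t hij hjk, WeierstrassCurve.b₂]
  change _ = (lam t i j k) ^ 2 + t 0 * lam t i j k - (curveA t).a₂ at h3
  change 4 * (xA t i j + xA t j k + xA t i k) + (t 0 ^ 2 + 4 * (curveA t).a₂) = _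
  linear_combination 4 * h3

lemma lin_lt {i j k : Fin 5} (hij : i < j) (hjk : j < k) :
    eta t j k - eta t i j = sg t i j k * (xA t j k - xA t i j) ∧
    eta t k i - eta t i j = sg t i j k * (xA t k i - xA t i j) := by
  obtain ⟨h1, h2, -, -, -⟩ := lin_all t hij hjk
  have hik := hij.trans hjk
  change -yA t i k - t 0 * xA t i k - pa3 t - yA t i j = _ at h2
  rw [sg_lam t hij hjk]
  unfold eta
  rw [if_pos hij, if_pos hjk, if_neg hik.asymm, xA_symm t k i]
  constructor
  · linear_combination 2 * h1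
  · linear_combination 2 * h2

/-- transport along the permutations of three distinct indices -/
lemma perm3 {P : Fin 5 → Fin 5 → Fin 5 → Prop} (h : ∀ i j k, i < j → j < k → P i j k)
    (hc : ∀ i j k, P i j k → P j k i) (hs : ∀ i j k, P i j k → P j i k) (i j k : Fin 5)
    (hij : i ≠ j) (hjk : j ≠ k) (hik : i ≠ k) : P i j k := by
  rcases lt_or_gt_of_ne hij with a | a <;> rcases lt_or_gt_of_ne hjk with b | b <;>
    rcases lt_or_gt_of_ne hik with c | c
  · exact h _ _ _ a b
  · exact absurd (a.trans b) c.asymm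
  · -- i < k < j
    exact hs _ _ _ (hc _ _ _ (hc _ _ _ (h _ _ _ c b)))
  · -- k < i < j
    exact hc _ _ _ (h _ _ _ c a)
  · -- j < i < k
    exact hs _ _ _ (h _ _ _ a c)
  · -- j < k < i
    exact hc _ _ _ (hc _ _ _ (h _ _ _ b c))
  · exact absurd (b.trans a) c.asymm
  · -- k < j < i
    exact hc _ _ _ (hc _ _ _ (hs _ _ _ (h _ _ _ b a)))

end ring

section field

variable {K : Type*} [Field K] (t : Fin 6 → K)

/-- the data of a member of the family -/
noncomputable def dat : Data K where
  x := xA t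
  e := eta t
  s := sg t
  b := (curveA t).b₂
  xs := xA_symm t
  es := fun _ _ h => eta_anti t h
  cyc := sg_cyc t
  swap := sg_swap t
  coc := sg_coc t
  tri := by
    apply perm3
    · intro i j k hij hjk
      exact tri_lt t hij hjk
    · intro i j k h
      rw [sg_cyc, xA_symm t k i, xA_symm t j i]
      linear_combination h
    · intro i j k h
      rw [sg_swap, xA_symm t j i]
      linear_combination h
  lin := by
    have key : ∀ i j k : Fin 5, i ≠ j → j ≠ k → i ≠ k →
        (i ≠ j ∧ j ≠ k ∧ i ≠ k ∧ eta t j k - eta t i j = sg t i j k * (xA t j k - xA t i j) ∧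
        eta t k i - eta t i j = sg t i j k * (xA t k i - xA t i j)) := by
      apply perm3
      · intro i j k hij hjk
        exact ⟨hij.ne, hjk.ne, (hij.trans hjk).ne, lin_lt t hij hjk⟩
      · rintro i j k ⟨a, b, c, h1, h2⟩
        refine ⟨b, c.symm, a.symm, ?_, ?_⟩
        · rw [sg_cyc]
          linear_combination h2 - h1
        · rw [sg_cyc]
          linear_combination -h1
      · rintro i j k ⟨a, b, c, h1, h2⟩
        refine ⟨a.symm, c, b, ?_, ?_⟩
        · rw [sg_swap, eta_anti t c, eta_anti t a.symm, xA_symm t i k, xA_symm t j i]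
          linear_combination -h2
        · rw [sg_swap, eta_anti t b.symm, eta_anti t a.symm, xA_symm t k j, xA_symm t j i]
          linear_combination -h1
    intro i j k hij hjk hik
    exact (key i j k hij hjk hik).2.2.2.1

/-- The derivatives along the lines. -/
lemma der {i j k : Fin 5} (hij : i < j) (hjk : j < k) :
    (eta t i j = 0 →
      t 0 * yA t i j - (3 * xA t i j ^ 2 + 2 * (curveA t).a₂ * xA t i j + (curveA t).a₄) = 0 →
      (xA t i j - xA t j k) * (xA t i j - xA t i k) = 0) ∧
    (eta t j k = 0 →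
      t 0 * yA t j k - (3 * xA t j k ^ 2 + 2 * (curveA t).a₂ * xA t j k + (curveA t).a₄) = 0 →
      (xA t j k - xA t i j) * (xA t j k - xA t i k) = 0) ∧
    (eta t i k = 0 →
      t 0 * yA t i k - (3 * xA t i k ^ 2 + 2 * (curveA t).a₂ * xA t i k + (curveA t).a₄) = 0 →
      (xA t i k - xA t i j) * (xA t i k - xA t j k) = 0) := by
  obtain ⟨h1, h2, h3, h4, h5⟩ := lin_all t hij hjk
  have hik := hij.trans hjk
  change -yA t i k - t 0 * xA t i k - pa3 t - yA t i j = _ at h2
  change _ = (lam t i j k) ^ 2 + t 0 * lam t i j k - (curveA t).a₂ at h3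
  change _ = (curveA t).a₄ - (2 * lam t i j k * (yA t i j - lam t i j k * xA t i j) +
    t 0 * (yA t i j - lam t i j k * xA t i j) + pa3 t * lam t i j k) at h4
  unfold eta
  rw [if_pos hij, if_pos hjk, if_pos hik]
  refine ⟨?_, ?_, ?_⟩
  · intro e g
    linear_combination (-lam t i j k) * e - g - 2 * xA t i j * h3 + h4
  · intro e g
    have hy : yA t j k = yA t i j + lam t i j k * (xA t j k - xA t i j) := by
      linear_combination h1
    rw [hy] at e g
    linear_combination (-lam t i j k) * e - g - 2 * xA t j k * h3 + h4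
  · intro e g
    have hy : yA t i k = -t 0 * xA t i k - pa3 t - yA t i j -
        lam t i j k * (xA t i k - xA t i j) := by
      linear_combination -h2
    rw [hy] at e g
    linear_combination (lam t i j k + t 0) * e - g - 2 * xA t i k * h3 + h4

lemma compl2 {i j : Fin 5} (hij : i < j) : ∃ k l m : Fin 5, i ≠ k ∧ i ≠ l ∧
      i ≠ m ∧ j ≠ k ∧ j ≠ l ∧ j ≠ m ∧ k ≠ l ∧ k ≠ m ∧ l ≠ m := by
  revert i j
  decide

/-- A singular marked point satisfies one of the bad conditions. -/
theorem sing_bad (h2 : (2 : K) ≠ 0) {i j : Fin 5} (hij : i < j)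
    (he : 2 * yA t i j + t 0 * xA t i j + pa3 t = 0)
    (hg : t 0 * yA t i j - (3 * xA t i j ^ 2 + 2 * (curveA t).a₂ * xA t i j + (curveA t).a₄) = 0) :
    ∃ i' j' k' l' m' : Fin 5, i' ≠ j' ∧ i' ≠ k' ∧ i' ≠ l' ∧ i' ≠ m' ∧ j' ≠ k' ∧ j' ≠ l' ∧ j' ≠ m' ∧
      k' ≠ l' ∧ k' ≠ m' ∧ l' ≠ m' ∧ (dat t).Bad i' j' k' l' m' := by
  have he' : eta t i j = 0 := by
    unfold eta
    rw [if_pos hij]
    exact he
  have key : ∀ k, i ≠ k → j ≠ k → (xA t i j - xA t j k) * (xA t i j - xA t i k) = 0 := by
    intro k hik hjk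
    rcases lt_or_gt_of_ne hik with a | a
    · rcases lt_or_gt_of_ne hjk with b | b
      · exact (der t hij b).1 he' hg
      · have := (der t a b).2.2 he' hg
        rw [xA_symm t k j] at this
        linear_combination this
    · have := (der t a hij).2.1 he' hg
      rw [xA_symm t k i, xA_symm t k j] at this
      linear_combination this
  obtain ⟨k, l, m, hik, hil, him, hjk, hjl, hjm, hkl, hkm, hlm⟩ := compl2 hij
  exact (dat t).classify hij.ne hik hil him hjk hjl hjm hkl hkm hlm h2 he' (key k hik hjk)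
    (key l hil hjl) (key m him hjm)

end field

end Pool.Agent.K3h13.RG
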