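import Pool.Agent.K3h13.RG.Big
import Pool.Agent.K3h13.RG.Sing

/-!
# The number of parameters which are bad at a large prime
-/

set_option autoImplicit false

namespace Pool.Agent.K3h13.RG

open Finset Pool.Agent.Y732

/-- coordinates adapted to the first kind of bad condition -/
def f1 (v : Fin 6 → ℤ) (i j k l m : Fin 5) : Fin 6 → ℤ :=
  ![sg v i k l + sg v i j k, sg v i k m + sg v i j k, sg v i j k, sg v i j l, sg v i j m,
    sg v i l m]

/-- coordinates adapted to the second kind of bad condition -/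
def f2 (v : Fin 6 → ℤ) (i j k l m : Fin 5) : Fin 6 → ℤ :=
  ![sg v i k l + sg v i j k, sg v i l m - sg v i j m, sg v i j k, sg v i j l, sg v i j m,
    sg v i k m]

/-- coordinates adapted to the third kind of bad condition -/
def f3 (v : Fin 6 → ℤ) (i j k l m : Fin 5) : Fin 6 → ℤ :=
  ![sg v i j k - sg v i j l, sg v i j k + sg v i k m, sg v i l m + sg v i j l,
    sg v i j m - sg v i j l, sg v i k m - sg v i k l, sg v i j l - sg v i k l]

/-- five distinct indices -/
def Dst (i j k l m : Fin 5) : Prop :=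
  i ≠ j ∧ i ≠ k ∧ i ≠ l ∧ i ≠ m ∧ j ≠ k ∧ j ≠ l ∧ j ≠ m ∧ k ≠ l ∧ k ≠ m ∧ l ≠ m

lemma cover {i j k l m : Fin 5} (h : Dst i j k l m) (a : Fin 5) :
    a = i ∨ a = j ∨ a = k ∨ a = l ∨ a = m := by
  obtain ⟨h1, h2, h3, h4, h5, h6, h7, h8, h9, h10⟩ := h
  have hu : ({i, j, k, l, m} : Finset (Fin 5)) = univ := by
    apply eq_univ_of_card
    rw [card_insert_of_notMem, card_insert_of_notMem, card_insert_of_notMem,
      card_insert_of_notMem, card_singleton]
    · rfl
    · simpa using h10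
    · simp only [mem_insert, mem_singleton, not_or]
      exact ⟨h8, h9⟩
    · simp only [mem_insert, mem_singleton, not_or]
      exact ⟨h5, h6, h7⟩
    · simp only [mem_insert, mem_singleton, not_or]
      exact ⟨h1, h2, h3, h4⟩
  have := mem_univ a
  rw [← hu] at this
  simpa only [mem_insert, mem_singleton] using this

lemma sg_self (v : Fin 6 → ℤ) (i a : Fin 5) : sg v i i a = 0 ∧ sg v i a i = 0 ∧ sg v i a a = 0 := by
  have h1 := sg_swap v i i a
  have h2 := sg_cyc v i a i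
  have h3 := sg_cyc v i i a
  have h4 := sg_swap v a a i
  have h5 := sg_cyc v i a a
  have h6 := sg_cyc v a i a
  refine ⟨by linarith, by linarith, ?_⟩
  have h7 : sg v i a a = sg v a a i := (sg_cyc v i a a).symm
  linarith

lemma v_of_sg {v w : Fin 6 → ℤ} (h : ∀ a b c, sg v a b c = sg w a b c) : v = w := by
  have h0 := h 0 1 2
  have h1 := h 1 2 3
  have h2 := h 0 2 3
  have h3 := h 2 3 4
  have h4 := h 1 3 4
  have h5 := h 0 3 4
  rw [sg_lam _ (by decide) (by decide), sg_lam _ (by decide) (by decide)] at h0 h1 h2 h3 h4 h5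
  simp only [lam, Fin.reduceEq, if_true, if_false] at h0 h1 h2 h3 h4 h5
  funext l
  fin_cases l
  · change v 0 = w 0
    linarith
  · change v 1 = w 1
    linarith
  · change v 2 = w 2
    linarith
  · change v 3 = w 3
    linarith
  · change v 4 = w 4
    linarith
  · change v 5 = w 5
    linarith

lemma v_of_six {v w : Fin 6 → ℤ} {i j k l m : Fin 5} (hd : Dst i j k l m)
    (h1 : sg v i j k = sg w i j k) (h2 : sg v i j l = sg w i j l) (h3 : sg v i j m = sg w i j m)
    (h4 : sg v i k l = sg w i k l) (h5 : sg v i k m = sg w i k m) (h6 : sg v i l m = sg w i l m) :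
    v = w := by
  have anti : ∀ (u : Fin 6 → ℤ) (a b : Fin 5), sg u i b a = -sg u i a b := by
    intro u a b
    rw [← sg_cyc u i b a, sg_swap u a b i, sg_cyc u i a b]
  have key : ∀ a b, sg v i a b = sg w i a b := by
    intro a b
    rcases cover hd a with rfl | rfl | rfl | rfl | rfl
    · rw [(sg_self v a b).1, (sg_self w a b).1]
    · rcases cover hd b with rfl | rfl | rfl | rfl | rfl
      · rw [(sg_self v b a).2.1, (sg_self w b a).2.1]
      · rw [(sg_self v i b).2.2, (sg_self w i b).2.2]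
      · exact h1
      · exact h2
      · exact h3
    · rcases cover hd b with rfl | rfl | rfl | rfl | rfl
      · rw [(sg_self v b a).2.1, (sg_self w b a).2.1]
      · rw [anti v, anti w, h1]
      · rw [(sg_self v i b).2.2, (sg_self w i b).2.2]
      · exact h4
      · exact h5
    · rcases cover hd b with rfl | rfl | rfl | rfl | rfl
      · rw [(sg_self v b a).2.1, (sg_self w b a).2.1]
      · rw [anti v, anti w, h2]
      · rw [anti v, anti w, h4]
      · rw [(sg_self v i b).2.2, (sg_self w i b).2.2]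
      · exact h6
    · rcases cover hd b with rfl | rfl | rfl | rfl | rfl
      · rw [(sg_self v b a).2.1, (sg_self w b a).2.1]
      · rw [anti v, anti w, h3]
      · rw [anti v, anti w, h5]
      · rw [anti v, anti w, h6]
      · rw [(sg_self v i b).2.2, (sg_self w i b).2.2]
  apply v_of_sg
  intro a b c
  have k1 := sg_coc v i a b c
  have k2 := sg_coc w i a b c
  rw [key b c, key a c, key a b] at k1
  linarith

lemma f1_inj {v w : Fin 6 → ℤ} {i j k l m : Fin 5} (hd : Dst i j k l m)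
    (h : f1 v i j k l m = f1 w i j k l m) : v = w := by
  have e0 : sg v i k l + sg v i j k = sg w i k l + sg w i j k := congrFun h 0
  have e1 : sg v i k m + sg v i j k = sg w i k m + sg w i j k := congrFun h 1
  have e2 : sg v i j k = sg w i j k := congrFun h 2
  have e3 : sg v i j l = sg w i j l := congrFun h 3
  have e4 : sg v i j m = sg w i j m := congrFun h 4
  have e5 : sg v i l m = sg w i l m := congrFun h 5
  exact v_of_six hd e2 e3 e4 (by linarith) (by linarith) e5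

lemma f2_inj {v w : Fin 6 → ℤ} {i j k l m : Fin 5} (hd : Dst i j k l m)
    (h : f2 v i j k l m = f2 w i j k l m) : v = w := by
  have e0 : sg v i k l + sg v i j k = sg w i k l + sg w i j k := congrFun h 0
  have e1 : sg v i l m - sg v i j m = sg w i l m - sg w i j m := congrFun h 1
  have e2 : sg v i j k = sg w i j k := congrFun h 2
  have e3 : sg v i j l = sg w i j l := congrFun h 3
  have e4 : sg v i j m = sg w i j m := congrFun h 4
  have e5 : sg v i k m = sg w i k m := congrFun h 5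
  exact v_of_six hd e2 e3 e4 (by linarith) e5 (by linarith)

lemma f3_inj {v w : Fin 6 → ℤ} {i j k l m : Fin 5} (hd : Dst i j k l m)
    (h : f3 v i j k l m = f3 w i j k l m) : v = w := by
  have e0 : sg v i j k - sg v i j l = sg w i j k - sg w i j l := congrFun h 0
  have e1 : sg v i j k + sg v i k m = sg w i j k + sg w i k m := congrFun h 1
  have e2 : sg v i l m + sg v i j l = sg w i l m + sg w i j l := congrFun h 2
  have e3 : sg v i j m - sg v i j l = sg w i j m - sg w i j l := congrFun h 3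
  have e4 : sg v i k m - sg v i k l = sg w i k m - sg w i k l := congrFun h 4
  have e5 : sg v i j l - sg v i k l = sg w i j l - sg w i k l := congrFun h 5
  exact v_of_six hd (by linarith) (by linarith) (by linarith) (by linarith) (by linarith)
    (by linarith)

lemma tau_bound {N : ℕ} {v : Fin 6 → ℤ} (hv : v ∈ Cb N) (i j : Fin 5) :
    -(9 * (N : ℤ)) ≤ tau v i j ∧ tau v i j ≤ 9 * N := by
  rw [mem_Cb] at hv
  have h0 := hv 0
  have h1 := hv 1
  have h2 := hv 2
  have h3 := hv 3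
  have h4 := hv 4
  have h5 := hv 5
  have key : ∀ i j : Fin 5, i < j → -(9 * (N : ℤ)) ≤ tau v i j ∧ tau v i j ≤ 9 * N := by
    intro i j hij
    rcases cases2 hij with ⟨rfl, rfl⟩ | ⟨rfl, rfl⟩ | ⟨rfl, rfl⟩ | ⟨rfl, rfl⟩ | ⟨rfl, rfl⟩ |
      ⟨rfl, rfl⟩ | ⟨rfl, rfl⟩ | ⟨rfl, rfl⟩ | ⟨rfl, rfl⟩ | ⟨rfl, rfl⟩
    · rw [tau0]; constructor <;> linarith
    · rw [tau0]; constructor <;> linarith
    · rw [tau0]; constructor <;> linarith
    · rw [tau0]; constructor <;> linarith
    · rw [tau12]; constructor <;> linarith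
    · rw [tau13]; constructor <;> linarith
    · rw [tau14]; constructor <;> linarith
    · rw [tau23]; constructor <;> linarith
    · rw [tau24]; constructor <;> linarith
    · rw [tau34]; constructor <;> linarith
  rcases lt_trichotomy i j with h | h | h
  · exact key i j h
  · subst h
    have : tau v i i = 0 := by
      have := tau_anti v i i
      linarith
    rw [this]
    constructor <;> linarith
  · have := key j i h
    rw [tau_anti v i j]
    constructor <;> linarith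

lemma sg_bound {N : ℕ} {v : Fin 6 → ℤ} (hv : v ∈ Cb N) (i j k : Fin 5) :
    -(27 * (N : ℤ)) ≤ sg v i j k ∧ sg v i j k ≤ 27 * N := by
  have h1 := tau_bound hv i j
  have h2 := tau_bound hv j k
  have h3 := tau_bound hv k i
  unfold sg
  constructor <;> linarith

lemma sg_modEq {q : ℕ} {v c : Fin 6 → ℤ} (h : ∀ l, v l ≡ c l [ZMOD q]) (i j k : Fin 5) :
    sg v i j k ≡ sg c i j k [ZMOD q] := by
  rw [← ZMod.intCast_eq_intCast_iff]
  have e1 := map_sg (Int.castRingHom (ZMod q)) v i j k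
  have e2 := map_sg (Int.castRingHom (ZMod q)) c i j k
  simp only [eq_intCast] at e1 e2
  rw [e1, e2]
  have : (fun l => ((v l : ℤ) : ZMod q)) = fun l => ((c l : ℤ) : ZMod q) := by
    funext l
    exact (ZMod.intCast_eq_intCast_iff _ _ _).2 (h l)
  rw [this]

lemma f1_modEq {q : ℕ} {v c : Fin 6 → ℤ} (h : ∀ l, v l ≡ c l [ZMOD q]) (i j k l m : Fin 5)
    (t : Fin 6) : f1 v i j k l m t ≡ f1 c i j k l m t [ZMOD q] := by
  have s := sg_modEq h
  fin_cases t
  · exact (s _ _ _).add (s _ _ _)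
  · exact (s _ _ _).add (s _ _ _)
  · exact s _ _ _
  · exact s _ _ _
  · exact s _ _ _
  · exact s _ _ _

lemma f2_modEq {q : ℕ} {v c : Fin 6 → ℤ} (h : ∀ l, v l ≡ c l [ZMOD q]) (i j k l m : Fin 5)
    (t : Fin 6) : f2 v i j k l m t ≡ f2 c i j k l m t [ZMOD q] := by
  have s := sg_modEq h
  fin_cases t
  · exact (s _ _ _).add (s _ _ _)
  · exact (s _ _ _).sub (s _ _ _)
  · exact s _ _ _
  · exact s _ _ _
  · exact s _ _ _
  · exact s _ _ _

lemma f3_modEq {q : ℕ} {v c : Fin 6 → ℤ} (h : ∀ l, v l ≡ c l [ZMOD q]) (i j k l m : Fin 5)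
    (t : Fin 6) : f3 v i j k l m t ≡ f3 c i j k l m t [ZMOD q] := by
  have s := sg_modEq h
  fin_cases t
  · exact (s _ _ _).sub (s _ _ _)
  · exact (s _ _ _).add (s _ _ _)
  · exact (s _ _ _).add (s _ _ _)
  · exact (s _ _ _).sub (s _ _ _)
  · exact (s _ _ _).sub (s _ _ _)
  · exact (s _ _ _).sub (s _ _ _)

lemma f_bound {N : ℕ} {v : Fin 6 → ℤ} (hv : v ∈ Cb N) (i j k l m : Fin 5) :
    f1 v i j k l m ∈ Cb (54 * N) ∧ f2 v i j k l m ∈ Cb (54 * N) ∧ f3 v i j k l m ∈ Cb (54 * N) := by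
  have s := sg_bound hv
  have a1 := s i k l
  have a2 := s i j k
  have a3 := s i k m
  have a4 := s i j l
  have a5 := s i j m
  have a6 := s i l m
  refine ⟨?_, ?_, ?_⟩
  · rw [mem_Cb]
    intro t
    push_cast
    fin_cases t <;> simp [f1] <;> omega
  · rw [mem_Cb]
    intro t
    push_cast
    fin_cases t <;> simp [f2] <;> omega
  · rw [mem_Cb]
    intro t
    push_cast
    fin_cases t <;> simp [f3] <;> omega

/-- the bad conditions at the prime `ℓ` over the integers -/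
def BadZ (ℓ : ℕ) (v : Fin 6 → ℤ) (i j k l m : Fin 5) : Prop :=
  PL ℓ (f1 v i j k l m) ∨ PL ℓ (f2 v i j k l m) ∨ PR ℓ (f3 v i j k l m)

open scoped Classical in
lemma pull {P : ℕ → (Fin 6 → ℤ) → Prop} (hP : P = PL ∨ P = PR)
    (f : (Fin 6 → ℤ) → (Fin 6 → ℤ)) (hf : ∀ v w, f v = f w → v = w)
    (hb : ∀ N : ℕ, ∀ v ∈ Cb N, f v ∈ Cb (54 * N))
    (N q M : ℕ) (hq : 0 < q) (hM : 0 < M) (hN : 0 < N) (c : Fin 6 → ℤ)
    (hc : ∀ v, (∀ l, v l ≡ c l [ZMOD q]) → ∀ l, f v l ≡ f c l [ZMOD q]) :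
    (((Cb N).filter fun v => (∀ l, v l ≡ c l [ZMOD q]) ∧
      ∃ ℓ : ℕ, ℓ.Prime ∧ M < ℓ ∧ q.Coprime ℓ ∧ P ℓ (f v)).card : ℚ) ≤
      8192 * ((54 * (N : ℚ) / q) ^ 6 / M + q ^ 2 * (54 * N) ^ 5) + 1944 * (54 * N) ^ 5 := by
  have h1 := cube_sieve hP (54 * N) q M hq hM (by omega) (f c)
  push_cast at h1
  refine le_trans ?_ h1
  rw [Nat.cast_le]
  apply card_le_card_of_injOn f
  · intro v hv
    rw [mem_coe, mem_filter] at hv ⊢
    exact ⟨hb N v hv.1, hc v hv.2.1, hv.2.2⟩
  · intro v _ w _ h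
    exact hf v w h

open scoped Classical in
/-- The number of parameters which are bad at a large prime. -/
theorem bad_count (N q M : ℕ) (hq : 0 < q) (hM : 0 < M) (hN : 0 < N) (c : Fin 6 → ℤ) :
    (((Cb N).filter fun v => (∀ l, v l ≡ c l [ZMOD q]) ∧
      ∃ ℓ : ℕ, ℓ.Prime ∧ M < ℓ ∧ q.Coprime ℓ ∧ ∃ i j k l m, Dst i j k l m ∧
        BadZ ℓ v i j k l m).card : ℚ) ≤
      9375 * (8192 * ((54 * (N : ℚ) / q) ^ 6 / M + q ^ 2 * (54 * N) ^ 5) +
        1944 * (54 * N) ^ 5) := by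
  set Bd : ℚ := 8192 * ((54 * (N : ℚ) / q) ^ 6 / M + q ^ 2 * (54 * N) ^ 5) +
    1944 * (54 * N) ^ 5 with hBd
  have hBd0 : 0 ≤ Bd := by positivity
  set T : (Fin 5 × Fin 5 × Fin 5 × Fin 5 × Fin 5) → Finset (Fin 6 → ℤ) := fun e =>
    (Cb N).filter fun v => (∀ l, v l ≡ c l [ZMOD q]) ∧
      ∃ ℓ : ℕ, ℓ.Prime ∧ M < ℓ ∧ q.Coprime ℓ ∧ Dst e.1 e.2.1 e.2.2.1 e.2.2.2.1 e.2.2.2.2 ∧
        BadZ ℓ v e.1 e.2.1 e.2.2.1 e.2.2.2.1 e.2.2.2.2 with hT
  have hsub : ((Cb N).filter fun v => (∀ l, v l ≡ c l [ZMOD q]) ∧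
      ∃ ℓ : ℕ, ℓ.Prime ∧ M < ℓ ∧ q.Coprime ℓ ∧ ∃ i j k l m, Dst i j k l m ∧
        BadZ ℓ v i j k l m) ⊆ univ.biUnion T := by
    intro v hv
    rw [mem_filter] at hv
    obtain ⟨h1, h2, ℓ, a1, a2, a3, i, j, k, l, m, hd, hb⟩ := hv
    rw [mem_biUnion]
    refine ⟨(i, j, k, l, m), mem_univ _, ?_⟩
    rw [hT]
    simp only [mem_filter]
    exact ⟨h1, h2, ℓ, a1, a2, a3, hd, hb⟩
  have hT1 : ∀ e, ((T e).card : ℚ) ≤ 3 * Bd := by
    rintro ⟨i, j, k, l, m⟩
    by_cases hd : Dst i j k l m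
    · have p1 := pull (P := PL) (Or.inl rfl) (fun v => f1 v i j k l m)
        (fun v w h => f1_inj hd h) (fun N v hv => (f_bound hv i j k l m).1) N q M hq hM hN c
        (fun v h t => f1_modEq h i j k l m t)
      have p2 := pull (P := PL) (Or.inl rfl) (fun v => f2 v i j k l m)
        (fun v w h => f2_inj hd h) (fun N v hv => (f_bound hv i j k l m).2.1) N q M hq hM hN c
        (fun v h t => f2_modEq h i j k l m t)
      have p3 := pull (P := PR) (Or.inr rfl) (fun v => f3 v i j k l m)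
        (fun v w h => f3_inj hd h) (fun N v hv => (f_bound hv i j k l m).2.2) N q M hq hM hN c
        (fun v h t => f3_modEq h i j k l m t)
      have hs : T (i, j, k, l, m) ⊆
          ((Cb N).filter fun v => (∀ l, v l ≡ c l [ZMOD q]) ∧
            ∃ ℓ : ℕ, ℓ.Prime ∧ M < ℓ ∧ q.Coprime ℓ ∧ PL ℓ (f1 v i j k l m)) ∪
          (((Cb N).filter fun v => (∀ l, v l ≡ c l [ZMOD q]) ∧
            ∃ ℓ : ℕ, ℓ.Prime ∧ M < ℓ ∧ q.Coprime ℓ ∧ PL ℓ (f2 v i j k l m)) ∪
          ((Cb N).filter fun v => (∀ l, v l ≡ c l [ZMOD q]) ∧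
            ∃ ℓ : ℕ, ℓ.Prime ∧ M < ℓ ∧ q.Coprime ℓ ∧ PR ℓ (f3 v i j k l m))) := by
        intro v hv
        rw [hT] at hv
        simp only [mem_filter] at hv
        obtain ⟨h1, h2, ℓ, a1, a2, a3, -, hb⟩ := hv
        rw [mem_union, mem_union, mem_filter, mem_filter, mem_filter]
        rcases hb with hb | hb | hb
        · exact Or.inl ⟨h1, h2, ℓ, a1, a2, a3, hb⟩
        · exact Or.inr (Or.inl ⟨h1, h2, ℓ, a1, a2, a3, hb⟩)
        · exact Or.inr (Or.inr ⟨h1, h2, ℓ, a1, a2, a3, hb⟩)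
      have hcard : ((T (i, j, k, l, m)).card : ℚ) ≤
          (((Cb N).filter fun v => (∀ l, v l ≡ c l [ZMOD q]) ∧
            ∃ ℓ : ℕ, ℓ.Prime ∧ M < ℓ ∧ q.Coprime ℓ ∧ PL ℓ (f1 v i j k l m)).card : ℚ) +
          ((((Cb N).filter fun v => (∀ l, v l ≡ c l [ZMOD q]) ∧
            ∃ ℓ : ℕ, ℓ.Prime ∧ M < ℓ ∧ q.Coprime ℓ ∧ PL ℓ (f2 v i j k l m)).card : ℚ) +
          (((Cb N).filter fun v => (∀ l, v l ≡ c l [ZMOD q]) ∧
            ∃ ℓ : ℕ, ℓ.Prime ∧ M < ℓ ∧ q.Coprime ℓ ∧ PR ℓ (f3 v i j k l m)).card : ℚ)) := by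
        exact_mod_cast (card_le_card hs).trans ((card_union_le _ _).trans
          (Nat.add_le_add_left (card_union_le _ _) _))
      linarith
    · have : T (i, j, k, l, m) = ∅ := by
        rw [hT]
        simp only [filter_eq_empty_iff]
        rintro v _ ⟨-, ℓ, -, -, -, h, -⟩
        exact hd h
      rw [this, card_empty, Nat.cast_zero]
      linarith
  have h1 : (((Cb N).filter fun v => (∀ l, v l ≡ c l [ZMOD q]) ∧
      ∃ ℓ : ℕ, ℓ.Prime ∧ M < ℓ ∧ q.Coprime ℓ ∧ ∃ i j k l m, Dst i j k l m ∧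
        BadZ ℓ v i j k l m).card : ℚ) ≤ ∑ e : Fin 5 × Fin 5 × Fin 5 × Fin 5 × Fin 5,
          ((T e).card : ℚ) := by
    exact_mod_cast (card_le_card hsub).trans card_biUnion_le
  refine h1.trans ((sum_le_sum fun e _ => hT1 e).trans ?_)
  rw [sum_const, card_univ]
  simp only [Fintype.card_prod, Fintype.card_fin, nsmul_eq_mul]
  push_cast
  linarith

/-- relation with the abstract conditions -/
lemma badZ_of_bad {ℓ : ℕ} [Fact ℓ.Prime] {v : Fin 6 → ℤ} {i j k l m : Fin 5}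
    (h : (dat (fun t => (v t : ZMod ℓ))).Bad i j k l m) : BadZ ℓ v i j k l m := by
  have e : ∀ a b c, (dat (fun t => (v t : ZMod ℓ))).s a b c = ((sg v a b c : ℤ) : ZMod ℓ) := by
    intro a b c
    have := map_sg (Int.castRingHom (ZMod ℓ)) v a b c
    simp only [eq_intCast] at this
    exact this.symm
  unfold Data.Bad at h
  simp only [e] at h
  unfold BadZ PL PR
  rcases h with ⟨h1, h2⟩ | ⟨h1, h2⟩ | ⟨h1, h2, h3⟩
  · left
    constructor
    · rw [← ZMod.intCast_zmod_eq_zero_iff_dvd]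
      simpa [f1] using h1
    · rw [← ZMod.intCast_zmod_eq_zero_iff_dvd]
      simpa [f1] using h2
  · right
    left
    constructor
    · rw [← ZMod.intCast_zmod_eq_zero_iff_dvd]
      simpa [f2] using h1
    · rw [← ZMod.intCast_zmod_eq_zero_iff_dvd]
      simpa [f2] using h2
  · right
    right
    refine ⟨?_, ?_, ?_⟩
    · rw [← ZMod.intCast_zmod_eq_zero_iff_dvd]
      simpa [f3] using h1
    · rw [← ZMod.intCast_zmod_eq_zero_iff_dvd]
      simpa [f3] using h2
    · rw [← ZMod.intCast_zmod_eq_zero_iff_dvd]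
      simpa [f3] using h3

end Pool.Agent.K3h13.RG
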