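import Pool.Agent.K3h13.RG.Geo
import Pool.Agent.K3h13.RG.Pull
import Pool.Agent.R89.SR.Basis

/-!
# The family of elliptic curves with five integral points in general position
-/

set_option autoImplicit false

namespace Pool.Agent.K3h13.RG

open MvPolynomial Pool.Agent.Y732

section hom

variable {w : Fin 6 → ℕ} {p q : MvPolynomial (Fin 6) ℤ}

lemma w11 (hp : IsWeightedHomogeneous w p 1) (hq : IsWeightedHomogeneous w q 1) :
    IsWeightedHomogeneous w (p * q) 2 := hp.mul hq

lemma w12 (hp : IsWeightedHomogeneous w p 1) (hq : IsWeightedHomogeneous w q 2) :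
    IsWeightedHomogeneous w (p * q) 3 := hp.mul hq

lemma w22 (hp : IsWeightedHomogeneous w p 2) (hq : IsWeightedHomogeneous w q 2) :
    IsWeightedHomogeneous w (p * q) 4 := hp.mul hq

lemma wsub {n : ℕ} (hp : IsWeightedHomogeneous w p n) (hq : IsWeightedHomogeneous w q n) :
    IsWeightedHomogeneous w (p - q) n := by
  rw [sub_eq_add_neg]
  exact hp.add hq.neg

end hom

/-- the weights are all `1` -/
def wt : Fin 6 → ℕ := fun _ => 1

lemma wX (i : Fin 6) : IsWeightedHomogeneous wt (X i : MvPolynomial (Fin 6) ℤ) 1 :=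
  isWeightedHomogeneous_X ℤ wt i

/-- the generic parameters -/
noncomputable def gX : Fin 6 → MvPolynomial (Fin 6) ℤ := X

lemma hpm : IsWeightedHomogeneous wt (pm gX) 2 := by
  unfold pm gX
  repeat (first
    | exact wX _
    | exact isWeightedHomogeneous_zero ℤ _ _
    | apply IsWeightedHomogeneous.add
    | apply wsub
    | apply IsWeightedHomogeneous.neg
    | apply w11
    | apply w12
    | apply w22)
lemma hpn : IsWeightedHomogeneous wt (pn gX) 2 := by
  unfold pn gX
  repeat (first
    | exact wX _
    | exact isWeightedHomogeneous_zero ℤ _ _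
    | apply IsWeightedHomogeneous.add
    | apply wsub
    | apply IsWeightedHomogeneous.neg
    | apply w11
    | apply w12
    | apply w22)
lemma hlin (i : Fin 6) : IsWeightedHomogeneous wt (gX i) 1 := wX i

lemma hpa3 : IsWeightedHomogeneous wt (pa3 gX) 3 := by
  unfold pa3
  repeat (first
    | exact hlin _
    | exact hpm
    | exact hpn
    | assumption
    | exact isWeightedHomogeneous_zero ℤ _ _
    | apply IsWeightedHomogeneous.add
    | apply wsub
    | apply IsWeightedHomogeneous.neg
    | apply w11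
    | apply w12
    | apply w22)
lemma hx13 : IsWeightedHomogeneous wt (x13 gX) 2 := by
  unfold x13
  repeat (first
    | exact hlin _
    | exact hpm
    | exact hpn
    | assumption
    | exact isWeightedHomogeneous_zero ℤ _ _
    | apply IsWeightedHomogeneous.add
    | apply wsub
    | apply IsWeightedHomogeneous.neg
    | apply w11
    | apply w12
    | apply w22)
lemma hx03 : IsWeightedHomogeneous wt (x03 gX) 2 := by
  unfold x03
  repeat (first
    | exact hlin _
    | exact hpm
    | exact hpn
    | assumption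
    | exact isWeightedHomogeneous_zero ℤ _ _
    | apply IsWeightedHomogeneous.add
    | apply wsub
    | apply IsWeightedHomogeneous.neg
    | apply w11
    | apply w12
    | apply w22)
lemma hx23 : IsWeightedHomogeneous wt (x23 gX) 2 := by
  unfold x23
  repeat (first
    | exact hlin _
    | exact hpm
    | exact hpn
    | assumption
    | exact isWeightedHomogeneous_zero ℤ _ _
    | apply IsWeightedHomogeneous.add
    | apply wsub
    | apply IsWeightedHomogeneous.neg
    | apply w11
    | apply w12
    | apply w22)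
lemma hx34 : IsWeightedHomogeneous wt (x34 gX) 2 := by
  unfold x34
  repeat (first
    | exact hlin _
    | exact hpm
    | exact hpn
    | assumption
    | exact isWeightedHomogeneous_zero ℤ _ _
    | apply IsWeightedHomogeneous.add
    | apply wsub
    | apply IsWeightedHomogeneous.neg
    | apply w11
    | apply w12
    | apply w22)
lemma hx24 : IsWeightedHomogeneous wt (x24 gX) 2 := by
  unfold x24
  repeat (first
    | exact hlin _
    | exact hpm
    | exact hpn
    | assumption
    | exact isWeightedHomogeneous_zero ℤ _ _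
    | apply IsWeightedHomogeneous.add
    | apply wsub
    | apply IsWeightedHomogeneous.neg
    | apply w11
    | apply w12
    | apply w22)
lemma hx14 : IsWeightedHomogeneous wt (x14 gX) 2 := by
  unfold x14
  repeat (first
    | exact hlin _
    | exact hpm
    | exact hpn
    | assumption
    | exact isWeightedHomogeneous_zero ℤ _ _
    | apply IsWeightedHomogeneous.add
    | apply wsub
    | apply IsWeightedHomogeneous.neg
    | apply w11
    | apply w12
    | apply w22)
lemma hx04 : IsWeightedHomogeneous wt (x04 gX) 2 := by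
  unfold x04
  repeat (first
    | exact hlin _
    | exact hpm
    | exact hpn
    | assumption
    | exact isWeightedHomogeneous_zero ℤ _ _
    | apply IsWeightedHomogeneous.add
    | apply wsub
    | apply IsWeightedHomogeneous.neg
    | apply w11
    | apply w12
    | apply w22)
lemma hy02 : IsWeightedHomogeneous wt (y02 gX) 3 := by
  have := hpa3
  unfold y02
  repeat (first
    | exact hlin _
    | exact hpm
    | exact hpn
    | assumption
    | exact isWeightedHomogeneous_zero ℤ _ _
    | apply IsWeightedHomogeneous.add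
    | apply wsub
    | apply IsWeightedHomogeneous.neg
    | apply w11
    | apply w12
    | apply w22)
lemma hy23 : IsWeightedHomogeneous wt (y23 gX) 3 := by
  have := hx23
  unfold y23
  repeat (first
    | exact hlin _
    | exact hpm
    | exact hpn
    | assumption
    | exact isWeightedHomogeneous_zero ℤ _ _
    | apply IsWeightedHomogeneous.add
    | apply wsub
    | apply IsWeightedHomogeneous.neg
    | apply w11
    | apply w12
    | apply w22)
lemma hy13 : IsWeightedHomogeneous wt (y13 gX) 3 := by
  have := hx13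
  unfold y13
  repeat (first
    | exact hlin _
    | exact hpm
    | exact hpn
    | assumption
    | exact isWeightedHomogeneous_zero ℤ _ _
    | apply IsWeightedHomogeneous.add
    | apply wsub
    | apply IsWeightedHomogeneous.neg
    | apply w11
    | apply w12
    | apply w22)
lemma hy03 : IsWeightedHomogeneous wt (y03 gX) 3 := by
  have := hx03
  unfold y03
  repeat (first
    | exact hlin _
    | exact hpm
    | exact hpn
    | assumption
    | exact isWeightedHomogeneous_zero ℤ _ _
    | apply IsWeightedHomogeneous.add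
    | apply wsub
    | apply IsWeightedHomogeneous.neg
    | apply w11
    | apply w12
    | apply w22)
lemma hy34 : IsWeightedHomogeneous wt (y34 gX) 3 := by
  have := hx34
  have := hx23
  have := hy23
  unfold y34
  repeat (first
    | exact hlin _
    | exact hpm
    | exact hpn
    | assumption
    | exact isWeightedHomogeneous_zero ℤ _ _
    | apply IsWeightedHomogeneous.add
    | apply wsub
    | apply IsWeightedHomogeneous.neg
    | apply w11
    | apply w12
    | apply w22)
lemma hy24 : IsWeightedHomogeneous wt (y24 gX) 3 := by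
  have := hx24
  unfold y24
  repeat (first
    | exact hlin _
    | exact hpm
    | exact hpn
    | assumption
    | exact isWeightedHomogeneous_zero ℤ _ _
    | apply IsWeightedHomogeneous.add
    | apply wsub
    | apply IsWeightedHomogeneous.neg
    | apply w11
    | apply w12
    | apply w22)
lemma hy14 : IsWeightedHomogeneous wt (y14 gX) 3 := by
  have := hx14
  unfold y14
  repeat (first
    | exact hlin _
    | exact hpm
    | exact hpn
    | assumption
    | exact isWeightedHomogeneous_zero ℤ _ _
    | apply IsWeightedHomogeneous.add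
    | apply wsub
    | apply IsWeightedHomogeneous.neg
    | apply w11
    | apply w12
    | apply w22)
lemma hy04 : IsWeightedHomogeneous wt (y04 gX) 3 := by
  have := hx04
  have := hpa3
  unfold y04
  repeat (first
    | exact hlin _
    | exact hpm
    | exact hpn
    | assumption
    | exact isWeightedHomogeneous_zero ℤ _ _
    | apply IsWeightedHomogeneous.add
    | apply wsub
    | apply IsWeightedHomogeneous.neg
    | apply w11
    | apply w12
    | apply w22)

/-- The elliptic curves with five integral points in general position: the parameters are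
`(s, u, v, a, b, c)`, all of weight one. -/
noncomputable def family4 : Family 6 4 where
  w := wt
  χ := 1
  n := fun _ _ => 0
  W := curveA gX
  x := xA gX
  y := yA gX
  e := fun _ _ => 1
  h₁ := hlin 0
  h₂ := by
    change IsWeightedHomogeneous wt (-(pm gX + pn gX)) 2
    repeat (first
      | exact hlin _
      | exact hpm
      | exact hpn
      | assumption
      | exact isWeightedHomogeneous_zero ℤ _ _
      | apply IsWeightedHomogeneous.add
      | apply wsub
      | apply IsWeightedHomogeneous.neg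
      | apply w11
      | apply w12
      | apply w22)
  h₃ := hpa3
  h₄ := by
    change IsWeightedHomogeneous wt (pm gX * pn gX) 4
    repeat (first
      | exact hlin _
      | exact hpm
      | exact hpn
      | assumption
      | exact isWeightedHomogeneous_zero ℤ _ _
      | apply IsWeightedHomogeneous.add
      | apply wsub
      | apply IsWeightedHomogeneous.neg
      | apply w11
      | apply w12
      | apply w22)
  h₆ := isWeightedHomogeneous_zero ℤ _ _
  hx := by
    intro i j
    change IsWeightedHomogeneous wt (xA gX i j) 2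
    fin_cases i <;> fin_cases j <;>
      first
      | exact isWeightedHomogeneous_zero ℤ _ _
      | exact hpm
      | exact hpn
      | exact hx03
      | exact hx04
      | exact hx13
      | exact hx14
      | exact hx23
      | exact hx24
      | exact hx34
  hy := by
    intro i j
    change IsWeightedHomogeneous wt (yA gX i j) 3
    fin_cases i <;> fin_cases j <;>
      first
      | exact isWeightedHomogeneous_zero ℤ _ _
      | exact hy02
      | exact hy03
      | exact hy04
      | exact hy13
      | exact hy14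
      | exact hy23
      | exact hy24
      | exact hy34
  he := fun _ _ => isWeightedHomogeneous_one ℤ _

lemma family4_K : family4.K.det = 5 := by
  have : family4.K = !![2, 1, 1, 1; 1, 2, 1, 1; 1, 1, 2, 1; 1, 1, 1, 2] := by
    ext i j
    fin_cases i <;> fin_cases j <;> simp [Family.K, family4]
  rw [this]
  decide

lemma eval_gX (v : Fin 6 → ℤ) : (fun l => eval v (gX l)) = v := by
  funext l
  simp [gX]

lemma family4_curve (v : Fin 6 → ℤ) : family4.curve v = curveA v := by
  have h := map_curveA (eval v) gX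
  rw [eval_gX] at h
  exact h

lemma family4_x (v : Fin 6 → ℤ) (i j : Fin 5) : eval v (family4.x i j) = xA v i j := by
  have h := map_xA (eval v) gX i j
  rw [eval_gX] at h
  exact h

lemma family4_y (v : Fin 6 → ℤ) (i j : Fin 5) : eval v (family4.y i j) = yA v i j := by
  have h := map_yA (eval v) gX i j
  rw [eval_gX] at h
  exact h

lemma family4_e (v : Fin 6 → ℤ) (i j : Fin 5) : eval v (family4.e i j) = 1 := by
  simp [family4]

/-- all the marked points are nonsingular modulo `ℓ` -/
def NSat (ℓ : ℕ) (v : Fin 6 → ℤ) : Prop :=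
  ∀ i j : Fin 5, i < j → ¬ ((ℓ : ℤ) ∣ 2 * yA v i j + v 0 * xA v i j + pa3 v ∧
    (ℓ : ℤ) ∣ v 0 * yA v i j - (3 * xA v i j ^ 2 + 2 * (curveA v).a₂ * xA v i j + (curveA v).a₄))

lemma marked_of {v : Fin 6 → ℤ} (hD : (curveA v).Δ ≠ 0) (h : ∀ ℓ : ℕ, ℓ.Prime → NSat ℓ v) :
    family4.Marked v := by
  refine ⟨by rw [family4_curve]; exact hD, ?_, ?_⟩
  · intro i j hij
    rw [family4_e, family4_x, family4_y, family4_curve]
    refine ⟨one_ne_zero, isCoprime_one_right, ?_, ?_⟩
    · have h3 : ∀ i j : Fin 5, i < j → (∃ k, j < k) ∨ (∃ k, k < i) ∨ (∃ k, i < k ∧ k < j) := by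
        decide
      rcases h3 i j hij with ⟨k, hk⟩ | ⟨k, hk⟩ | ⟨k, hk1, hk2⟩
      · exact (lin_oncurve (lin_all v hij hk)).1
      · exact (lin_oncurve (lin_all v hk hij)).2.1
      · exact (lin_oncurve (lin_all v hk1 hk2)).2.2
    · intro ℓ hℓ
      right
      rintro ⟨h1, h2⟩
      apply h ℓ hℓ i j hij
      constructor
      · have e : 2 * yA v i j + v 0 * xA v i j + pa3 v =
            2 * yA v i j + (curveA v).a₁ * xA v i j * 1 + (curveA v).a₃ * 1 ^ 3 := by
          change _ = 2 * yA v i j + v 0 * xA v i j * 1 + pa3 v * 1 ^ 3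
          ring
        rw [e]
        exact h1
      · have e : v 0 * yA v i j - (3 * xA v i j ^ 2 + 2 * (curveA v).a₂ * xA v i j +
            (curveA v).a₄) = (curveA v).a₁ * yA v i j * 1 - (3 * xA v i j ^ 2 +
            2 * (curveA v).a₂ * xA v i j * 1 ^ 2 + (curveA v).a₄ * 1 ^ 4) := by
          change _ = v 0 * yA v i j * 1 - _
          ring
        rw [e]
        exact h2
  · intro i j k hij hjk
    have hP : ∀ i j : Fin 5, family4.P v i j = pt (family4.curve v) (xA v i j) (yA v i j) 1 := by
      intro i j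
      rw [Family.P, family4_e, family4_x, family4_y]
    rw [hP, hP, hP]
    have h1 := lin_add (lin_all v hij hjk) hD
    rw [← family4_curve v] at h1
    exact h1

/-- the conditions depend only on the residue classes -/
lemma nsat_congr {ℓ : ℕ} {v w : Fin 6 → ℤ} (h : ∀ l, v l ≡ w l [ZMOD ℓ]) (hw : NSat ℓ w) :
    NSat ℓ v := by
  intro i j hij
  have e : ∀ u : Fin 6 → ℤ,
      (((ℓ : ℤ) ∣ 2 * yA u i j + u 0 * xA u i j + pa3 u ∧
    (ℓ : ℤ) ∣ u 0 * yA u i j - (3 * xA u i j ^ 2 + 2 * (curveA u).a₂ * xA u i j +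
      (curveA u).a₄)) ↔
      (2 * yA (fun l => (u l : ZMod ℓ)) i j + (u 0 : ZMod ℓ) * xA (fun l => (u l : ZMod ℓ)) i j +
        pa3 (fun l => (u l : ZMod ℓ)) = 0 ∧
      (u 0 : ZMod ℓ) * yA (fun l => (u l : ZMod ℓ)) i j -
        (3 * xA (fun l => (u l : ZMod ℓ)) i j ^ 2 +
        2 * (curveA (fun l => (u l : ZMod ℓ))).a₂ * xA (fun l => (u l : ZMod ℓ)) i j +
        (curveA (fun l => (u l : ZMod ℓ))).a₄) = 0)) := by
    intro u
    have ex := map_xA (Int.castRingHom (ZMod ℓ)) u i j
    have ey := map_yA (Int.castRingHom (ZMod ℓ)) u i j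
    have ec := map_curveA (Int.castRingHom (ZMod ℓ)) u
    simp only [eq_intCast] at ex ey ec
    have e2 : (curveA (fun l => (u l : ZMod ℓ))).a₂ = (((curveA u).a₂ : ℤ) : ZMod ℓ) := by
      rw [← ec]
      rfl
    have e3 : pa3 (fun l => (u l : ZMod ℓ)) = ((pa3 u : ℤ) : ZMod ℓ) := by
      change (curveA (fun l => (u l : ZMod ℓ))).a₃ = _
      rw [← ec]
      rfl
    have e4 : (curveA (fun l => (u l : ZMod ℓ))).a₄ = (((curveA u).a₄ : ℤ) : ZMod ℓ) := by
      rw [← ec]
      rfl
    rw [e2, e3, e4, ← ex, ← ey, ← ZMod.intCast_zmod_eq_zero_iff_dvd,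
      ← ZMod.intCast_zmod_eq_zero_iff_dvd]
    push_cast
    rfl
  have hvw : (fun l => ((v l : ℤ) : ZMod ℓ)) = fun l => ((w l : ℤ) : ZMod ℓ) := by
    funext l
    exact (ZMod.intCast_eq_intCast_iff _ _ _).2 (h l)
  have h0 : ((v 0 : ℤ) : ZMod ℓ) = ((w 0 : ℤ) : ZMod ℓ) := congrFun hvw 0
  have h1 := hw i j hij
  rw [e w] at h1
  rw [e v, hvw, h0]
  exact h1

/-- the conditions in `ZMod ℓ` -/
lemma nsat_cast {ℓ : ℕ} {u : Fin 6 → ℤ} {i j : Fin 5}
    (h : (ℓ : ℤ) ∣ 2 * yA u i j + u 0 * xA u i j + pa3 u ∧
    (ℓ : ℤ) ∣ u 0 * yA u i j - (3 * xA u i j ^ 2 + 2 * (curveA u).a₂ * xA u i j +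
      (curveA u).a₄)) :
      (2 * yA (fun l => (u l : ZMod ℓ)) i j + (u 0 : ZMod ℓ) * xA (fun l => (u l : ZMod ℓ)) i j +
        pa3 (fun l => (u l : ZMod ℓ)) = 0 ∧
      (u 0 : ZMod ℓ) * yA (fun l => (u l : ZMod ℓ)) i j -
        (3 * xA (fun l => (u l : ZMod ℓ)) i j ^ 2 +
        2 * (curveA (fun l => (u l : ZMod ℓ))).a₂ * xA (fun l => (u l : ZMod ℓ)) i j +
        (curveA (fun l => (u l : ZMod ℓ))).a₄) = 0) := by
  have ex := map_xA (Int.castRingHom (ZMod ℓ)) u i j
  have ey := map_yA (Int.castRingHom (ZMod ℓ)) u i j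
  have ec := map_curveA (Int.castRingHom (ZMod ℓ)) u
  simp only [eq_intCast] at ex ey ec
  have e2 : (curveA (fun l => (u l : ZMod ℓ))).a₂ = (((curveA u).a₂ : ℤ) : ZMod ℓ) := by
    rw [← ec]
    rfl
  have e3 : pa3 (fun l => (u l : ZMod ℓ)) = ((pa3 u : ℤ) : ZMod ℓ) := by
    change (curveA (fun l => (u l : ZMod ℓ))).a₃ = _
    rw [← ec]
    rfl
  have e4 : (curveA (fun l => (u l : ZMod ℓ))).a₄ = (((curveA u).a₄ : ℤ) : ZMod ℓ) := by
    rw [← ec]
    rfl
  rw [← ZMod.intCast_zmod_eq_zero_iff_dvd, ← ZMod.intCast_zmod_eq_zero_iff_dvd] at h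
  rw [e2, e3, e4, ← ex, ← ey]
  push_cast at h
  exact h

/-- at an odd prime without bad conditions -/
lemma nsat_of_not_bad {ℓ : ℕ} (hℓ : ℓ.Prime) (h2 : 2 < ℓ) {v : Fin 6 → ℤ}
    (h : ¬ ∃ i j k l m, Dst i j k l m ∧ BadZ ℓ v i j k l m) : NSat ℓ v := by
  have : Fact ℓ.Prime := ⟨hℓ⟩
  intro i j hij hs
  obtain ⟨h3, h4⟩ := nsat_cast hs
  have h5 : (2 : ZMod ℓ) ≠ 0 := by
    intro h0
    have h6 : ((2 : ℕ) : ZMod ℓ) = 0 := by exact_mod_cast h0
    rw [ZMod.natCast_eq_zero_iff] at h6
    exact absurd (Nat.le_of_dvd (by norm_num) h6) (by omega)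
  obtain ⟨i', j', k', l', m', c1, c2, c3, c4, c5, c6, c7, c8, c9, c10, hb⟩ :=
    sing_bad (fun l => (v l : ZMod ℓ)) h5 hij h3 h4
  exact h ⟨i', j', k', l', m', ⟨c1, c2, c3, c4, c5, c6, c7, c8, c9, c10⟩, badZ_of_bad hb⟩

/-- at a prime of good reduction -/
lemma nsat_good {ℓ : ℕ} (hℓ : ℓ.Prime) {v : Fin 6 → ℤ} (hD : ¬ (ℓ : ℤ) ∣ (curveA v).Δ) :
    NSat ℓ v := by
  have : Fact ℓ.Prime := ⟨hℓ⟩
  intro i j hij hs
  obtain ⟨h3, h4⟩ := nsat_cast hs
  have hD' : (red (curveA v) (ZMod ℓ)).Δ ≠ 0 := by
    rw [WeierstrassCurve.map_Δ]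
    intro h
    apply hD
    rw [← ZMod.intCast_zmod_eq_zero_iff_dvd _ ℓ]
    exact h
  have h5 : ∀ i j : Fin 5, i < j → (∃ k, j < k) ∨ (∃ k, k < i) ∨ (∃ k, i < k ∧ k < j) := by
    decide
  have hon : OnCurve (curveA v) (xA v i j) (yA v i j) 1 := by
    rcases h5 i j hij with ⟨k, hk⟩ | ⟨k, hk⟩ | ⟨k, hk1, hk2⟩
    · exact (lin_oncurve (lin_all v hij hk)).1
    · exact (lin_oncurve (lin_all v hk hij)).2.1
    · exact (lin_oncurve (lin_all v hk1 hk2)).2.2
  have n1 := (WeierstrassCurve.Affine.equation_iff_nonsingular_of_Δ_ne_zero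
    (W := (red (curveA v) (ZMod ℓ)).toAffine) hD').1 (eqn_cast (equation_of hon) (ZMod ℓ))
  rw [WeierstrassCurve.Affine.nonsingular_iff'] at n1
  have ec := map_curveA (Int.castRingHom (ZMod ℓ)) v
  have ex := map_xA (Int.castRingHom (ZMod ℓ)) v i j
  have ey := map_yA (Int.castRingHom (ZMod ℓ)) v i j
  simp only [eq_intCast] at ex ey ec
  have er : (red (curveA v) (ZMod ℓ)) = curveA (fun l => (v l : ZMod ℓ)) := ec
  rw [er, ex, ey] at n1
  rcases n1.2 with h | h
  · exact h h4
  · exact h h3

end Pool.Agent.K3h13.RG
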