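import Mathlib

/-!
# The family of elliptic curves with five integral points in general position: formulas

For a commutative ring `R` and `t = (s, u, v, a, b, c)` in `R⁶` we write down a Weierstrass
equation over `R` and points `P i j`, `0 ≤ i < j ≤ 4`, on it such that `P i j`, `P j k` and
`- P i k` lie on a line of slope `lam t i j k` for all `i < j < k`.
-/

set_option autoImplicit false

namespace Pool.Agent.K3h13.RG

variable {R : Type*} [CommRing R]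

/-- the `x`-coordinate of `P 1 2` -/
def pm (t : Fin 6 → R) : R :=
  (t 4 - t 2 + t 1) * (t 0 + t 5 + t 2 - t 1) - (t 3 - t 1) * (t 0 + t 4 + t 1)

/-- the `x`-coordinate of `P 0 2` -/
def pn (t : Fin 6 → R) : R :=
  (t 4 - t 2 + t 1) * (t 0 + t 5 + t 2 - t 1) - (t 3 - t 2) * (t 0 + t 5 + t 2)

/-- the coefficient `a₃` -/
def pa3 (t : Fin 6 → R) : R := t 1 * pm t - (t 2 + t 0) * (pn t - t 1 * (t 2 - t 1))

/-- the curve `y² + s x y + a₃ y = x (x - m) (x - n)` -/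
def curveA (t : Fin 6 → R) : WeierstrassCurve R := ⟨t 0, -(pm t + pn t), pa3 t, pm t * pn t, 0⟩

def x13 (t : Fin 6 → R) : R := pn t - t 1 * (t 2 - t 1)
def x03 (t : Fin 6 → R) : R := pm t + (t 2 - t 1) * (t 2 + t 0)
def x23 (t : Fin 6 → R) : R := t 1 * (t 0 + t 2)
def x34 (t : Fin 6 → R) : R := (t 4 - t 2 + t 1) * (t 0 + t 5 + t 2 - t 1)
def x24 (t : Fin 6 → R) : R := (t 1 + t 4 - t 3) * (t 0 + t 2 + t 5 - t 3)
def x14 (t : Fin 6 → R) : R := pn t - (t 1 + t 4 - t 3) * (t 2 - t 1 + t 5 - t 4)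
def x04 (t : Fin 6 → R) : R := pm t + (t 2 - t 1 + t 5 - t 4) * (t 0 + t 2 + t 5 - t 3)

def y02 (t : Fin 6 → R) : R := -(t 0 * pn t + pa3 t)
def y23 (t : Fin 6 → R) : R := t 1 * (x23 t - pm t)
def y13 (t : Fin 6 → R) : R := (t 2 - t 1) * x13 t
def y03 (t : Fin 6 → R) : R := -((t 2 + t 0) * (x03 t - pn t))
def y34 (t : Fin 6 → R) : R := y23 t + t 3 * (x34 t - x23 t)
def y24 (t : Fin 6 → R) : R := (t 1 + t 4 - t 3) * (x24 t - pm t)
def y14 (t : Fin 6 → R) : R := (t 2 - t 1 + t 5 - t 4) * x14 t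
def y04 (t : Fin 6 → R) : R := -((t 2 - t 1 + t 5 - t 4 + t 0) * x04 t) - pa3 t

/-- the `x`-coordinate of `P i j` (a symmetric function of `i` and `j`) -/
def xA (t : Fin 6 → R) : Fin 5 → Fin 5 → R :=
  ![![0, 0, pn t, x03 t, x04 t],
    ![0, 0, pm t, x13 t, x14 t],
    ![pn t, pm t, 0, x23 t, x24 t],
    ![x03 t, x13 t, x23 t, 0, x34 t],
    ![x04 t, x14 t, x24 t, x34 t, 0]]

/-- the `y`-coordinate of `P i j`, `i < j` -/
def yA (t : Fin 6 → R) : Fin 5 → Fin 5 → R :=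
  ![![0, 0, y02 t, y03 t, y04 t],
    ![0, 0, 0, y13 t, y14 t],
    ![0, 0, 0, y23 t, y24 t],
    ![0, 0, 0, 0, y34 t],
    ![0, 0, 0, 0, 0]]

/-- an antisymmetric function of two indices -/
def tau (t : Fin 6 → R) : Fin 5 → Fin 5 → R :=
  ![![0, 0, 0, 0, 0],
    ![0, 0, t 0, 2 * (t 2 - t 1) + t 0, 2 * (t 2 - t 1 + t 5 - t 4) + t 0],
    ![0, -(t 0), 0, 2 * t 2 + t 0, 2 * (t 2 + t 5 - t 3) + t 0],
    ![0, -(2 * (t 2 - t 1) + t 0), -(2 * t 2 + t 0), 0, 2 * t 5 + t 0],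
    ![0, -(2 * (t 2 - t 1 + t 5 - t 4) + t 0), -(2 * (t 2 + t 5 - t 3) + t 0), -(2 * t 5 + t 0), 0]]

/-- `2 λ + a₁`, where `λ` is the slope of the line through `P i j`, `P j k` and `P k i` -/
def sg (t : Fin 6 → R) (i j k : Fin 5) : R := tau t i j + tau t j k + tau t k i

/-- the slope of the line through `P i j`, `P j k` and `- P i k`, `i < j < k` -/
def lam (t : Fin 6 → R) : Fin 5 → Fin 5 → Fin 5 → R := fun i j k =>
  if i = 0 then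
    (if j = 1 then (if k = 2 then 0 else if k = 3 then t 2 - t 1 else t 2 - t 1 + t 5 - t 4)
      else if j = 2 then (if k = 3 then t 2 else t 2 + t 5 - t 3) else t 5)
  else if i = 1 then
    (if j = 2 then (if k = 3 then t 1 else t 1 + t 4 - t 3) else t 4)
  else t 3

/-- three points `(x₁, y₁)`, `(x₂, y₂)`, `-(x₃, y₃)` on a line of slope `L` -/
def Lin (W : WeierstrassCurve R) (L x₁ y₁ x₂ y₂ x₃ y₃ : R) : Prop :=
  y₂ - y₁ = L * (x₂ - x₁) ∧ -y₃ - W.a₁ * x₃ - W.a₃ - y₁ = L * (x₃ - x₁) ∧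
  x₁ + x₂ + x₃ = L ^ 2 + W.a₁ * L - W.a₂ ∧
  x₁ * x₂ + x₁ * x₃ + x₂ * x₃ =
    W.a₄ - (2 * L * (y₁ - L * x₁) + W.a₁ * (y₁ - L * x₁) + W.a₃ * L) ∧
  x₁ * x₂ * x₃ = (y₁ - L * x₁) ^ 2 + W.a₃ * (y₁ - L * x₁) - W.a₆

lemma cases3 {i j k : Fin 5} (hij : i < j) (hjk : j < k) :
    (i = 0 ∧ j = 1 ∧ k = 2) ∨ (i = 0 ∧ j = 1 ∧ k = 3) ∨ (i = 0 ∧ j = 1 ∧ k = 4) ∨
    (i = 0 ∧ j = 2 ∧ k = 3) ∨ (i = 0 ∧ j = 2 ∧ k = 4) ∨ (i = 0 ∧ j = 3 ∧ k = 4) ∨
    (i = 1 ∧ j = 2 ∧ k = 3) ∨ (i = 1 ∧ j = 2 ∧ k = 4) ∨ (i = 1 ∧ j = 3 ∧ k = 4) ∨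
    (i = 2 ∧ j = 3 ∧ k = 4) := by
  revert i j k
  decide

lemma cases2 {i j : Fin 5} (hij : i < j) :
    (i = 0 ∧ j = 1) ∨ (i = 0 ∧ j = 2) ∨ (i = 0 ∧ j = 3) ∨ (i = 0 ∧ j = 4) ∨
    (i = 1 ∧ j = 2) ∨ (i = 1 ∧ j = 3) ∨ (i = 1 ∧ j = 4) ∨ (i = 2 ∧ j = 3) ∨
    (i = 2 ∧ j = 4) ∨ (i = 3 ∧ j = 4) := by
  revert i j
  decide

section
variable (t : Fin 6 → R)
lemma xA01 : xA t 0 1 = 0 := rfl
lemma xA02 : xA t 0 2 = pn t := rfl
lemma xA03 : xA t 0 3 = x03 t := rfl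
lemma xA04 : xA t 0 4 = x04 t := rfl
lemma xA12 : xA t 1 2 = pm t := rfl
lemma xA13 : xA t 1 3 = x13 t := rfl
lemma xA14 : xA t 1 4 = x14 t := rfl
lemma xA23 : xA t 2 3 = x23 t := rfl
lemma xA24 : xA t 2 4 = x24 t := rfl
lemma xA34 : xA t 3 4 = x34 t := rfl
lemma yA01 : yA t 0 1 = 0 := rfl
lemma yA02 : yA t 0 2 = y02 t := rfl
lemma yA03 : yA t 0 3 = y03 t := rfl
lemma yA04 : yA t 0 4 = y04 t := rfl
lemma yA12 : yA t 1 2 = 0 := rfl
lemma yA13 : yA t 1 3 = y13 t := rfl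
lemma yA14 : yA t 1 4 = y14 t := rfl
lemma yA23 : yA t 2 3 = y23 t := rfl
lemma yA24 : yA t 2 4 = y24 t := rfl
lemma yA34 : yA t 3 4 = y34 t := rfl
lemma tau0 (j : Fin 5) : tau t 0 j = 0 := by fin_cases j <;> rfl
lemma tau0' (j : Fin 5) : tau t j 0 = 0 := by fin_cases j <;> rfl
lemma tau12 : tau t 1 2 = t 0 := rfl
lemma tau13 : tau t 1 3 = 2 * (t 2 - t 1) + t 0 := rfl
lemma tau14 : tau t 1 4 = 2 * (t 2 - t 1 + t 5 - t 4) + t 0 := rfl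
lemma tau23 : tau t 2 3 = 2 * t 2 + t 0 := rfl
lemma tau24 : tau t 2 4 = 2 * (t 2 + t 5 - t 3) + t 0 := rfl
lemma tau34 : tau t 3 4 = 2 * t 5 + t 0 := rfl
lemma tau21 : tau t 2 1 = -(t 0) := rfl
lemma tau31 : tau t 3 1 = -(2 * (t 2 - t 1) + t 0) := rfl
lemma tau41 : tau t 4 1 = -(2 * (t 2 - t 1 + t 5 - t 4) + t 0) := rfl
lemma tau32 : tau t 3 2 = -(2 * t 2 + t 0) := rfl
lemma tau42 : tau t 4 2 = -(2 * (t 2 + t 5 - t 3) + t 0) := rfl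
lemma tau43 : tau t 4 3 = -(2 * t 5 + t 0) := rfl

lemma xA_symm (i j : Fin 5) : xA t i j = xA t j i := by
  fin_cases i <;> fin_cases j <;> rfl

lemma tau_anti (i j : Fin 5) : tau t i j = -tau t j i := by
  fin_cases i <;> fin_cases j <;> simp [tau]

lemma sg_cyc (i j k : Fin 5) : sg t j k i = sg t i j k := by
  unfold sg; ring

lemma sg_swap (i j k : Fin 5) : sg t j i k = -sg t i j k := by
  unfold sg
  rw [tau_anti t j i, tau_anti t i k, tau_anti t k j]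
  ring

lemma sg_coc (i j k l : Fin 5) : sg t j k l - sg t i k l + sg t i j l - sg t i j k = 0 := by
  unfold sg
  linear_combination tau_anti t l j - tau_anti t k i
end

lemma lin_all (t : Fin 6 → R) {i j k : Fin 5} (hij : i < j) (hjk : j < k) :
    Lin (curveA t) (lam t i j k) (xA t i j) (yA t i j) (xA t j k) (yA t j k)
      (xA t i k) (yA t i k) := by
  rcases cases3 hij hjk with ⟨rfl, rfl, rfl⟩ | ⟨rfl, rfl, rfl⟩ | ⟨rfl, rfl, rfl⟩ |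
    ⟨rfl, rfl, rfl⟩ | ⟨rfl, rfl, rfl⟩ | ⟨rfl, rfl, rfl⟩ | ⟨rfl, rfl, rfl⟩ | ⟨rfl, rfl, rfl⟩ |
    ⟨rfl, rfl, rfl⟩ | ⟨rfl, rfl, rfl⟩ <;>
  · refine ⟨?_, ?_, ?_, ?_, ?_⟩ <;>
    · simp only [lam, xA01, xA02, xA03, xA04, xA12, xA13, xA14, xA23, xA24, xA34, yA01, yA02, yA03,
        yA04, yA12, yA13, yA14, yA23, yA24, yA34, Fin.reduceEq, if_true, if_false, curveA]
      simp only [y02, y03, y04, y13, y14, y23, y24, y34, x03, x04, x13, x14, x23, x24, x34, pa3,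
        pm, pn]
      ring

/-- twice the slope plus `a₁` -/
lemma sg_lam (t : Fin 6 → R) {i j k : Fin 5} (hij : i < j) (hjk : j < k) :
    sg t i j k = 2 * lam t i j k + t 0 := by
  rcases cases3 hij hjk with ⟨rfl, rfl, rfl⟩ | ⟨rfl, rfl, rfl⟩ | ⟨rfl, rfl, rfl⟩ |
    ⟨rfl, rfl, rfl⟩ | ⟨rfl, rfl, rfl⟩ | ⟨rfl, rfl, rfl⟩ | ⟨rfl, rfl, rfl⟩ | ⟨rfl, rfl, rfl⟩ |
    ⟨rfl, rfl, rfl⟩ | ⟨rfl, rfl, rfl⟩ <;>
  · simp only [sg, lam, tau0, tau0', tau12, tau13, tau14, tau23, tau24, tau34, tau21, tau31, tau41,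
      tau32, tau42, tau43, Fin.reduceEq, if_true, if_false]
    ring

section map
variable {S : Type*} [CommRing S] (f : R →+* S) (t : Fin 6 → R)

lemma map_xA (i j : Fin 5) : f (xA t i j) = xA (fun l => f (t l)) i j := by
  fin_cases i <;> fin_cases j <;>
    simp [xA, x03, x04, x13, x14, x23, x24, x34, pm, pn]

lemma map_yA (i j : Fin 5) : f (yA t i j) = yA (fun l => f (t l)) i j := by
  fin_cases i <;> fin_cases j <;>
    simp [yA, y02, y03, y04, y13, y14, y23, y24, y34, x03, x04, x13, x14, x23, x24, x34, pa3,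
      pm, pn]

lemma map_curveA : (curveA t).map f = curveA (fun l => f (t l)) := by
  ext <;> simp [curveA, pa3, pm, pn]

lemma map_tau (i j : Fin 5) : f (tau t i j) = tau (fun l => f (t l)) i j := by
  have h2 : f 2 = 2 := map_ofNat f 2
  fin_cases i <;> fin_cases j <;> simp [tau, h2]

lemma map_sg (i j k : Fin 5) : f (sg t i j k) = sg (fun l => f (t l)) i j k := by
  simp only [sg, map_add, map_tau]

end map

end Pool.Agent.K3h13.RG
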