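import Pool.Agent.Y732.LineFam
import Pool.Agent.K3h13.RG.Poly

/-!
# Three points of a cubic on a line
-/

set_option autoImplicit false

namespace Pool.Agent.K3h13.RG

open Pool.Agent.Y732 WeierstrassCurve

lemma lin_oncurve {W : WeierstrassCurve ℤ} {L x₁ y₁ x₂ y₂ x₃ y₃ : ℤ}
    (h : Lin W L x₁ y₁ x₂ y₂ x₃ y₃) :
    OnCurve W x₁ y₁ 1 ∧ OnCurve W x₂ y₂ 1 ∧ OnCurve W x₃ y₃ 1 := by
  obtain ⟨h1, h2, h3, h4, h5⟩ := h
  obtain rfl : y₂ = y₁ + L * (x₂ - x₁) := by linear_combination h1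
  obtain rfl : y₃ = -(W.a₁ * x₃) - W.a₃ - y₁ - L * (x₃ - x₁) := by linear_combination -h2
  refine ⟨?_, ?_, ?_⟩
  · unfold OnCurve
    linear_combination (-x₁ ^ 2) * h3 + x₁ * h4 - h5
  · unfold OnCurve
    linear_combination (-x₂ ^ 2) * h3 + x₂ * h4 - h5
  · unfold OnCurve
    linear_combination (-x₃ ^ 2) * h3 + x₃ * h4 - h5

lemma equation_of {W : WeierstrassCurve ℤ} {x y : ℤ} (h : OnCurve W x y 1) :
    W.toAffine.Equation x y := by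
  rw [Affine.equation_iff]
  unfold OnCurve at h
  linear_combination h

/-- the three points lie on a line -/
lemma lin_add {W : WeierstrassCurve ℤ} {L x₁ y₁ x₂ y₂ x₃ y₃ : ℤ}
    (h : Lin W L x₁ y₁ x₂ y₂ x₃ y₃) (hD : W.Δ ≠ 0) :
    pt W x₁ y₁ 1 + pt W x₂ y₂ 1 = pt W x₃ y₃ 1 := by
  have e1 : (WQ W).a₁ = (W.a₁ : ℚ) := rfl
  have e2 : (WQ W).a₂ = (W.a₂ : ℚ) := rfl
  have e3 : (WQ W).a₃ = (W.a₃ : ℚ) := rfl
  have e4 : (WQ W).a₄ = (W.a₄ : ℚ) := rfl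
  obtain ⟨o1, o2, o3⟩ := lin_oncurve h
  have n1 := nonsingular_WQ (equation_of o1) hD
  have n2 := nonsingular_WQ (equation_of o2) hD
  have n3 := nonsingular_WQ (equation_of o3) hD
  obtain ⟨h1, h2, h3, h4, h5⟩ := h
  rw [pt_one n1, pt_one n2, pt_one n3]
  have g1 : (y₂ : ℚ) - y₁ = L * (x₂ - x₁) := by exact_mod_cast h1
  have g2 : -(y₃ : ℚ) - W.a₁ * x₃ - W.a₃ - y₁ = L * (x₃ - x₁) := by exact_mod_cast h2
  have g3 : (x₁ : ℚ) + x₂ + x₃ = L ^ 2 + W.a₁ * L - W.a₂ := by exact_mod_cast h3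
  have g4 : (x₁ : ℚ) * x₂ + x₁ * x₃ + x₂ * x₃ =
    W.a₄ - (2 * L * (y₁ - L * x₁) + W.a₁ * (y₁ - L * x₁) + W.a₃ * L) := by exact_mod_cast h4
  have hns : (x₁ : ℚ) = x₂ → 2 * (y₁ : ℚ) + W.a₁ * x₁ + W.a₃ ≠ 0 := by
    intro hx hη
    rw [← hx] at g3 g4
    have hn := ((WQ W).nonsingular_iff' _ _).1 n1
    rw [e1, e2, e3, e4] at hn
    rcases hn.2 with h | h
    · apply h
      linear_combination (-(L : ℚ)) * hη - 2 * (x₁ : ℚ) * g3 + g4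
    · exact h hη
  have hxy : ¬ ((x₁ : ℚ) = x₂ ∧ (y₁ : ℚ) = (WQ W).negY (x₂ : ℚ) (y₂ : ℚ)) := by
    rintro ⟨k1, k2⟩
    apply hns k1
    rw [Affine.negY, e1, e3, ← k1] at k2
    rw [← k1] at g1
    linear_combination k2 - g1
  have hs : (WQ W).slope (x₁ : ℚ) (x₂ : ℚ) (y₁ : ℚ) (y₂ : ℚ) = L := by
    by_cases hx : (x₁ : ℚ) = x₂
    · rw [Affine.slope_of_Y_ne hx (fun h => hxy ⟨hx, h⟩), Affine.negY, e1, e2, e3, e4]
      have hη := hns hx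
      have hη' : (y₁ : ℚ) - (-y₁ - W.a₁ * x₁ - W.a₃) ≠ 0 := by
        intro h0
        apply hη
        linear_combination h0
      rw [div_eq_iff hη']
      rw [← hx] at g3 g4
      linear_combination 2 * (x₁ : ℚ) * g3 - g4
    · rw [Affine.slope_of_X_ne hx, div_eq_iff (sub_ne_zero.2 hx)]
      linear_combination -g1
  rw [Affine.Point.add_some hxy, Affine.Point.some.injEq]
  have hX : (WQ W).addX (x₁ : ℚ) (x₂ : ℚ) ((WQ W).slope (x₁ : ℚ) (x₂ : ℚ) (y₁ : ℚ) (y₂ : ℚ)) =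
      x₃ := by
    rw [hs, Affine.addX, e1, e2]
    linear_combination -g3
  refine ⟨hX, ?_⟩
  rw [Affine.addY, hX, Affine.negAddY, hX, hs, Affine.negY, e1, e3]
  linear_combination g2

end Pool.Agent.K3h13.RG
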