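import Pool.Agent.K3h13.RG.TypR

/-!
# The types of general parameters
-/

set_option autoImplicit false

namespace Pool.Agent.K3h13.RG

open Pool.Agent.Y732 Pool.Agent.K3h2.AP WeierstrassCurve

/-- the types of a general parameter -/
theorem typS_of {L k : ℕ} {v : Fin 6 → ℤ} (hD : (sW v).Δ ≠ 0)
    (hm : ∀ i j : Fin 5, i < j → T (sW v) (sX v i j) (sY v i j) 1 (mul L k) 2 ≠ 0)
    (hL : ∀ ℓ : ℕ, ℓ.Prime → ℓ ≤ L → ¬ (ℓ : ℤ) ^ k ∣ 4 * (4 * sA v ^ 3 + 27 * sB v ^ 2))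
    (hG : ∀ ℓ : ℕ, ℓ.Prime → L < ℓ → ∀ i j : Fin 5, i < j →
      ¬ ((ℓ : ℤ) ∣ 2 * sY v i j ∧ (ℓ : ℤ) ∣ 3 * sX v i j ^ 2 + sA v)) :
    ∃ d : Fin 5 → Fin 5 → ℕ, TypS (mul L k) d v ∧ ∀ i j, 0 < d i j ∧
      (i < j → (d i j : ℤ) ∣ T (sW v) (sX v i j) (sY v i j) 1 (mul L k) 2) ∧
      (¬ i < j → d i j = 1) ∧
      ∀ ℓ : ℕ, ℓ.Prime → ℓ ∣ d i j → ℓ ≤ L := by
  have key : ∀ i j : Fin 5, ∃ d : ℕ, 0 < d ∧ (i < j → Typ1 (sW v) (sX v i j) (sY v i j) (mul L k) d) ∧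
      (i < j → (d : ℤ) ∣ T (sW v) (sX v i j) (sY v i j) 1 (mul L k) 2) ∧
      (¬ i < j → d = 1) ∧
      ∀ ℓ : ℕ, ℓ.Prime → ℓ ∣ d → ℓ ≤ L := by
    intro i j
    by_cases hij : i < j
    · have hon := on_short v hij
      obtain ⟨hP, hPe⟩ := pt_eq hon hD
      obtain ⟨d, a, b, e, hd, he, hc, heq, hN, h0, h1, h2, hpr⟩ := typ_core (A := sA v)
        (B := sB v) (x := sX v i j) (y := sY v i j) hon hP (m := mul L k) (hm i j hij) (by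
          intro ℓ hℓ
          have : Fact ℓ.Prime := ⟨hℓ⟩
          by_cases hl : ℓ ≤ L
          · obtain ⟨n, hn1, hn2, hn3⟩ := finite_index (ℓ := ℓ) (k := k) (hL ℓ hℓ hl)
              (Affine.Point.some _ _ hP)
            refine ⟨n, ?_, hn3⟩
            refine Nat.dvd_factorial hn1 (hn2.trans ?_)
            gcongr
          · refine ⟨1, one_dvd _, ?_⟩
            rw [one_nsmul]
            exact not_Sg_int hP (hG ℓ hℓ (not_le.1 hl) i j hij))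
      refine ⟨d, hd, fun _ => ⟨hD, hon, a, b, e, he, hc, heq, hN, h0, h1, h2⟩,
        fun _ => ⟨e, h2⟩, fun h => absurd hij h, ?_⟩
      intro ℓ hℓ hld
      by_contra hcon
      exact hG ℓ hℓ (not_le.1 hcon) i j hij (hpr ℓ hℓ hld)
    · refine ⟨1, one_pos, fun h => absurd h hij, fun h => absurd h hij, fun _ => rfl, ?_⟩
      intro ℓ hℓ hd
      exact absurd (Nat.dvd_one.1 hd) hℓ.one_lt.ne'
  choose d hd0 hd1 hd2 hd3 hd4 using key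
  exact ⟨d, ⟨hD, fun i j hij => hd1 i j hij⟩, fun i j => ⟨hd0 i j, hd2 i j, hd3 i j, hd4 i j⟩⟩

end Pool.Agent.K3h13.RG
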