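import Pool.Agent.K3h13.RG.Bad6
import Pool.Agent.K3h13.RG.TypOf

/-!
# The polynomials which vanish at the degenerate parameters
-/

set_option autoImplicit false

namespace Pool.Agent.K3h13.RG

open Finset Pool.Agent.Y732 Pool.Agent.K3h2.AP WeierstrassCurve

/-- the denominators of the multiples of the generic points -/
noncomputable def TP6 (i j : Fin 5) (m : ℕ) : MvPolynomial (Fin 6) ℤ :=
  T (sW gX) (sX gX i j) (sY gX i j) 1 m 2

lemma TP6_eval (i j : Fin 5) (m : ℕ) (v : Fin 6 → ℤ) :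
    MvPolynomial.eval v (TP6 i j m) = T (sW v) (sX v i j) (sY v i j) 1 m 2 := by
  have h := T_map (MvPolynomial.eval v) (sW gX) (sX gX i j) (sY gX i j) 1 m 2
  rw [map_sW, map_sX, map_sY, map_one, eval_gX] at h
  exact h.symm

/-- a member which is a cuspidal cubic curve -/
def vc : Fin 6 → ℤ := ![36, 0, -4, 0, -4, -5]

lemma vc_spec : sA vc = 0 ∧ sB vc = 0 ∧ ∀ i j : Fin 5, i < j →
    ∃ c : ℤ, c ≠ 0 ∧ sX vc i j = c ^ 2 ∧ sY vc i j = c ^ 3 := by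
  refine ⟨by decide, by decide, fun i j hij => ?_⟩
  have key : ∀ i j : Fin 5, i < j → sX vc i j = (72 / ((j : ℤ) - (i : ℤ))) ^ 2 ∧
      sY vc i j = (72 / ((j : ℤ) - (i : ℤ))) ^ 3 ∧ 72 / ((j : ℤ) - (i : ℤ)) ≠ 0 := by
    decide
  obtain ⟨h1, h2, h3⟩ := key i j hij
  exact ⟨_, h3, h1, h2⟩

lemma TP6_ne {i j : Fin 5} (hij : i < j) {m : ℕ} (hm : 1 ≤ m) : TP6 i j m ≠ 0 := by
  intro h0
  have h := TP6_eval i j m vc
  rw [h0, map_zero] at h
  obtain ⟨hA, hB, hc⟩ := vc_spec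
  obtain ⟨c, hc0, hx, hy⟩ := hc i j hij
  have hc0' : (c : ℚ) ≠ 0 := by exact_mod_cast hc0
  have e1 : red (sW vc) ℚ = Wc 0 0 := by
    unfold sW red
    rw [Wc_map, hA, hB]
    simp
  have h2 := T_cast ℚ (sW vc) (sX vc i j) (sY vc i j) 1 m 2
  rw [← h, e1, hx, hy, T_two'] at h2
  have e2 : twist ((1 : ℤ) : ℚ) (Wc (0 : ℚ) 0) = Wc (0 : ℚ) 0 := by
    ext <;> simp [twist, Wc]
  rw [e2] at h2
  have h3 := (J_scale (0 : ℚ) 0 1 1 (c : ℚ) hc0'.isUnit m).2.2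
  rw [mul_zero, mul_zero, mul_one, mul_one, J_cusp] at h3
  push_cast at h2
  rw [one_mul] at h2
  change J (Wc (0 : ℚ) 0).toJacobian ![(c : ℚ) ^ 2, (c : ℚ) ^ 3, 1] m 2 = 0 at h2
  rw [h2, mul_zero] at h3
  have h4 : (c : ℚ) ^ (m ^ 2) * (m : ℚ) ≠ 0 := by
    apply mul_ne_zero (pow_ne_zero _ hc0')
    exact_mod_cast (by omega : m ≠ 0)
  exact h4 h3.symm

lemma dP_eval (v : Fin 6 → ℤ) : MvPolynomial.eval v (curveA gX).Δ = (curveA v).Δ := by
  have h := map_curveA (MvPolynomial.eval v) gX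
  rw [eval_gX] at h
  rw [← h, WeierstrassCurve.map_Δ]

lemma dP_ne : (curveA gX).Δ ≠ 0 := by
  intro h0
  have h := dP_eval v₁
  rw [h0, map_zero, disc_v₁] at h
  norm_num at h

lemma sW_disc (v : Fin 6 → ℤ) : (sW v).Δ = 2176782336 * (curveA v).Δ := by
  have h := disc_short v
  have e : (sW v).Δ = -(4 * (4 * (4 * sA v ^ 3 + 27 * sB v ^ 2))) := by
    simp only [sW, Wc, WeierstrassCurve.Δ, WeierstrassCurve.b₂, WeierstrassCurve.b₄,
      WeierstrassCurve.b₆, WeierstrassCurve.b₈]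
    ring
  rw [e, h]
  ring

end Pool.Agent.K3h13.RG
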