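import Pool.Agent.K3h13.RG.Pull
import Pool.Agent.K3h2.AP.Cub

/-!
# The discriminant is rarely divisible by a high power of a small prime
-/

set_option autoImplicit false

namespace Pool.Agent.K3h13.RG

open Polynomial Pool.Agent.Y732

/-- degree at most `n`, with the coefficient `a` of `X ^ n` -/
def Deg (n : ℕ) (a : ℤ) (p : ℤ[X]) : Prop := p.natDegree ≤ n ∧ p.coeff n = a

namespace Deg

variable {n m : ℕ} {a b : ℤ} {p q : ℤ[X]}

lemma add (hp : Deg n a p) (hq : Deg n b q) : Deg n (a + b) (p + q) :=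
  ⟨(natDegree_add_le _ _).trans (max_le hp.1 hq.1), by rw [coeff_add, hp.2, hq.2]⟩

lemma sub (hp : Deg n a p) (hq : Deg n b q) : Deg n (a - b) (p - q) :=
  ⟨(natDegree_sub_le _ _).trans (max_le hp.1 hq.1), by rw [coeff_sub, hp.2, hq.2]⟩

lemma neg (hp : Deg n a p) : Deg n (-a) (-p) :=
  ⟨by rw [natDegree_neg]; exact hp.1, by rw [coeff_neg, hp.2]⟩

lemma mul (hp : Deg n a p) (hq : Deg m b q) : Deg (n + m) (a * b) (p * q) :=
  ⟨natDegree_mul_le.trans (add_le_add hp.1 hq.1), by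
    rw [coeff_mul_add_eq_of_natDegree_le hp.1 hq.1, hp.2, hq.2]⟩

lemma pow (hp : Deg n a p) (k : ℕ) : Deg (k * n) (a ^ k) (p ^ k) := by
  induction k with
  | zero =>
    refine ⟨?_, ?_⟩
    · rw [pow_zero, natDegree_one]
      exact Nat.zero_le _
    · rw [pow_zero, pow_zero, zero_mul, coeff_one_zero]
  | succ k ih =>
    have h := ih.mul hp
    have e : k * n + n = (k + 1) * n := by ring
    rwa [← pow_succ, ← pow_succ, e] at h

lemma num (k : ℕ) [k.AtLeastTwo] : Deg 0 (OfNat.ofNat k) (OfNat.ofNat k : ℤ[X]) := by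
  have h1 : (OfNat.ofNat k : ℤ[X]) = C (OfNat.ofNat k : ℤ) := (map_ofNat C k).symm
  rw [h1]
  exact ⟨(natDegree_C _).le, coeff_C_zero⟩

lemma smul (k : ℕ) [k.AtLeastTwo] (hp : Deg n a p) :
    Deg n ((OfNat.ofNat k : ℤ) * a) ((OfNat.ofNat k : ℤ[X]) * p) := by
  have h := (num k).mul hp
  rwa [zero_add] at h

lemma zero : Deg n 0 (0 : ℤ[X]) := ⟨by simp, by simp⟩

end Deg

/-- the line through `u` in the direction `w` -/
noncomputable def ln (u w : Fin 6 → ℤ) : Fin 6 → ℤ[X] := fun l => C (u l) + C (w l) * X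

lemma ln_deg (u w : Fin 6 → ℤ) (l : Fin 6) : Deg 1 (w l) (ln u w l) := by
  refine ⟨?_, ?_⟩
  · unfold ln
    compute_degree
  · unfold ln
    rw [coeff_add, coeff_C_mul, coeff_X_one, mul_one, coeff_C, if_neg one_ne_zero, zero_add]

lemma deg_pm (u w : Fin 6 → ℤ) : Deg 2 (pm w) (pm (ln u w)) := by
  have h := ln_deg u w
  unfold pm
  exact Deg.sub (Deg.mul (((h 4).sub (h 2)).add (h 1)) ((((h 0).add (h 5)).add (h 2)).sub (h 1)))
    (Deg.mul ((h 3).sub (h 1)) (((h 0).add (h 4)).add (h 1)))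

lemma deg_pn (u w : Fin 6 → ℤ) : Deg 2 (pn w) (pn (ln u w)) := by
  have h := ln_deg u w
  unfold pn
  exact Deg.sub (Deg.mul (((h 4).sub (h 2)).add (h 1)) ((((h 0).add (h 5)).add (h 2)).sub (h 1)))
    (Deg.mul ((h 3).sub (h 2)) (((h 0).add (h 5)).add (h 2)))

lemma deg_pa3 (u w : Fin 6 → ℤ) : Deg 3 (pa3 w) (pa3 (ln u w)) := by
  have h := ln_deg u w
  unfold pa3
  exact Deg.sub (Deg.mul (h 1) (deg_pm u w)) (Deg.mul ((h 2).add (h 0))
    (Deg.sub (deg_pn u w) (Deg.mul (h 1) ((h 2).sub (h 1)))))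

lemma deg_disc (u w : Fin 6 → ℤ) : Deg 12 (curveA w).Δ (curveA (ln u w)).Δ := by
  have h1 : Deg 1 (curveA w).a₁ (curveA (ln u w)).a₁ := ln_deg u w 0
  have h2 : Deg 2 (curveA w).a₂ (curveA (ln u w)).a₂ := ((deg_pm u w).add (deg_pn u w)).neg
  have h3 : Deg 3 (curveA w).a₃ (curveA (ln u w)).a₃ := deg_pa3 u w
  have h4 : Deg 4 (curveA w).a₄ (curveA (ln u w)).a₄ := (deg_pm u w).mul (deg_pn u w)
  have h6 : Deg 6 (curveA w).a₆ (curveA (ln u w)).a₆ := Deg.zero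
  have b2 : Deg 2 (curveA w).b₂ (curveA (ln u w)).b₂ := (h1.pow 2).add (h2.smul 4)
  have b4 : Deg 4 (curveA w).b₄ (curveA (ln u w)).b₄ := (h4.smul 2).add (h1.mul h3)
  have b6 : Deg 6 (curveA w).b₆ (curveA (ln u w)).b₆ := (h3.pow 2).add (h6.smul 4)
  have b8 : Deg 8 (curveA w).b₈ (curveA (ln u w)).b₈ :=
    Deg.sub (Deg.add (Deg.sub (Deg.add ((h1.pow 2).mul h6) ((h2.smul 4).mul h6))
      ((h1.mul h3).mul h4)) (h2.mul (h3.pow 2))) (h4.pow 2)
  exact Deg.add (Deg.sub (Deg.sub (((b2.pow 2).neg).mul b8) ((b4.pow 3).smul 8))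
    ((b6.pow 2).smul 27)) (((b2.smul 9).mul b4).mul b6)

lemma eval_disc (u w : Fin 6 → ℤ) (z : ℤ) :
    (curveA (ln u w)).Δ.eval z = (curveA fun l => u l + w l * z).Δ := by
  have h := map_curveA (evalRingHom z) (ln u w)
  have h2 : (fun l => evalRingHom z (ln u w l)) = fun l => u l + w l * z := by
    funext l
    simp [ln]
  rw [h2] at h
  rw [← h, WeierstrassCurve.map_Δ]
  rfl

/-- Few residue classes of zeros modulo a high power of a prime. -/
lemma poly_classes {ℓ : ℕ} [hℓ : Fact ℓ.Prime] {n c s : ℕ} {a : ℤ} {G : ℤ[X]} (hG : Deg n a G)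
    (ha : ¬ (ℓ : ℤ) ^ (c + 1) ∣ a) (Z : Finset ℤ)
    (hZ : ∀ z ∈ Z, (ℓ : ℤ) ^ (n * s + c + 1) ∣ G.eval z) :
    (Z.image fun z : ℤ => (z : ZMod (ℓ ^ (s + 1)))).card ≤ n := by
  by_contra hcon
  push Not at hcon
  have hℓ0 : (0 : ℝ) < ℓ := by exact_mod_cast hℓ.out.pos
  have hℓ1 : (1 : ℝ) < ℓ := by exact_mod_cast hℓ.out.one_lt
  have hc : Fintype.card (Fin (n + 1)) ≤
      Fintype.card (Z.image fun z : ℤ => (z : ZMod (ℓ ^ (s + 1)))) := by
    rw [Fintype.card_fin, Fintype.card_coe]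
    omega
  obtain ⟨f⟩ := Function.Embedding.nonempty_of_card_le hc
  have h1 : ∀ i, ∃ t ∈ Z, (t : ZMod (ℓ ^ (s + 1))) = f i := fun i => by
    obtain ⟨t, ht, he⟩ := Finset.mem_image.1 (f i).2
    exact ⟨t, ht, he⟩
  choose t ht he using h1
  have hne : ∀ i j, i ≠ j → ¬ (ℓ : ℤ) ^ (s + 1) ∣ t i - t j := by
    intro i j hij hd
    apply hij
    apply f.injective
    apply Subtype.ext
    rw [← he, ← he]
    rw [← sub_eq_zero, ← Int.cast_sub, ZMod.intCast_zmod_eq_zero_iff_dvd]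
    exact_mod_cast hd
  -- Lagrange interpolation over `ℚ_ℓ`
  set F : ℚ_[ℓ][X] := G.map (Int.castRingHom ℚ_[ℓ]) with hF
  have hsep : ∀ i j, i ≠ j → ((ℓ : ℝ)⁻¹) ^ s ≤ ‖((t i : ℤ) : ℚ_[ℓ]) - ((t j : ℤ) : ℚ_[ℓ])‖ := by
    intro i j hij
    have := int_norm_ge (hne i j hij)
    push_cast at this
    exact this
  have hinj : Set.InjOn (fun i => ((t i : ℤ) : ℚ_[ℓ]))
      ((Finset.univ : Finset (Fin (n + 1))) : Set _) := by
    intro i _ j _ hij
    by_contra hne'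
    have h5 := hsep i j hne'
    simp only at hij
    rw [hij, sub_self, norm_zero] at h5
    have h7 : 0 < ((ℓ : ℝ)⁻¹) ^ s := by positivity
    linarith
  have hdeg : F.degree < (Finset.univ : Finset (Fin (n + 1))).card := by
    rw [Finset.card_univ, Fintype.card_fin]
    refine lt_of_le_of_lt degree_le_natDegree ?_
    have h5 : F.natDegree ≤ n := natDegree_map_le.trans hG.1
    exact_mod_cast Nat.lt_succ_of_le h5
  have key := Lagrange.coeff_eq_sum hinj hdeg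
  have hcoef : F.coeff ((Finset.univ : Finset (Fin (n + 1))).card - 1) = (a : ℚ_[ℓ]) := by
    rw [Finset.card_univ, Fintype.card_fin, Nat.add_sub_cancel, hF, coeff_map, hG.2]
    rfl
  rw [hcoef] at key
  have hev : ∀ i, ‖F.eval ((t i : ℤ) : ℚ_[ℓ])‖ ≤ ((ℓ : ℝ)⁻¹) ^ (n * s + c + 1) := by
    intro i
    have h5 : F.eval ((t i : ℤ) : ℚ_[ℓ]) = ((G.eval (t i) : ℤ) : ℚ_[ℓ]) := by
      rw [hF, eval_intCast_map]
      rfl
    rw [h5]
    exact Pool.Agent.K3h2.AP.norm_dvd.2 (hZ _ (ht i))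
  have hbound : ‖(a : ℚ_[ℓ])‖ ≤ ((ℓ : ℝ)⁻¹) ^ (c + 1) := by
    rw [key]
    apply sum_le (by positivity)
    intro i _
    rw [norm_div, norm_prod]
    have h5 : ((ℓ : ℝ)⁻¹ ^ s) ^ n ≤
        ∏ j ∈ Finset.univ.erase i, ‖((t i : ℤ) : ℚ_[ℓ]) - ((t j : ℤ) : ℚ_[ℓ])‖ := by
      calc ((ℓ : ℝ)⁻¹ ^ s) ^ n = ∏ _j ∈ (Finset.univ : Finset (Fin (n + 1))).erase i,
            (ℓ : ℝ)⁻¹ ^ s := by
            rw [Finset.prod_const, Finset.card_erase_of_mem (Finset.mem_univ i), Finset.card_univ,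
              Fintype.card_fin, Nat.add_sub_cancel]
        _ ≤ _ := by
            apply Finset.prod_le_prod
            · intro j _
              positivity
            · intro j hj
              exact hsep i j (Finset.ne_of_mem_erase hj).symm
    calc _ ≤ ((ℓ : ℝ)⁻¹) ^ (n * s + c + 1) / ((ℓ : ℝ)⁻¹ ^ s) ^ n :=
          div_le_div₀ (by positivity) (hev i) (by positivity) h5
      _ = _ := by
          rw [← pow_mul, mul_comm s n, div_eq_iff (by positivity), ← pow_add]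
          congr 1
          ring
  have h6 := (int_norm_ge ha).trans hbound
  have h7 : ((ℓ : ℝ)⁻¹) ^ (c + 1) < ((ℓ : ℝ)⁻¹) ^ c :=
    pow_lt_pow_right_of_lt_one₀ (by positivity) (inv_lt_one_of_one_lt₀ hℓ1) (Nat.lt_succ_self c)
  linarith

end Pool.Agent.K3h13.RG
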