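import Pool.Agent.K3h13.RG.Fam4
import Pool.Agent.K3h2.AP.Low

/-!
# The short Weierstrass equations of the members of the family
-/

set_option autoImplicit false

namespace Pool.Agent.K3h13.RG

open MvPolynomial Pool.Agent.Y732

section ring

variable {R : Type*} [CommRing R]

/-- the coefficient `A` of the short equation -/
def sA (t : Fin 6 → R) : R := -27 * (curveA t).c₄

/-- the coefficient `B` of the short equation -/
def sB (t : Fin 6 → R) : R := -54 * (curveA t).c₆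

/-- the `x`-coordinate of `P i j` on the short equation -/
def sX (t : Fin 6 → R) (i j : Fin 5) : R := 36 * xA t i j + 3 * (curveA t).b₂

/-- the `y`-coordinate of `P i j`, `i < j`, on the short equation -/
def sY (t : Fin 6 → R) (i j : Fin 5) : R := 108 * (2 * yA t i j + t 0 * xA t i j + pa3 t)

/-- the short equation `y² = x³ + A x + B` -/
def sW (t : Fin 6 → R) : WeierstrassCurve R := Wc (sA t) (sB t)

lemma lin_to_short {W : WeierstrassCurve R} {L x₁ y₁ x₂ y₂ x₃ y₃ : R}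
    (h : Lin W L x₁ y₁ x₂ y₂ x₃ y₃) :
    Lin (Wc (-27 * W.c₄) (-54 * W.c₆)) (6 * L + 3 * W.a₁)
      (36 * x₁ + 3 * W.b₂) (108 * (2 * y₁ + W.a₁ * x₁ + W.a₃))
      (36 * x₂ + 3 * W.b₂) (108 * (2 * y₂ + W.a₁ * x₂ + W.a₃))
      (36 * x₃ + 3 * W.b₂) (108 * (2 * y₃ + W.a₁ * x₃ + W.a₃)) := by
  obtain ⟨a₁, a₂, a₃, a₄, a₆⟩ := W
  obtain ⟨h1, h2, h3, h4, h5⟩ := h
  simp only at h2 h3 h4 h5
  obtain rfl : a₂ = L ^ 2 + a₁ * L - (x₁ + x₂ + x₃) := by linear_combination h3
  obtain rfl : a₄ = x₁ * x₂ + x₁ * x₃ + x₂ * x₃ + (2 * L * (y₁ - L * x₁) + a₁ * (y₁ - L * x₁) +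
    a₃ * L) := by linear_combination -h4
  obtain rfl : a₆ = (y₁ - L * x₁) ^ 2 + a₃ * (y₁ - L * x₁) - x₁ * x₂ * x₃ := by
    linear_combination h5
  refine ⟨?_, ?_, ?_, ?_, ?_⟩
  · simp only [WeierstrassCurve.b₂]
    linear_combination 216 * h1
  · simp only [WeierstrassCurve.b₂, Wc]
    linear_combination 216 * h2
  · simp only [WeierstrassCurve.b₂, Wc]
    ring
  · simp only [WeierstrassCurve.b₂, WeierstrassCurve.b₄, WeierstrassCurve.c₄, Wc]
    ring
  · simp only [WeierstrassCurve.b₂, WeierstrassCurve.b₄, WeierstrassCurve.b₆,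
      WeierstrassCurve.c₆, Wc]
    ring

lemma lin_short (t : Fin 6 → R) {i j k : Fin 5} (hij : i < j) (hjk : j < k) :
    Lin (sW t) (6 * lam t i j k + 3 * t 0) (sX t i j) (sY t i j) (sX t j k) (sY t j k)
      (sX t i k) (sY t i k) :=
  lin_to_short (lin_all t hij hjk)

section map
variable {S : Type*} [CommRing S] (f : R →+* S) (t : Fin 6 → R)

lemma map_b2 : f (curveA t).b₂ = (curveA fun l => f (t l)).b₂ := by
  rw [← map_curveA, WeierstrassCurve.map_b₂]

lemma map_sX (i j : Fin 5) : f (sX t i j) = sX (fun l => f (t l)) i j := by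
  have h36 : f 36 = 36 := map_ofNat f 36
  have h3 : f 3 = 3 := map_ofNat f 3
  unfold sX
  rw [map_add, map_mul, map_mul, map_xA, map_b2, h36, h3]

lemma map_pa3 : f (pa3 t) = pa3 (fun l => f (t l)) := by
  have h := congrArg WeierstrassCurve.a₃ (map_curveA f t)
  exact h

lemma map_sY (i j : Fin 5) : f (sY t i j) = sY (fun l => f (t l)) i j := by
  have h108 : f 108 = 108 := map_ofNat f 108
  have h2 : f 2 = 2 := map_ofNat f 2
  unfold sY
  rw [map_mul, map_add, map_add, map_mul, map_mul, map_xA, map_yA, map_pa3, h108, h2]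

lemma map_sW : (sW t).map f = sW (fun l => f (t l)) := by
  have h27 : f 27 = 27 := map_ofNat f 27
  have h54 : f 54 = 54 := map_ofNat f 54
  have h4 : f (curveA t).c₄ = (curveA fun l => f (t l)).c₄ := by
    rw [← map_curveA, WeierstrassCurve.map_c₄]
  have h6 : f (curveA t).c₆ = (curveA fun l => f (t l)).c₆ := by
    rw [← map_curveA, WeierstrassCurve.map_c₆]
  ext
  · simp [sW, Wc]
  · simp [sW, Wc]
  · simp [sW, Wc]
  · simp [sW, Wc, sA, h4, h27]
  · simp [sW, Wc, sB, h6, h54]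

end map

/-- the discriminants -/
lemma disc_short (t : Fin 6 → R) :
    4 * (4 * sA t ^ 3 + 27 * sB t ^ 2) = -(544195584 * (curveA t).Δ) := by
  have h := (curveA t).c_relation
  unfold sA sB
  linear_combination 314928 * h

end ring

section hom

variable {w : Fin 6 → ℕ} {p q : MvPolynomial (Fin 6) ℤ}

lemma wof (n : ℕ) [n.AtLeastTwo] {k : ℕ} (hp : IsWeightedHomogeneous w p k) :
    IsWeightedHomogeneous w ((OfNat.ofNat n : MvPolynomial (Fin 6) ℤ) * p) k := by
  have h1 : (OfNat.ofNat n : MvPolynomial (Fin 6) ℤ) = C (OfNat.ofNat n : ℤ) :=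
    (map_ofNat C n).symm
  rw [h1]
  have h2 := (isWeightedHomogeneous_C w (OfNat.ofNat n : ℤ)).mul hp
  rwa [zero_add] at h2

lemma hb2 : IsWeightedHomogeneous wt (curveA gX).b₂ 2 := by
  unfold WeierstrassCurve.b₂
  refine IsWeightedHomogeneous.add ?_ ?_
  · exact (hlin 0).pow 2
  · exact wof 4 (hpm.add hpn).neg

lemma hb4 : IsWeightedHomogeneous wt (curveA gX).b₄ 4 := by
  unfold WeierstrassCurve.b₄
  refine IsWeightedHomogeneous.add ?_ ?_
  · exact wof 2 (hpm.mul hpn)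
  · exact (hlin 0).mul hpa3

lemma hb6 : IsWeightedHomogeneous wt (curveA gX).b₆ 6 := by
  unfold WeierstrassCurve.b₆
  refine IsWeightedHomogeneous.add ?_ ?_
  · exact hpa3.pow 2
  · exact wof 4 (isWeightedHomogeneous_zero ℤ _ _)

lemma hc4 : IsWeightedHomogeneous wt (curveA gX).c₄ 4 := by
  unfold WeierstrassCurve.c₄
  exact wsub (hb2.pow 2) (wof 24 hb4)

lemma hc6 : IsWeightedHomogeneous wt (curveA gX).c₆ 6 := by
  unfold WeierstrassCurve.c₆
  refine wsub (IsWeightedHomogeneous.add (hb2.pow 3).neg ?_) (wof 216 hb6)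
  rw [mul_assoc]
  exact wof 36 (hb2.mul hb4)

lemma hsA : IsWeightedHomogeneous wt (sA gX) 4 := by
  have : sA gX = -(27 * (curveA gX).c₄) := by unfold sA; ring
  rw [this]
  exact (wof 27 hc4).neg

lemma hsB : IsWeightedHomogeneous wt (sB gX) 6 := by
  have : sB gX = -(54 * (curveA gX).c₆) := by unfold sB; ring
  rw [this]
  exact (wof 54 hc6).neg

lemma hsX (i j : Fin 5) : IsWeightedHomogeneous wt (sX gX i j) 2 :=
  (wof 36 (family4.hx i j)).add (wof 3 hb2)

lemma hsY (i j : Fin 5) : IsWeightedHomogeneous wt (sY gX i j) 3 := by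
  unfold sY
  apply wof
  exact ((wof 2 (family4.hy i j)).add ((hlin 0).mul (family4.hx i j))).add hpa3

end hom

/-- The elliptic curves `y² = x³ + A x + B` with five integral points in general position. -/
noncomputable def fS : Family 6 4 where
  w := wt
  χ := 1
  n := fun _ _ => 0
  W := sW gX
  x := sX gX
  y := sY gX
  e := fun _ _ => 1
  h₁ := isWeightedHomogeneous_zero ℤ _ _
  h₂ := isWeightedHomogeneous_zero ℤ _ _
  h₃ := isWeightedHomogeneous_zero ℤ _ _
  h₄ := hsA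
  h₆ := hsB
  hx := hsX
  hy := hsY
  he := fun _ _ => isWeightedHomogeneous_one ℤ _

lemma fS_K : fS.K.det = 5 := by
  have : fS.K = !![2, 1, 1, 1; 1, 2, 1, 1; 1, 1, 2, 1; 1, 1, 1, 2] := by
    ext i j
    fin_cases i <;> fin_cases j <;> simp [Family.K, fS]
  rw [this]
  decide

lemma fS_curve (v : Fin 6 → ℤ) : fS.curve v = sW v := by
  have h := map_sW (eval v) gX
  rw [eval_gX] at h
  exact h

lemma fS_x (v : Fin 6 → ℤ) (i j : Fin 5) : eval v (fS.x i j) = sX v i j := by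
  have h := map_sX (eval v) gX i j
  rw [eval_gX] at h
  exact h

lemma fS_y (v : Fin 6 → ℤ) (i j : Fin 5) : eval v (fS.y i j) = sY v i j := by
  have h := map_sY (eval v) gX i j
  rw [eval_gX] at h
  exact h

/-- the points -/
noncomputable def sP (v : Fin 6 → ℤ) (i j : Fin 5) : (WQ (sW v)).Point :=
  pt (sW v) (sX v i j) (sY v i j) 1

lemma on_short (v : Fin 6 → ℤ) {i j : Fin 5} (hij : i < j) :
    OnCurve (sW v) (sX v i j) (sY v i j) 1 := by
  have h3 : ∀ i j : Fin 5, i < j → (∃ k, j < k) ∨ (∃ k, k < i) ∨ (∃ k, i < k ∧ k < j) := by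
    decide
  rcases h3 i j hij with ⟨k, hk⟩ | ⟨k, hk⟩ | ⟨k, hk1, hk2⟩
  · exact (lin_oncurve (lin_short v hij hk)).1
  · exact (lin_oncurve (lin_short v hk hij)).2.1
  · exact (lin_oncurve (lin_short v hk1 hk2)).2.2

lemma sP_add {v : Fin 6 → ℤ} (hD : (sW v).Δ ≠ 0) {i j k : Fin 5} (hij : i < j) (hjk : j < k) :
    sP v i j + sP v j k = sP v i k := lin_add (lin_short v hij hjk) hD

/-- at the primes `ℓ > 3` the two models are singular at the same points -/
lemma nsat_short {ℓ : ℕ} (hℓ : ℓ.Prime) (h3 : 3 < ℓ) {v : Fin 6 → ℤ} (h : NSat ℓ v)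
    {i j : Fin 5} (hij : i < j) :
    ¬ ((ℓ : ℤ) ∣ 2 * sY v i j ∧ (ℓ : ℤ) ∣ 3 * sX v i j ^ 2 + sA v) := by
  rintro ⟨h1, h2⟩
  have hp := Nat.prime_iff_prime_int.1 hℓ
  have hnd : ∀ n : ℕ, (∀ q : ℕ, q.Prime → q ∣ n → q ≤ 3) → n ≠ 0 → ¬ (ℓ : ℤ) ∣ (n : ℤ) := by
    intro n hn _ hd
    have := hn ℓ hℓ (by exact_mod_cast hd)
    omega
  have hn2 : ¬ (ℓ : ℤ) ∣ 2 := by
    intro hd
    have : ℓ ∣ 2 := by exact_mod_cast hd
    have := Nat.le_of_dvd (by norm_num) this
    omega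
  have hn3 : ¬ (ℓ : ℤ) ∣ 3 := by
    intro hd
    have : ℓ ∣ 3 := by exact_mod_cast hd
    have := Nat.le_of_dvd (by norm_num) this
    omega
  have k1 : (ℓ : ℤ) ∣ 2 * yA v i j + v 0 * xA v i j + pa3 v := by
    have e : 2 * sY v i j = 2 ^ 3 * (3 ^ 3 * (2 * yA v i j + v 0 * xA v i j + pa3 v)) := by
      unfold sY
      ring
    rw [e] at h1
    have h4 := (hp.dvd_or_dvd h1).resolve_left (fun hd => hn2 (hp.dvd_of_dvd_pow hd))
    exact (hp.dvd_or_dvd h4).resolve_left (fun hd => hn3 (hp.dvd_of_dvd_pow hd))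
  have k2 : (ℓ : ℤ) ∣ v 0 * yA v i j - (3 * xA v i j ^ 2 + 2 * (curveA v).a₂ * xA v i j +
      (curveA v).a₄) := by
    have e : 3 * sX v i j ^ 2 + sA v = 2 ^ 3 * (3 ^ 4 *
        (v 0 * (2 * yA v i j + v 0 * xA v i j + pa3 v) - 2 * (v 0 * yA v i j -
        (3 * xA v i j ^ 2 + 2 * (curveA v).a₂ * xA v i j + (curveA v).a₄)))) := by
      unfold sX sA
      rw [WeierstrassCurve.c₄, WeierstrassCurve.b₂, WeierstrassCurve.b₄]
      have e1 : (curveA v).a₁ = v 0 := rfl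
      have e3 : (curveA v).a₃ = pa3 v := rfl
      rw [e1, e3]
      ring
    rw [e] at h2
    have h4 := (hp.dvd_or_dvd h2).resolve_left (fun hd => hn2 (hp.dvd_of_dvd_pow hd))
    have h5 := (hp.dvd_or_dvd h4).resolve_left (fun hd => hn3 (hp.dvd_of_dvd_pow hd))
    have h6 := dvd_sub (k1.mul_left (v 0)) h5
    have e2 : v 0 * (2 * yA v i j + v 0 * xA v i j + pa3 v) -
        (v 0 * (2 * yA v i j + v 0 * xA v i j + pa3 v) - 2 * (v 0 * yA v i j -
        (3 * xA v i j ^ 2 + 2 * (curveA v).a₂ * xA v i j + (curveA v).a₄))) =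
        2 * (v 0 * yA v i j -
        (3 * xA v i j ^ 2 + 2 * (curveA v).a₂ * xA v i j + (curveA v).a₄)) := by ring
    rw [e2] at h6
    exact (hp.dvd_or_dvd h6).resolve_left hn2
  exact h i j hij ⟨k1, k2⟩

end Pool.Agent.K3h13.RG
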