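import Pool.Agent.K3h13.RG.Many
import Pool.Agent.R89.SR.Line

/-!
# Small regulators are rare among the marked members
-/

set_option autoImplicit false

namespace Pool.Agent.K3h13.RG

open Finset Pool.Agent.Y732 Pool.Agent.R89.SR

lemma ordinary_congr4 {p : ℕ} {v v₀ : Fin 6 → ℤ} (h : ∀ l, v l ≡ v₀ l [ZMOD p])
    (ho : IsOrdinaryW p (family4.curve v₀)) : IsOrdinaryW p (family4.curve v) := by
  have hc : (fun l => ((v l : ℤ) : ZMod p)) = fun l => ((v₀ l : ℤ) : ZMod p) := by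
    funext l
    exact (ZMod.intCast_eq_intCast_iff _ _ _).2 (h l)
  have hm : (family4.curve v).map (Int.castRingHom (ZMod p)) =
      (family4.curve v₀).map (Int.castRingHom (ZMod p)) := by
    have h1 := map_curveA (Int.castRingHom (ZMod p)) v
    have h2 := map_curveA (Int.castRingHom (ZMod p)) v₀
    simp only [eq_intCast] at h1 h2
    rw [family4_curve, family4_curve, h1, h2, hc]
  have hd : ∀ W : WeierstrassCurve ℤ, (p : ℤ) ∣ W.Δ ↔
      (W.map (Int.castRingHom (ZMod p))).Δ = 0 := by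
    intro W
    rw [WeierstrassCurve.map_Δ]
    exact (ZMod.intCast_zmod_eq_zero_iff_dvd W.Δ p).symm
  refine ⟨?_, ?_⟩
  · rw [hd, hm, ← hd]
    exact ho.1
  · rw [hm]
    exact ho.2

lemma box_eq (N : ℕ) : (Fintype.piFinset fun _ : Fin 6 =>
    Ico (-(N : ℤ)) (-(N : ℤ) + ((2 * N + 1 : ℕ) : ℤ))) = Cb N := by
  ext v
  rw [Fintype.mem_piFinset, mem_Cb]
  apply forall_congr'
  intro l
  rw [mem_Ico]
  push_cast
  constructor
  · rintro ⟨h1, h2⟩
    exact ⟨h1, by omega⟩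
  · rintro ⟨h1, h2⟩
    exact ⟨h1, by omega⟩

open scoped Classical in
lemma tail_box (S : Finset ℕ) (hS : ∀ p ∈ S, p.Prime ∧ 5 ≤ p) (N T : ℕ) (hN : 0 < N)
    (hT : T ≤ N) :
    (((Cb N).filter fun v => family4.Marked v ∧
      ∃ p ∈ S, ∃ _ : Fact p.Prime, IsOrdinaryW p (family4.curve v) ∧
        ¬ Large family4 p T v).card : ℝ) * (T : ℝ) ^ ((1 : ℝ) / 4) ≤
      933120 * (∑ p ∈ S, (p : ℝ) ^ 4) * (N : ℝ) ^ 6 := by
  have h1 := family_card_small family4 (by norm_num) (by rw [family4_K]; norm_num) S hS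
    (fun _ => -(N : ℤ)) (fun _ => 2 * N + 1) T T (fun _ => by omega) le_rfl
  rw [box_eq, family4_K, prod_const, card_univ, Fintype.card_fin] at h1
  have e4 : ((4 : ℕ) : ℝ) = 4 := by norm_num
  rw [e4] at h1
  refine h1.trans ?_
  have h2 : ((2 * N + 1 : ℕ) : ℝ) ^ 6 ≤ 729 * (N : ℝ) ^ 6 := by
    have h3 : ((2 * N + 1 : ℕ) : ℝ) ≤ 3 * N := by
      have : (1 : ℝ) ≤ N := by exact_mod_cast hN
      push_cast
      linarith
    calc ((2 * N + 1 : ℕ) : ℝ) ^ 6 ≤ (3 * (N : ℝ)) ^ 6 := pow_le_pow_left₀ (by positivity) h3 6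
      _ = _ := by ring
  have h4 : (0 : ℝ) ≤ ∑ p ∈ S, (p : ℝ) ^ 4 := sum_nonneg fun _ _ => by positivity
  have e5 : |((5 : ℤ) : ℝ)| = 5 := by norm_num
  rw [e5]
  calc (2 : ℝ) ^ 6 * 4 * 5 * (∑ p ∈ S, (p : ℝ) ^ 4) * ((2 * N + 1 : ℕ) : ℝ) ^ 6 ≤
      (2 : ℝ) ^ 6 * 4 * 5 * (∑ p ∈ S, (p : ℝ) ^ 4) * (729 * (N : ℝ) ^ 6) :=
        mul_le_mul_of_nonneg_left h2 (by positivity)
    _ = _ := by ring

lemma v₁_good : ¬ ((5 : ℕ) : ℤ) ∣ (curveA v₁).Δ := by
  have : (curveA v₁).Δ = 37 := by decide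
  rw [this]
  norm_num

open scoped Classical in
/-- The main result for the family. -/
theorem rank_four :
    ∃ c C : ℝ, 0 < c ∧
      (∀ N : ℕ, C ≤ N → c * (N : ℝ) ^ 6 ≤ ((Cb N).filter fun v => family4.Marked v).card) ∧
      (∀ p : ℕ, p.Prime → ∀ v₀ : Fin 6 → ℤ, ¬ (p : ℤ) ∣ (family4.curve v₀).Δ →
        ∀ N : ℕ, C * p ^ 8 ≤ N → c * ((N : ℝ) / p) ^ 6 ≤
          ((Cb N).filter fun v => (∀ l, v l ≡ v₀ l [ZMOD p]) ∧ family4.Marked v).card) ∧
      (∀ S : Finset ℕ, (∀ p ∈ S, p.Prime ∧ 5 ≤ p) → ∀ N T : ℕ, C ≤ N → T ≤ N →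
        (((Cb N).filter fun v => family4.Marked v ∧
          ∃ p ∈ S, ∃ _ : Fact p.Prime, IsOrdinaryW p (family4.curve v) ∧
            ¬ Large family4 p T v).card : ℝ) * (T : ℝ) ^ ((1 : ℝ) / 4) ≤
          C * (∑ p ∈ S, (p : ℝ) ^ 4) * ((Cb N).filter fun v => family4.Marked v).card) ∧
      (∀ (p : ℕ) [Fact p.Prime], 5 ≤ p → ∀ v₀ : Fin 6 → ℤ, IsOrdinaryW p (family4.curve v₀) →
        ∀ N T : ℕ, C * p ^ 8 ≤ N → T ≤ N →
        (((Cb N).filter fun v => (∀ l, v l ≡ v₀ l [ZMOD p]) ∧ family4.Marked v ∧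
            ¬ Large family4 p T v).card : ℝ) * (T : ℝ) ^ ((1 : ℝ) / 4) ≤
          C * (p : ℝ) ^ 10 *
            ((Cb N).filter fun v => (∀ l, v l ≡ v₀ l [ZMOD p]) ∧ family4.Marked v).card) := by
  obtain ⟨m₀, N₀, hm₀, hmany⟩ := many_marked
  have hm₀R : (0 : ℝ) < m₀ := by exact_mod_cast hm₀
  -- the classes
  have hcl : ∀ p : ℕ, p.Prime → ∀ v₀ : Fin 6 → ℤ, ¬ (p : ℤ) ∣ (curveA v₀).Δ →
      ∀ N : ℕ, 0 < N → N₀ * p ^ 8 ≤ N → 1 / (2 * (m₀ : ℝ) ^ 6) * ((N : ℝ) / p) ^ 6 ≤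
        ((Cb N).filter fun v => (∀ l, v l ≡ v₀ l [ZMOD p]) ∧ family4.Marked v).card := by
    intro p hp v₀ hg N hN0 hN
    have h1 := hmany p hp N hN hN0 v₀ hg
    have h2 : (((N : ℚ) / (p * m₀)) ^ 6 / 2 : ℚ) ≤ ((((Cb N).filter fun v =>
      (∀ l, v l ≡ v₀ l [ZMOD p]) ∧ family4.Marked v).card : ℕ) : ℚ) := h1
    have h3 : ((((N : ℚ) / (p * m₀)) ^ 6 / 2 : ℚ) : ℝ) ≤ (((((Cb N).filter fun v =>
      (∀ l, v l ≡ v₀ l [ZMOD p]) ∧ family4.Marked v).card : ℕ) : ℚ) : ℝ) := by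
      exact_mod_cast h2
    push_cast at h3
    have hpR : (0 : ℝ) < p := by exact_mod_cast hp.pos
    have e : 1 / (2 * (m₀ : ℝ) ^ 6) * ((N : ℝ) / p) ^ 6 = ((N : ℝ) / (p * m₀)) ^ 6 / 2 := by
      field_simp
    rw [e]
    exact h3
  obtain ⟨c₁, hc₁⟩ : ∃ c₁ : ℝ, c₁ = 1 / (2 * (m₀ : ℝ) ^ 6) := ⟨_, rfl⟩
  have hc₁0 : 0 < c₁ := by rw [hc₁]; positivity
  rw [← hc₁] at hcl
  obtain ⟨c, hc⟩ : ∃ c : ℝ, c = c₁ / 15625 := ⟨_, rfl⟩
  have hc0 : 0 < c := by rw [hc]; positivity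
  obtain ⟨C, hC⟩ : ∃ C : ℝ, C = max ((N₀ : ℝ) * 390625 + 1) (933120 / c) := ⟨_, rfl⟩
  have hC1 : (N₀ : ℝ) * 390625 + 1 ≤ C := by rw [hC]; exact le_max_left _ _
  have hC2 : 933120 / c ≤ C := by rw [hC]; exact le_max_right _ _
  have hC3 : 933120 ≤ C * c := by rwa [div_le_iff₀ hc0] at hC2
  have hN₀R : (0 : ℝ) ≤ N₀ := by positivity
  have hC4 : (1 : ℝ) ≤ C := by linarith
  have hmk : ∀ N : ℕ, C ≤ N →
      c * (N : ℝ) ^ 6 ≤ ((Cb N).filter fun v => family4.Marked v).card := by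
    intro N hN
    have hN0 : 0 < N := by
      have : (1 : ℝ) ≤ N := hC4.trans hN
      exact_mod_cast this
    have h5 : N₀ * 5 ^ 8 ≤ N := by
      have : ((N₀ * 5 ^ 8 : ℕ) : ℝ) ≤ N := by
        push_cast
        linarith
      exact_mod_cast this
    have h6 := hcl 5 (by norm_num) v₁ v₁_good N hN0 h5
    have h7 : ((Cb N).filter fun v => (∀ l, v l ≡ v₁ l [ZMOD (5 : ℕ)]) ∧
        family4.Marked v).card ≤ ((Cb N).filter fun v => family4.Marked v).card := by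
      apply card_le_card
      intro v hv
      rw [mem_filter] at hv ⊢
      exact ⟨hv.1, hv.2.2⟩
    have h8 : (((Cb N).filter fun v => (∀ l, v l ≡ v₁ l [ZMOD (5 : ℕ)]) ∧
        family4.Marked v).card : ℝ) ≤ ((Cb N).filter fun v => family4.Marked v).card := by
      exact_mod_cast h7
    refine le_trans ?_ (h6.trans h8)
    rw [hc]
    push_cast
    apply le_of_eq
    ring
  have hcl' : ∀ p : ℕ, p.Prime → ∀ v₀ : Fin 6 → ℤ, ¬ (p : ℤ) ∣ (family4.curve v₀).Δ →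
        ∀ N : ℕ, C * p ^ 8 ≤ N → c * ((N : ℝ) / p) ^ 6 ≤
          ((Cb N).filter fun v => (∀ l, v l ≡ v₀ l [ZMOD p]) ∧ family4.Marked v).card := by
    intro p hp v₀ hg N hN
    have hpR : (1 : ℝ) ≤ p := by exact_mod_cast hp.one_lt.le
    have hp8 : (1 : ℝ) ≤ (p : ℝ) ^ 8 := one_le_pow₀ hpR
    have hN0 : 0 < N := by
      have : (1 : ℝ) ≤ N := by
        refine le_trans ?_ hN
        nlinarith
      exact_mod_cast this
    have h5 : N₀ * p ^ 8 ≤ N := by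
      have : ((N₀ * p ^ 8 : ℕ) : ℝ) ≤ N := by
        push_cast
        refine le_trans ?_ hN
        apply mul_le_mul_of_nonneg_right _ (by positivity)
        linarith
      exact_mod_cast this
    rw [family4_curve] at hg
    refine le_trans ?_ (hcl p hp v₀ hg N hN0 h5)
    apply mul_le_mul_of_nonneg_right _ (by positivity)
    rw [hc]
    apply div_le_self hc₁0.le
    norm_num
  refine ⟨c, C, hc0, hmk, hcl', ?_, ?_⟩
  · intro S hS N T hN hT
    have hN0 : 0 < N := by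
      have : (1 : ℝ) ≤ N := hC4.trans hN
      exact_mod_cast this
    refine (tail_box S hS N T hN0 hT).trans ?_
    have h4 : (0 : ℝ) ≤ ∑ p ∈ S, (p : ℝ) ^ 4 := sum_nonneg fun _ _ => by positivity
    calc 933120 * (∑ p ∈ S, (p : ℝ) ^ 4) * (N : ℝ) ^ 6 ≤
          (C * c) * (∑ p ∈ S, (p : ℝ) ^ 4) * (N : ℝ) ^ 6 := by
          apply mul_le_mul_of_nonneg_right _ (by positivity)
          exact mul_le_mul_of_nonneg_right hC3 h4
      _ = C * (∑ p ∈ S, (p : ℝ) ^ 4) * (c * (N : ℝ) ^ 6) := by ring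
      _ ≤ _ := mul_le_mul_of_nonneg_left (hmk N hN) (by positivity)
  · intro p hpf hp5 v₀ ho N T hN hT
    have hp := hpf.out
    have hpR : (1 : ℝ) ≤ p := by exact_mod_cast hp.one_lt.le
    have hp8 : (1 : ℝ) ≤ (p : ℝ) ^ 8 := one_le_pow₀ hpR
    have hN0 : 0 < N := by
      have : (1 : ℝ) ≤ N := by
        refine le_trans ?_ hN
        nlinarith
      exact_mod_cast this
    have h1 := tail_box {p} (by
      intro q hq
      rw [mem_singleton] at hq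
      subst hq
      exact ⟨hp, hp5⟩) N T hN0 hT
    rw [sum_singleton] at h1
    have h2 := hcl' p hp v₀ ho.1 N hN
    have h3 : (((Cb N).filter fun v => (∀ l, v l ≡ v₀ l [ZMOD p]) ∧ family4.Marked v ∧
            ¬ Large family4 p T v).card : ℝ) ≤ ((Cb N).filter fun v => family4.Marked v ∧
          ∃ q ∈ ({p} : Finset ℕ), ∃ _ : Fact q.Prime, IsOrdinaryW q (family4.curve v) ∧
            ¬ Large family4 q T v).card := by
      have : ((Cb N).filter fun v => (∀ l, v l ≡ v₀ l [ZMOD p]) ∧ family4.Marked v ∧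
            ¬ Large family4 p T v) ⊆ ((Cb N).filter fun v => family4.Marked v ∧
          ∃ q ∈ ({p} : Finset ℕ), ∃ _ : Fact q.Prime, IsOrdinaryW q (family4.curve v) ∧
            ¬ Large family4 q T v) := by
        intro v hv
        rw [mem_filter] at hv ⊢
        exact ⟨hv.1, hv.2.2.1, p, mem_singleton_self p, hpf, ordinary_congr4 hv.2.1 ho,
          hv.2.2.2⟩
      exact_mod_cast card_le_card this
    have hT0 : (0 : ℝ) ≤ (T : ℝ) ^ ((1 : ℝ) / 4) := by positivity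
    refine (mul_le_mul_of_nonneg_right h3 hT0).trans (h1.trans ?_)
    have hp0 : (0 : ℝ) < p := by linarith
    calc 933120 * (p : ℝ) ^ 4 * (N : ℝ) ^ 6 ≤ (C * c) * (p : ℝ) ^ 4 * (N : ℝ) ^ 6 := by
          apply mul_le_mul_of_nonneg_right _ (by positivity)
          exact mul_le_mul_of_nonneg_right hC3 (by positivity)
      _ = C * (p : ℝ) ^ 10 * (c * ((N : ℝ) / p) ^ 6) := by
          field_simp
      _ ≤ _ := mul_le_mul_of_nonneg_left h2 (by positivity)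

end Pool.Agent.K3h13.RG
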