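import Pool.Agent.K3h13.RG.Short
import Pool.Agent.K3h2.AP.Core

/-!
# Five integral points whose differences have a multiple which is nonsingular modulo all primes
-/

set_option autoImplicit false

namespace Pool.Agent.K3h13.RG

open Pool.Agent.Y732 Pool.Agent.R89.SR WeierstrassCurve

/-- the point `m (x, y)` is `(a / e², b / e³)` in lowest terms, nonsingular modulo all primes, and
the common factor of the coordinates `T` is `d` -/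
def Typ1 (W : WeierstrassCurve ℤ) (x y : ℤ) (m d : ℕ) : Prop :=
  W.Δ ≠ 0 ∧ OnCurve W x y 1 ∧ ∃ a b e : ℤ, e ≠ 0 ∧ IsCoprime a e ∧ OnCurve W a b e ∧
    EverywhereNonsingular W a b e ∧
    T W x y 1 m 0 = (d : ℤ) ^ 2 * a ∧ T W x y 1 m 1 = (d : ℤ) ^ 3 * b ∧ T W x y 1 m 2 = d * e

variable {p : ℕ} [hp : Fact p.Prime]

lemma pt_eq {W : WeierstrassCurve ℤ} {x y : ℤ} (h : OnCurve W x y 1) (hD : W.Δ ≠ 0) :
    ∃ hP : (WQ W).Nonsingular (((x : ℤ) : ℚ) / ((1 : ℤ) : ℚ) ^ 2)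
      (((y : ℤ) : ℚ) / ((1 : ℤ) : ℚ) ^ 3), pt W x y 1 = .some _ _ hP :=
  ⟨triple_rat h hD one_ne_zero, dif_pos _⟩

lemma Typ1.mP {W : WeierstrassCurve ℤ} {x y : ℤ} {m d : ℕ} (h : Typ1 W x y m d) :
    ∃ (a b e : ℤ) (hQ : (WQ W).Nonsingular ((a : ℚ) / (e : ℚ) ^ 2) ((b : ℚ) / (e : ℚ) ^ 3)),
      (d : ℤ) ≠ 0 ∧ e ≠ 0 ∧ IsCoprime a e ∧ OnCurve W a b e ∧
      EverywhereNonsingular W a b e ∧
      T W x y 1 m 0 = (d : ℤ) ^ 2 * a ∧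
      T W x y 1 m 1 = (d : ℤ) ^ 3 * b ∧
      T W x y 1 m 2 = d * e ∧ m • pt W x y 1 = .some _ _ hQ := by
  obtain ⟨hD, hon, a, b, e, he, hc, heq, hN, h0, h1, h2⟩ := h
  obtain ⟨hP, hPe⟩ := pt_eq hon hD
  have hd : (d : ℤ) ≠ 0 := by
    intro hd
    rw [hd] at h0 h2
    -- over `ℚ` the representative is not zero
    have h3 := T_nonsingular (triple_jac hP one_ne_zero) m
    have h4 : T (red W ℚ) ((x : ℤ) : ℚ) ((y : ℤ) : ℚ) ((1 : ℤ) : ℚ) m 2 = 0 := by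
      rw [T_cast, h2]
      simp
    have h5 := Jacobian.X_ne_zero_of_Z_eq_zero h3 h4
    apply h5
    show T (red W ℚ) ((x : ℤ) : ℚ) ((y : ℤ) : ℚ) ((1 : ℤ) : ℚ) m 0 = 0
    rw [T_cast, h0]
    simp
  have hz : T W x y 1 m 2 ≠ 0 := by
    rw [h2]
    exact mul_ne_zero hd he
  obtain ⟨h', hm⟩ := Ti_some hP one_ne_zero m hz
  have hdQ : (d : ℚ) ≠ 0 := by exact_mod_cast hd
  have heQ : (e : ℚ) ≠ 0 := by exact_mod_cast he
  have hX : ((T W x y 1 m 0 : ℤ) : ℚ) / ((T W x y 1 m 2 : ℤ) : ℚ) ^ 2 =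
      (a : ℚ) / (e : ℚ) ^ 2 := by
    rw [h0, h2]
    push_cast
    field_simp
  have hY : ((T W x y 1 m 1 : ℤ) : ℚ) / ((T W x y 1 m 2 : ℤ) : ℚ) ^ 3 =
      (b : ℚ) / (e : ℚ) ^ 3 := by
    rw [h1, h2]
    push_cast
    field_simp
  have hQ : (WQ W).Nonsingular ((a : ℚ) / (e : ℚ) ^ 2) ((b : ℚ) / (e : ℚ) ^ 3) := by
    rw [← hX, ← hY]
    exact h'
  refine ⟨a, b, e, hQ, hd, he, hc, heq, hN, h0, h1, h2, ?_⟩
  rw [hPe, hm]
  simp only [Affine.Point.some.injEq]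
  exact ⟨hX, hY⟩

/-- the heights of two points on one orbit -/
theorem typ1_pair (hp5 : 5 ≤ p) {k : ℕ} (hk : 1 ≤ k) {m d : ℕ} (hm : 1 ≤ m)
    {W W' : WeierstrassCurve ℤ} {x y x' y' : ℤ}
    (hv : Typ1 W x y m d) (hv' : Typ1 W' x' y' m d) (ho : IsOrdinaryW p W) {μ : ℤ_[p]}
    (hμ : (p : ℤ_[p]) ∣ μ - 1)
    (hW : red W' (ZMod (p ^ k)) = twist (PadicInt.toZModPow k μ) (red W (ZMod (p ^ k))))
    (c1 : (x' : ZMod (p ^ k)) = PadicInt.toZModPow k μ ^ 2 * x)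
    (c2 : (y' : ZMod (p ^ k)) = PadicInt.toZModPow k μ ^ 3 * y)
    {h : (WQ W).Point → ℚ_[p]} {h' : (WQ W').Point → ℚ_[p]}
    (D : HD p W h) (D' : HD p W' h') :
    ‖(m : ℚ_[p]) ^ 2 * h (pt W x y 1) - (m : ℚ_[p]) ^ 2 * h' (pt W' x' y' 1) -
        (m : ℚ_[p]) ^ 2 * plog p (μ : ℚ_[p])‖ ≤ (p : ℝ) ^ 2 * ((p : ℝ)⁻¹) ^ k ∧
      ‖(m : ℚ_[p]) ^ 2 * h' (pt W' x' y' 1)‖ ≤ p := by
  have hon := hv.2.1
  obtain ⟨a, b, e, hQ, hd, he, hc, heq, hN, h0, h1, h2, hmP⟩ := hv.mP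
  obtain ⟨a', b', e', hQ', -, he', hc', heq', hN', h0', h1', h2', hmP'⟩ := hv'.mP
  set φ : ℤ_[p] →+* ZMod (p ^ k) := PadicInt.toZModPow k with hφ
  have h11 : (p : ℤ_[p]) ∣ (1 : ℤ_[p]) - 1 := by rw [sub_self]; exact dvd_zero _
  obtain ⟨j0, j1, j2⟩ := T_compare (κ := μ) (ν := 1) (e := 1) (e' := 1) hμ h11 hW (by
      rw [map_one, one_mul]) (by rw [mul_one]; exact c1) (by rw [mul_one]; exact c2) m
  rw [← hφ, mul_one, h0, h0'] at j0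
  rw [← hφ, mul_one, h1, h1'] at j1
  rw [← hφ, mul_one, h2, h2'] at j2
  -- `d` is a unit modulo `p ^ k`
  have hpd : ¬ (p : ℤ) ∣ d := by
    intro hpd
    apply Pool.Agent.K3h2.AP.not_dvd_both hon ho.1 m
    rw [h0, h2]
    exact ⟨(dvd_pow hpd two_ne_zero).mul_right _, hpd.mul_right _⟩
  have hdU : IsUnit ((d : ℤ) : ZMod (p ^ k)) := by
    have h3 : IsUnit ((d : ℤ) : ℤ_[p]) := not_dvd_unit hpd
    have h4 := h3.map φ
    rwa [map_intCast] at h4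
  have k0 : (a' : ZMod (p ^ k)) = (φ μ ^ (m ^ 2)) ^ 2 * a := by
    apply (hdU.pow 2).mul_left_cancel
    push_cast at j0 ⊢
    rw [j0]
    ring
  have k1 : (b' : ZMod (p ^ k)) = (φ μ ^ (m ^ 2)) ^ 3 * b := by
    apply (hdU.pow 3).mul_left_cancel
    push_cast at j1 ⊢
    rw [j1]
    ring
  have hμU : IsUnit (φ μ) := (isUnit_of_one hμ).map φ
  have hm2 : m ^ 2 - 1 + 1 = m ^ 2 := Nat.sub_add_cancel (Nat.one_le_pow _ _ hm)
  have k2 : (e' : ZMod (p ^ k)) = φ μ ^ (m ^ 2 - 1) * e := by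
    apply hdU.mul_left_cancel
    apply hμU.mul_left_cancel
    have : φ μ ^ (m ^ 2) = φ μ * φ μ ^ (m ^ 2 - 1) := by
      rw [← pow_succ', hm2]
    rw [this] at j2
    push_cast at j2 ⊢
    linear_combination j2
  have hμpow : ∀ j : ℕ, (p : ℤ_[p]) ∣ μ ^ j - 1 := fun j => dvd_pow_sub_one hμ j
  have e1 : μ * μ ^ (m ^ 2 - 1) = μ ^ (m ^ 2) := by rw [← pow_succ', hm2]
  obtain ⟨g1, -, g3⟩ := pair_diff hp5 hk (κ := μ) (ν := μ ^ (m ^ 2 - 1)) hμ (hμpow _) hW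
    (by rw [map_pow]; exact k2) (by rw [e1, map_pow]; exact k0) (by rw [e1, map_pow]; exact k1)
    heq heq' hc hc' hN hN' he he' ho hQ hQ' D D'
  rw [e1] at g1
  have q1 : h (m • pt W x y 1) = (m : ℚ_[p]) ^ 2 * h (pt W x y 1) := quadratic D.q _ _
  have q2 : h' (m • pt W' x' y' 1) = (m : ℚ_[p]) ^ 2 * h' (pt W' x' y' 1) :=
    quadratic D'.q _ _
  rw [hmP] at q1
  rw [hmP'] at q2
  have hμn : ‖(μ : ℚ_[p])‖ = 1 := PadicInt.isUnit_iff.1 (isUnit_of_one hμ)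
  have q3 : plog p ((μ ^ (m ^ 2) : ℤ_[p]) : ℚ_[p]) = (m : ℚ_[p]) ^ 2 * plog p (μ : ℚ_[p]) := by
    have := plog_pow hμn (m ^ 2)
    push_cast at this ⊢
    exact this
  rw [q1, q2, q3] at g1
  rw [q2] at g3
  exact ⟨g1, g3⟩

/-- the types of the ten points -/
def TypS (m : ℕ) (d : Fin 5 → Fin 5 → ℕ) (v : Fin 6 → ℤ) : Prop :=
  (sW v).Δ ≠ 0 ∧ ∀ i j, i < j → Typ1 (sW v) (sX v i j) (sY v i j) m (d i j)

/-- the matrix of the pairing -/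
noncomputable def MS (v : Fin 6 → ℤ) (h : (WQ (sW v)).Point → ℚ_[p]) :
    Matrix (Fin 4) (Fin 4) ℚ_[p] :=
  Matrix.of fun i j => h (sP v 0 i.succ + sP v 0 j.succ) - h (sP v 0 i.succ) -
    h (sP v 0 j.succ)

/-- the pairing over the function field -/
def K4 : Matrix (Fin 4) (Fin 4) ℤ := Matrix.of fun i j => if i = j then 2 else 1

lemma K4_det : K4.det = 5 := by decide

variable {v v' : Fin 6 → ℤ}

lemma MS_diag {h : (WQ (sW v)).Point → ℚ_[p]}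
    (hq : ∀ P Q, h (P + Q) + h (P - Q) = 2 * h P + 2 * h Q) (i : Fin 4) :
    MS v h i i = 2 * h (sP v 0 i.succ) := by
  have h1 := quadratic hq (sP v 0 i.succ) 2
  rw [two_smul] at h1
  rw [MS, Matrix.of_apply, h1]
  push_cast
  ring

lemma MS_symm {h : (WQ (sW v)).Point → ℚ_[p]} (i j : Fin 4) :
    MS v h i j = MS v h j i := by
  rw [MS, Matrix.of_apply, Matrix.of_apply, add_comm (sP v 0 i.succ)]
  ring

lemma MS_off (hD : (sW v).Δ ≠ 0) {h : (WQ (sW v)).Point → ℚ_[p]}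
    (hq : ∀ P Q, h (P + Q) + h (P - Q) = 2 * h P + 2 * h Q) {i j : Fin 4} (hij : i < j) :
    MS v h i j = h (sP v 0 i.succ) + h (sP v 0 j.succ) - h (sP v i.succ j.succ) := by
  have h1 := sP_add hD (Fin.succ_pos i) (Fin.succ_lt_succ_iff.2 hij)
  have h2 := hq (sP v 0 j.succ) (sP v 0 i.succ)
  have h3 : sP v 0 j.succ - sP v 0 i.succ = sP v i.succ j.succ := by
    rw [← h1]
    abel
  rw [h3, add_comm (sP v 0 j.succ)] at h2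
  rw [MS, Matrix.of_apply]
  linear_combination h2

theorem typS_entry (hp5 : 5 ≤ p) {k : ℕ} (hk : 1 ≤ k) {m : ℕ} (hm : 1 ≤ m)
    {d : Fin 5 → Fin 5 → ℕ} (hM : TypS m d v) (hM' : TypS m d v')
    (ho : IsOrdinaryW p (sW v)) {μ : ℤ_[p]} (hμ : (p : ℤ_[p]) ∣ μ - 1)
    (hv : ∀ l, (v' l : ZMod (p ^ k)) = PadicInt.toZModPow k μ ^ wt l * v l)
    {h : (WQ (sW v)).Point → ℚ_[p]} {h' : (WQ (sW v')).Point → ℚ_[p]}
    (D : HD p (sW v) h) (D' : HD p (sW v') h') (i j : Fin 4) :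
    ‖(m : ℚ_[p]) ^ 2 * MS v h i j - (m : ℚ_[p]) ^ 2 * MS v' h' i j -
        (m : ℚ_[p]) ^ 2 * plog p μ * ((K4 i j : ℤ) : ℚ_[p])‖ ≤
        (p : ℝ) ^ 2 * ((p : ℝ)⁻¹) ^ k ∧
      ‖(m : ℚ_[p]) ^ 2 * MS v' h' i j‖ ≤ p := by
  have add_le : ∀ {a b : ℚ_[p]} {c : ℝ}, ‖a‖ ≤ c → ‖b‖ ≤ c → ‖a + b‖ ≤ c := fun ha hb =>
    (IsUltrametricDist.norm_add_le_max _ _).trans (max_le ha hb)
  have sub_le : ∀ {a b : ℚ_[p]} {c : ℝ}, ‖a‖ ≤ c → ‖b‖ ≤ c → ‖a - b‖ ≤ c := fun ha hb => by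
    rw [sub_eq_add_neg]
    exact add_le ha (by rwa [norm_neg])
  have hW : red (sW v') (ZMod (p ^ k)) =
      twist (PadicInt.toZModPow k μ) (red (sW v) (ZMod (p ^ k))) := by
    have h1 := fS.red_twist (v := v) (v' := v') (R := ZMod (p ^ k))
      (u := PadicInt.toZModPow k μ) hv
    rw [fS_curve, fS_curve] at h1
    change red (sW v') (ZMod (p ^ k)) = twist (PadicInt.toZModPow k μ ^ 1) _ at h1
    rwa [pow_one] at h1
  have cx : ∀ i j, ((sX v' i j : ℤ) : ZMod (p ^ k)) =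
      PadicInt.toZModPow k μ ^ 2 * ((sX v i j : ℤ) : ZMod (p ^ k)) := by
    intro i j
    have h1 := wh_cast (R := ZMod (p ^ k)) (fS.hx i j) (u := PadicInt.toZModPow k μ)
      (v := v) (v' := v') hv
    rw [fS_x, fS_x] at h1
    exact h1
  have cy : ∀ i j, ((sY v' i j : ℤ) : ZMod (p ^ k)) =
      PadicInt.toZModPow k μ ^ 3 * ((sY v i j : ℤ) : ZMod (p ^ k)) := by
    intro i j
    have h1 := wh_cast (R := ZMod (p ^ k)) (fS.hy i j) (u := PadicInt.toZModPow k μ)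
      (v := v) (v' := v') hv
    rw [fS_y, fS_y] at h1
    exact h1
  have key : ∀ i j : Fin 5, i < j →
      ‖(m : ℚ_[p]) ^ 2 * h (sP v i j) - (m : ℚ_[p]) ^ 2 * h' (sP v' i j) -
        (m : ℚ_[p]) ^ 2 * plog p (μ : ℚ_[p])‖ ≤ (p : ℝ) ^ 2 * ((p : ℝ)⁻¹) ^ k ∧
      ‖(m : ℚ_[p]) ^ 2 * h' (sP v' i j)‖ ≤ p := fun i j hij =>
    typ1_pair hp5 hk hm (hM.2 i j hij) (hM'.2 i j hij) ho hμ hW (cx i j) (cy i j) D D'
  have off : ∀ i j : Fin 4, i < j →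
      ‖(m : ℚ_[p]) ^ 2 * MS v h i j - (m : ℚ_[p]) ^ 2 * MS v' h' i j -
        (m : ℚ_[p]) ^ 2 * plog p μ * (1 : ℚ_[p])‖ ≤
          (p : ℝ) ^ 2 * ((p : ℝ)⁻¹) ^ k ∧
        ‖(m : ℚ_[p]) ^ 2 * MS v' h' i j‖ ≤ p := by
    intro i j hij
    rw [MS_off hM.1 D.q hij, MS_off hM'.1 D'.q hij]
    obtain ⟨k1, k2⟩ := key 0 i.succ (Fin.succ_pos i)
    obtain ⟨k3, k4⟩ := key 0 j.succ (Fin.succ_pos j)
    obtain ⟨k5, k6⟩ := key i.succ j.succ (Fin.succ_lt_succ_iff.2 hij)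
    constructor
    · have e : (m : ℚ_[p]) ^ 2 * (h (sP v 0 i.succ) + h (sP v 0 j.succ) -
          h (sP v i.succ j.succ)) - (m : ℚ_[p]) ^ 2 * (h' (sP v' 0 i.succ) +
          h' (sP v' 0 j.succ) - h' (sP v' i.succ j.succ)) - (m : ℚ_[p]) ^ 2 * plog p μ * 1 =
          ((m : ℚ_[p]) ^ 2 * h (sP v 0 i.succ) - (m : ℚ_[p]) ^ 2 * h' (sP v' 0 i.succ) -
            (m : ℚ_[p]) ^ 2 * plog p (μ : ℚ_[p])) +
          ((m : ℚ_[p]) ^ 2 * h (sP v 0 j.succ) - (m : ℚ_[p]) ^ 2 * h' (sP v' 0 j.succ) -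
            (m : ℚ_[p]) ^ 2 * plog p (μ : ℚ_[p])) -
          ((m : ℚ_[p]) ^ 2 * h (sP v i.succ j.succ) -
            (m : ℚ_[p]) ^ 2 * h' (sP v' i.succ j.succ) -
            (m : ℚ_[p]) ^ 2 * plog p (μ : ℚ_[p])) := by
        ring
      rw [e]
      exact sub_le (add_le k1 k3) k5
    · have e : (m : ℚ_[p]) ^ 2 * (h' (sP v' 0 i.succ) +
          h' (sP v' 0 j.succ) - h' (sP v' i.succ j.succ)) =
          (m : ℚ_[p]) ^ 2 * h' (sP v' 0 i.succ) + (m : ℚ_[p]) ^ 2 * h' (sP v' 0 j.succ) -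
          (m : ℚ_[p]) ^ 2 * h' (sP v' i.succ j.succ) := by ring
      rw [e]
      exact sub_le (add_le k2 k4) k6
  rcases lt_trichotomy i j with hij | hij | hij
  · have := off i j hij
    rw [K4, Matrix.of_apply, if_neg hij.ne, Int.cast_one]
    exact this
  · subst hij
    rw [K4, Matrix.of_apply, if_pos rfl, MS_diag D.q, MS_diag D'.q]
    obtain ⟨k1, k2⟩ := key 0 i.succ (Fin.succ_pos i)
    have e : (m : ℚ_[p]) ^ 2 * (2 * h (sP v 0 i.succ)) -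
        (m : ℚ_[p]) ^ 2 * (2 * h' (sP v' 0 i.succ)) -
        (m : ℚ_[p]) ^ 2 * plog p μ * ((2 : ℤ) : ℚ_[p]) =
        ((2 : ℕ) : ℚ_[p]) * ((m : ℚ_[p]) ^ 2 * h (sP v 0 i.succ) -
          (m : ℚ_[p]) ^ 2 * h' (sP v' 0 i.succ) -
          (m : ℚ_[p]) ^ 2 * plog p (μ : ℚ_[p])) := by
      push_cast
      ring
    have e2 : (m : ℚ_[p]) ^ 2 * (2 * h' (sP v' 0 i.succ)) =
        ((2 : ℕ) : ℚ_[p]) * ((m : ℚ_[p]) ^ 2 * h' (sP v' 0 i.succ)) := by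
      push_cast
      ring
    rw [e, e2]
    exact ⟨(norm_nat_mul_le _ _).trans k1, (norm_nat_mul_le _ _).trans k2⟩
  · have := off j i hij
    rw [K4, Matrix.of_apply, if_neg hij.ne', Int.cast_one, MS_symm i j, MS_symm i j]
    exact this

/-- the exceptional parameters: `T₀ ‖Reg‖ ≤ 1` -/
def ExcS (p : ℕ) [Fact p.Prime] (T₀ : ℕ) (v : Fin 6 → ℤ) : Prop :=
  IsOrdinaryW p (sW v) ∧ ∃ h : (WQ (sW v)).Point → ℚ_[p], IsHeightW p (sW v) h ∧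
    (T₀ : ℝ) * ‖Reg h (fun i : Fin 4 => sP v 0 i.succ)‖ ≤ 1

theorem typS_orbit (hp5 : 5 ≤ p) {k a e T m : ℕ} (hk : 1 ≤ k) (hT : p ^ k ≤ T) (hm : 1 ≤ m)
    {d : Fin 5 → Fin 5 → ℕ}
    (he : ¬ (p : ℤ) ^ (e + 1) ∣ (((m : ℤ) ^ 2) • K4).det)
    (hak : 4 * a + 4 + 1 + e < k) (v : Fin (4 + 1) → Fin 6 → ℤ) (μ : Fin (4 + 1) → ℤ)
    (hv : ∀ i, TypS m d (v i) ∧ ExcS p T (v i)) (hμ : ∀ i, (p : ℤ) ∣ μ i - 1)
    (hc : ∀ i l, (p : ℤ) ^ k ∣ μ 0 ^ wt l * v 0 l - μ i ^ wt l * v i l) :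
    ∃ i j, i ≠ j ∧ (p : ℤ) ^ (a + 1) ∣ μ i - μ j := by
  by_contra hcon
  push Not at hcon
  have hp1 : (1 : ℝ) < p := by exact_mod_cast hp.out.one_lt
  have hM := fun i => (hv i).1
  have ho := fun i => (hv i).2.1
  choose h hh hreg using fun i => (hv i).2.2
  have D := fun i => (hh i).hd.some
  -- the multipliers
  have hpp : ∀ {z : ℤ}, (p : ℤ) ∣ z → (p : ℤ_[p]) ∣ (z : ℤ_[p]) := by
    intro z hz
    have := int_dvd_padic (p := p) (k := 1) (z := z) (by rwa [pow_one])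
    rwa [pow_one] at this
  have hμp : ∀ i, (p : ℤ_[p]) ∣ (μ i : ℤ_[p]) - 1 := by
    intro i
    have := hpp (hμ i)
    push_cast at this
    exact this
  have hU : ∀ i, IsUnit (μ i : ℤ_[p]) := fun i => isUnit_of_one (hμp i)
  have hn1 : ∀ i, ‖((μ i : ℤ) : ℚ_[p])‖ = 1 := by
    intro i
    have h1 : ‖(μ i : ℤ_[p])‖ = 1 := PadicInt.isUnit_iff.1 (hU i)
    exact h1
  choose ρ hρ using fun i => (hU i).exists_right_inv
  have hμ1 : ∀ i, (p : ℤ_[p]) ∣ (μ 0 : ℤ_[p]) * ρ i - 1 := by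
    intro i
    have e1 : (μ 0 : ℤ_[p]) * ρ i - 1 = ((μ 0 : ℤ_[p]) - 1) * ρ i - ((μ i : ℤ_[p]) - 1) * ρ i := by
      linear_combination hρ i
    rw [e1]
    exact dvd_sub ((hμp 0).mul_right _) ((hμp i).mul_right _)
  have hvc : ∀ i l, (v i l : ZMod (p ^ k)) =
      PadicInt.toZModPow k ((μ 0 : ℤ_[p]) * ρ i) ^ wt l * v 0 l := by
    intro i l
    have h1 := hc i l
    have h2 : ((μ 0 ^ wt l * v 0 l - μ i ^ wt l * v i l : ℤ) : ZMod (p ^ k)) = 0 := by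
      rw [ZMod.intCast_zmod_eq_zero_iff_dvd]
      exact_mod_cast h1
    have h3 := congrArg (PadicInt.toZModPow (p := p) k) (hρ i)
    rw [map_mul, map_intCast, map_one] at h3
    rw [map_mul, map_intCast, mul_pow]
    push_cast at h2
    have h4 : ((μ i : ℤ) : ZMod (p ^ k)) ^ wt l * PadicInt.toZModPow k (ρ i) ^ wt l = 1 := by
      rw [← mul_pow, h3, one_pow]
    linear_combination (-(v i l : ZMod (p ^ k))) * h4 -
      (PadicInt.toZModPow k (ρ i) ^ wt l) * h2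
  have hlog : ∀ i, plog p (((μ 0 : ℤ_[p]) * ρ i : ℤ_[p]) : ℚ_[p]) =
      plog p ((μ 0 : ℤ) : ℚ_[p]) - plog p ((μ i : ℤ) : ℚ_[p]) := by
    intro i
    have h1 : ((((μ 0 : ℤ_[p]) * ρ i : ℤ_[p]) : ℚ_[p])) * ((μ i : ℤ) : ℚ_[p]) =
        ((μ 0 : ℤ) : ℚ_[p]) := by
      have h2 := congrArg (Subtype.val : ℤ_[p] → ℚ_[p]) (hρ i)
      push_cast at h2 ⊢
      have h3 : ((μ i : ℤ) : ℚ_[p]) * (ρ i : ℚ_[p]) = 1 := h2
      linear_combination ((μ 0 : ℤ) : ℚ_[p]) * h3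
    have h2 : ‖((((μ 0 : ℤ_[p]) * ρ i : ℤ_[p]) : ℚ_[p]))‖ = 1 := by
      have h3 := congrArg norm h1
      rwa [norm_mul, hn1, hn1, mul_one] at h3
    have h3 := plog_mul h2 (hn1 i)
    rw [h1] at h3
    linear_combination -h3
  have hent := fun i j j' =>
    typS_entry hp5 hk hm (hM 0) (hM i) (ho 0) (hμ1 i) (hvc i) (D 0) (D i) j j'
  refine orbit_small (p := p) hk he (l := fun i => plog p ((μ i : ℤ) : ℚ_[p]))
    (M := fun i => ((m : ℚ_[p]) ^ 2) • MS (v i) (h i)) (fun i => ?_)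
    (fun i j j' => (hent i j j').2) ?_ hak ?_
  · rw [Matrix.det_smul, norm_mul, Fintype.card_fin]
    have h5 : ‖(MS (v i) (h i)).det‖ ≤ ((p : ℝ)⁻¹) ^ k :=
      small_norm hT (hreg i) (norm_nonneg _)
    have h6 : ‖((m : ℚ_[p]) ^ 2) ^ 4‖ ≤ 1 := by
      rw [norm_pow, norm_pow]
      have h7 : ‖(m : ℚ_[p])‖ ≤ 1 := by exact_mod_cast Padic.norm_int_le_one (p := p) (m : ℤ)
      exact pow_le_one₀ (by positivity) (pow_le_one₀ (norm_nonneg _) h7)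
    calc ‖((m : ℚ_[p]) ^ 2) ^ 4‖ * ‖(MS (v i) (h i)).det‖ ≤ 1 * ((p : ℝ)⁻¹) ^ k :=
          mul_le_mul h6 h5 (norm_nonneg _) zero_le_one
      _ = _ := one_mul _
  · intro i j j'
    have h1 := (hent i j j').1
    rw [hlog i] at h1
    have e1 : (((m : ℚ_[p]) ^ 2) • MS (v i) (h i)) j j' -
        (((m : ℚ_[p]) ^ 2) • MS (v 0) (h 0)) j j' -
        (plog p ((μ i : ℤ) : ℚ_[p]) - plog p ((μ 0 : ℤ) : ℚ_[p])) *
          (((((m : ℤ) ^ 2) • K4) j j' : ℤ) : ℚ_[p]) =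
        -((m : ℚ_[p]) ^ 2 * MS (v 0) (h 0) j j' - (m : ℚ_[p]) ^ 2 * MS (v i) (h i) j j' -
        (m : ℚ_[p]) ^ 2 * (plog p ((μ 0 : ℤ) : ℚ_[p]) - plog p ((μ i : ℤ) : ℚ_[p])) *
          ((K4 j j' : ℤ) : ℚ_[p])) := by
      simp only [Matrix.smul_apply, smul_eq_mul]
      push_cast
      ring
    rw [e1, norm_neg]
    exact h1
  · intro i j hij
    have h1 := int_norm_ge (hcon i j hij)
    have h2 : ‖((μ i : ℤ) : ℚ_[p]) - ((μ j : ℤ) : ℚ_[p])‖ ≤ (p : ℝ)⁻¹ := by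
      have h3 : (p : ℤ_[p]) ∣ ((μ i : ℤ_[p]) - (μ j : ℤ_[p])) := by
        have := dvd_sub (hμp i) (hμp j)
        rwa [sub_sub_sub_cancel_right] at this
      obtain ⟨z, hz⟩ := h3
      have h4 : ‖((μ i : ℤ_[p]) - (μ j : ℤ_[p]))‖ ≤ (p : ℝ)⁻¹ := by
        rw [hz, norm_mul, PadicInt.norm_p]
        have h5 := PadicInt.norm_le_one z
        have h6 : (0 : ℝ) ≤ (p : ℝ)⁻¹ := by positivity
        nlinarith
      exact h4
    rw [norm_plog_sub (by omega) (hn1 i) (hn1 j) h2]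
    push_cast at h1
    exact h1

theorem typS_count (hp5 : 5 ≤ p) {m : ℕ} {d : Fin 5 → Fin 5 → ℕ} (hm : 1 ≤ m)
    (c : Fin 6 → ℤ) (N : Fin 6 → ℕ)
    (Z : Finset (Fin 6 → ℤ)) (hZ : ∀ v ∈ Z, ∀ l, c l ≤ v l ∧ v l < c l + N l) {T₀ : ℕ}
    (hT : ∀ l, T₀ ≤ N l) (hv : ∀ v ∈ Z, TypS m d v ∧ ExcS p T₀ v) :
    Z.card ^ 4 * T₀ ≤ (2 ^ 6 * 4 * (m ^ 8 * 5) * p ^ 4 * ∏ l, N l) ^ 4 := by
  have hdet : (((m : ℤ) ^ 2) • K4).det = ((m ^ 8 * 5 : ℕ) : ℤ) := by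
    rw [Matrix.det_smul, Fintype.card_fin, K4_det]
    push_cast
    ring
  refine countF_small hp.out (by norm_num) (by positivity) wt c N Z hZ hT ?_
  intro k a e hk hkT he hak v μ hvZ hμ hc
  refine typS_orbit hp5 hk hkT hm ?_ hak v μ (fun i => hv _ (hvZ i)) hμ hc
  rw [hdet]
  intro h
  apply he
  exact_mod_cast h

end Pool.Agent.K3h13.RG
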