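import Mathlib

/-!
# The slopes of the lines through the points of an elliptic curve form a cocycle
-/

set_option autoImplicit false

namespace Pool.Agent.K3h13.RG

open Polynomial WeierstrassCurve WeierstrassCurve.Affine WeierstrassCurve.Affine.CoordinateRing

open scoped Polynomial.Bivariate

universe u

variable {F : Type u} [Field F] {W : WeierstrassCurve.Affine F}

/-- the units of the coordinate ring are constants -/
lemma unit_const {z : W.CoordinateRing} (hz : IsUnit z) : ∃ c : F, c ≠ 0 ∧ z = (C c : F[X]) • 1 := by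
  obtain ⟨p, q, rfl⟩ := exists_smul_basis_eq z
  have h1 : IsUnit (Algebra.norm F[X] (p • (1 : W.CoordinateRing) + q • mk W Y)) :=
    hz.map (Algebra.norm F[X])
  have h2 := degree_norm_smul_basis (W' := W) p q
  rw [Polynomial.degree_eq_zero_of_isUnit h1] at h2
  have hq : q = 0 := by
    by_contra hq
    have h3 : (2 • q.degree + 3 : WithBot ℕ) ≤ 0 := h2 ▸ le_max_right _ _
    rw [Polynomial.degree_eq_natDegree hq] at h3
    have h4 : ((2 * q.natDegree + 3 : ℕ) : WithBot ℕ) ≤ ((0 : ℕ) : WithBot ℕ) := by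
      have e : ((2 * q.natDegree + 3 : ℕ) : WithBot ℕ) = 2 • (q.natDegree : WithBot ℕ) + 3 := by
        push_cast
        rw [two_nsmul, two_mul]
      rw [e]
      exact h3
    have h5 : 2 * q.natDegree + 3 ≤ 0 := WithBot.coe_le_coe.1 h4
    omega
  subst hq
  have hp : p.degree = 0 := by
    rw [Polynomial.degree_zero] at h2
    by_cases hp0 : p = 0
    · subst hp0
      rw [Polynomial.degree_zero] at h2
      exfalso
      revert h2
      decide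
    · rw [Polynomial.degree_eq_natDegree hp0] at h2 ⊢
      have h3 : (2 • ((⊥ : WithBot ℕ)) + 3 : WithBot ℕ) = ⊥ := by decide
      rw [h3, max_eq_left bot_le] at h2
      have h4 : ((0 : ℕ) : WithBot ℕ) = ((2 * p.natDegree : ℕ) : WithBot ℕ) := by
        push_cast
        rw [two_nsmul, ← two_mul] at h2
        exact h2
      have h5 := WithBot.coe_injective h4
      have h6 : p.natDegree = 0 := by
        change (0 : ℕ) = 2 * p.natDegree at h5
        omega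
      rw [h6]
      rfl
  have hpc := Polynomial.eq_C_of_degree_le_zero hp.le
  refine ⟨p.coeff 0, ?_, ?_⟩
  · intro h0
    rw [h0, C_0] at hpc
    rw [hpc, Polynomial.degree_zero] at hp
    exact absurd hp (by decide)
  · rw [zero_smul, add_zero, ← hpc]

/-- the product of `X - x` and two lines -/
lemma prod_lines (x : F) (l l' : F[X]) : XClass W x * YClass W l * YClass W l' =
    ((X - C x) * (X ^ 3 + C W.a₂ * X ^ 2 + C W.a₄ * X + C W.a₆ + l * l')) •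
      (1 : W.CoordinateRing) +
    (-((X - C x) * (l + l' + C W.a₁ * X + C W.a₃))) • mk W Y := by
  have h1 : YClass W l = (-l) • (1 : W.CoordinateRing) + (1 : F[X]) • mk W Y := by
    rw [CoordinateRing.smul, CoordinateRing.smul, YClass, map_sub]
    simp only [map_neg, map_one, mul_one, one_mul]
    ring
  have h2 : YClass W l' = mk W Y - mk W (C l') := by
    rw [YClass, map_sub]
  have h3 : XClass W x = mk W (C (X - C x)) := rfl
  have h4 : YClass W l * YClass W l' = (X ^ 3 + C W.a₂ * X ^ 2 + C W.a₄ * X + C W.a₆ + l * l') •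
      (1 : W.CoordinateRing) + (-(l + l' + C W.a₁ * X + C W.a₃)) • mk W Y := by
    rw [h2, mul_sub, h1, smul_basis_mul_Y, smul_basis_mul_C]
    simp only [CoordinateRing.smul, map_mul, map_add, map_neg, map_sub, mul_one, one_mul]
    ring
  rw [mul_assoc, h4, h3]
  simp only [CoordinateRing.smul, map_mul, map_add, map_neg, map_sub, map_one, mul_one]
  ring

variable [DecidableEq F]

lemma ideal_add {x₁ y₁ x₂ y₂ x₃ y₃ : F} (h₁ : W.Nonsingular x₁ y₁) (h₂ : W.Nonsingular x₂ y₂)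
    (h₃ : W.Nonsingular x₃ y₃)
    (h : Point.some x₁ y₁ h₁ + Point.some x₂ y₂ h₂ = Point.some x₃ y₃ h₃) :
    XIdeal W x₃ * (XYIdeal W x₁ (C y₁) * XYIdeal W x₂ (C y₂)) =
      YIdeal W (linePolynomial x₁ y₁ (W.slope x₁ x₂ y₁ y₂)) * XYIdeal W x₃ (C y₃) := by
  by_cases hxy : x₁ = x₂ ∧ y₁ = W.negY x₂ y₂
  · rw [Point.add_of_Y_eq hxy.1 hxy.2] at h
    exact absurd h (by intro h; cases h)
  · rw [Point.add_some hxy] at h
    obtain ⟨rfl, rfl⟩ := (Point.some.injEq ..).mp h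
    exact XYIdeal_mul_XYIdeal h₁.1 h₂.1 hxy

omit [DecidableEq F] in
lemma coeff_four (a b c d e : F) :
    (C a * X ^ 4 + C b * X ^ 3 + C c * X ^ 2 + C d * X + C e).coeff 4 = a := by
  simp [coeff_X, coeff_C, coeff_X_pow]

omit [DecidableEq F] in
lemma coeff_two (a b c : F) : (C a * X ^ 2 + C b * X + C c).coeff 2 = a := by
  simp [coeff_X, coeff_C, coeff_X_pow]

/-- the slopes form a cocycle -/
theorem cocycle {x₁ y₁ x₂ y₂ x₃ y₃ x₄ y₄ x₅ y₅ x₆ y₆ : F} (h₁ : W.Nonsingular x₁ y₁)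
    (h₂ : W.Nonsingular x₂ y₂) (h₃ : W.Nonsingular x₃ y₃) (h₄ : W.Nonsingular x₄ y₄)
    (h₅ : W.Nonsingular x₅ y₅) (h₆ : W.Nonsingular x₆ y₆)
    (e₁ : Point.some x₁ y₁ h₁ + Point.some x₂ y₂ h₂ = Point.some x₄ y₄ h₄)
    (e₂ : Point.some x₄ y₄ h₄ + Point.some x₃ y₃ h₃ = Point.some x₆ y₆ h₆)
    (e₃ : Point.some x₂ y₂ h₂ + Point.some x₃ y₃ h₃ = Point.some x₅ y₅ h₅)
    (e₄ : Point.some x₁ y₁ h₁ + Point.some x₅ y₅ h₅ = Point.some x₆ y₆ h₆) :
    W.slope x₁ x₂ y₁ y₂ + W.slope x₄ x₃ y₄ y₃ = W.slope x₂ x₃ y₂ y₃ + W.slope x₁ x₅ y₁ y₅ := by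
  set s₁ := W.slope x₁ x₂ y₁ y₂ with hs₁
  set s₂ := W.slope x₄ x₃ y₄ y₃ with hs₂
  set s₃ := W.slope x₂ x₃ y₂ y₃ with hs₃
  set s₄ := W.slope x₁ x₅ y₁ y₅ with hs₄
  have k₁ := ideal_add h₁ h₂ h₄ e₁
  have k₂ := ideal_add h₄ h₃ h₆ e₂
  have k₃ := ideal_add h₂ h₃ h₅ e₃
  have k₄ := ideal_add h₁ h₅ h₆ e₄
  rw [← hs₁] at k₁
  rw [← hs₂] at k₂
  rw [← hs₃] at k₃
  rw [← hs₄] at k₄
  have k₅ := XYIdeal_neg_mul h₆
  -- the equality of the two principal ideals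
  have key : XIdeal W x₅ * (YIdeal W (linePolynomial x₁ y₁ s₁) *
      (YIdeal W (linePolynomial x₄ y₄ s₂) * XIdeal W x₆)) =
      XIdeal W x₄ * (YIdeal W (linePolynomial x₂ y₂ s₃) *
      (YIdeal W (linePolynomial x₁ y₁ s₄) * XIdeal W x₆)) := by
    rw [← k₅]
    have a₁ : YIdeal W (linePolynomial x₁ y₁ s₁) * (YIdeal W (linePolynomial x₄ y₄ s₂) *
        XYIdeal W x₆ (C y₆)) = XIdeal W x₆ * (XIdeal W x₄ * (XYIdeal W x₁ (C y₁) *
          (XYIdeal W x₂ (C y₂) * XYIdeal W x₃ (C y₃)))) := by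
      rw [← k₂]
      calc _ = XIdeal W x₆ * ((YIdeal W (linePolynomial x₁ y₁ s₁) * XYIdeal W x₄ (C y₄)) *
            XYIdeal W x₃ (C y₃)) := by ring
        _ = _ := by
          rw [← k₁]
          ring
    have a₂ : YIdeal W (linePolynomial x₂ y₂ s₃) * (YIdeal W (linePolynomial x₁ y₁ s₄) *
        XYIdeal W x₆ (C y₆)) = XIdeal W x₆ * (XIdeal W x₅ * (XYIdeal W x₁ (C y₁) *
          (XYIdeal W x₂ (C y₂) * XYIdeal W x₃ (C y₃)))) := by
      rw [← k₄]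
      calc _ = XIdeal W x₆ * ((YIdeal W (linePolynomial x₂ y₂ s₃) * XYIdeal W x₅ (C y₅)) *
            XYIdeal W x₁ (C y₁)) := by ring
        _ = _ := by
          rw [← k₃]
          ring
    calc _ = XYIdeal W x₆ (C (W.negY x₆ y₆)) * (XIdeal W x₅ *
          (YIdeal W (linePolynomial x₁ y₁ s₁) * (YIdeal W (linePolynomial x₄ y₄ s₂) *
            XYIdeal W x₆ (C y₆)))) := by ring
      _ = XYIdeal W x₆ (C (W.negY x₆ y₆)) * (XIdeal W x₄ *
          (YIdeal W (linePolynomial x₂ y₂ s₃) * (YIdeal W (linePolynomial x₁ y₁ s₄) *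
            XYIdeal W x₆ (C y₆)))) := by
          rw [a₁, a₂]
          ring
      _ = _ := by ring
  simp only [XIdeal, YIdeal, Ideal.span_singleton_mul_span_singleton] at key
  rw [Ideal.span_singleton_eq_span_singleton] at key
  obtain ⟨u, hu⟩ := key
  obtain ⟨c, hc0, hc⟩ := unit_const (W := W) u.isUnit
  have hX : XClass W x₆ ≠ 0 := XClass_ne_zero x₆
  have h7 : (XClass W x₅ * YClass W (linePolynomial x₁ y₁ s₁) *
      YClass W (linePolynomial x₄ y₄ s₂)) * (u : W.CoordinateRing) =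
      XClass W x₄ * YClass W (linePolynomial x₂ y₂ s₃) *
      YClass W (linePolynomial x₁ y₁ s₄) := by
    apply mul_right_cancel₀ hX
    linear_combination hu
  rw [hc, prod_lines, prod_lines] at h7
  have h8 : ((X - C x₅) * (X ^ 3 + C W.a₂ * X ^ 2 + C W.a₄ * X + C W.a₆ +
        linePolynomial x₁ y₁ s₁ * linePolynomial x₄ y₄ s₂) * C c -
      (X - C x₄) * (X ^ 3 + C W.a₂ * X ^ 2 + C W.a₄ * X + C W.a₆ +
        linePolynomial x₂ y₂ s₃ * linePolynomial x₁ y₁ s₄)) • (1 : W.CoordinateRing) +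
      ((X - C x₄) * (linePolynomial x₂ y₂ s₃ + linePolynomial x₁ y₁ s₄ + C W.a₁ * X + C W.a₃) -
        (X - C x₅) * (linePolynomial x₁ y₁ s₁ + linePolynomial x₄ y₄ s₂ + C W.a₁ * X +
          C W.a₃) * C c) • mk W Y = 0 := by
    have h9 := sub_eq_zero.2 h7
    rw [← h9]
    simp only [CoordinateRing.smul, map_mul, map_add, map_neg, map_sub, map_one, mul_one]
    ring
  obtain ⟨g1, g2⟩ := smul_basis_eq_zero h8
  have e5 : (X - C x₅) * (X ^ 3 + C W.a₂ * X ^ 2 + C W.a₄ * X + C W.a₆ +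
        linePolynomial x₁ y₁ s₁ * linePolynomial x₄ y₄ s₂) * C c -
      (X - C x₄) * (X ^ 3 + C W.a₂ * X ^ 2 + C W.a₄ * X + C W.a₆ +
        linePolynomial x₂ y₂ s₃ * linePolynomial x₁ y₁ s₄) =
      C (c - 1) * X ^ 4 + C (c * (W.a₂ + s₁ * s₂ - x₅) - (W.a₂ + s₃ * s₄ - x₄)) * X ^ 3 +
      C (c * (W.a₄ + s₁ * (y₄ - s₂ * x₄) + s₂ * (y₁ - s₁ * x₁) - x₅ * (W.a₂ + s₁ * s₂)) -
        (W.a₄ + s₃ * (y₁ - s₄ * x₁) + s₄ * (y₂ - s₃ * x₂) - x₄ * (W.a₂ + s₃ * s₄))) * X ^ 2 +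
      C (c * (W.a₆ + (y₁ - s₁ * x₁) * (y₄ - s₂ * x₄) - x₅ * (W.a₄ + s₁ * (y₄ - s₂ * x₄) +
        s₂ * (y₁ - s₁ * x₁))) - (W.a₆ + (y₂ - s₃ * x₂) * (y₁ - s₄ * x₁) -
        x₄ * (W.a₄ + s₃ * (y₁ - s₄ * x₁) + s₄ * (y₂ - s₃ * x₂)))) * X +
      C (-(c * (x₅ * (W.a₆ + (y₁ - s₁ * x₁) * (y₄ - s₂ * x₄)))) +
        x₄ * (W.a₆ + (y₂ - s₃ * x₂) * (y₁ - s₄ * x₁))) := by
    simp only [linePolynomial, C_add, C_sub, C_mul, C_neg, C_1]
    ring
  have e6 : (X - C x₄) * (linePolynomial x₂ y₂ s₃ + linePolynomial x₁ y₁ s₄ + C W.a₁ * X +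
        C W.a₃) - (X - C x₅) * (linePolynomial x₁ y₁ s₁ + linePolynomial x₄ y₄ s₂ + C W.a₁ * X +
          C W.a₃) * C c =
      C (s₃ + s₄ + W.a₁ - c * (s₁ + s₂ + W.a₁)) * X ^ 2 +
      C ((y₂ - s₃ * x₂) + (y₁ - s₄ * x₁) + W.a₃ - x₄ * (s₃ + s₄ + W.a₁) -
        c * ((y₁ - s₁ * x₁) + (y₄ - s₂ * x₄) + W.a₃ - x₅ * (s₁ + s₂ + W.a₁))) * X +
      C (-(x₄ * ((y₂ - s₃ * x₂) + (y₁ - s₄ * x₁) + W.a₃)) +
        c * (x₅ * ((y₁ - s₁ * x₁) + (y₄ - s₂ * x₄) + W.a₃))) := by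
    simp only [linePolynomial, C_add, C_sub, C_mul, C_neg]
    ring
  rw [e5] at g1
  rw [e6] at g2
  have f1 := congrArg (fun p => Polynomial.coeff p 4) g1
  have f2 := congrArg (fun p => Polynomial.coeff p 2) g2
  simp only [coeff_four, coeff_two, coeff_zero] at f1 f2
  have hc1 : c = 1 := by linear_combination f1
  rw [hc1] at f2
  linear_combination -f2

end Pool.Agent.K3h13.RG
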