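import Pool.Agent.K3h13.RG.Uni1
import Pool.Agent.K3h13.RG.Poly

/-!
# Five points of an elliptic curve determine a member of the family
-/

set_option autoImplicit false

namespace Pool.Agent.K3h13.RG

open WeierstrassCurve WeierstrassCurve.Affine

section lin

variable {F : Type*} [Field F] [DecidableEq F] {W : WeierstrassCurve F}

omit [DecidableEq F] in
lemma addPoly_coeffs {x₁ x₂ x₃ : F} {a b c : F}
    (h : Cubic.toPoly ⟨1, a, b, c⟩ =
      (Polynomial.X - Polynomial.C x₁) * (Polynomial.X - Polynomial.C x₂) *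
        (Polynomial.X - Polynomial.C x₃)) :
    b = x₁ * x₂ + x₁ * x₃ + x₂ * x₃ ∧ c = -(x₁ * x₂ * x₃) := by
  rw [Cubic.prod_X_sub_C_eq, Cubic.toPoly_injective] at h
  simp only [Cubic.mk.injEq] at h
  obtain ⟨-, -, h3, h4⟩ := h
  refine ⟨h3, by rw [h4]⟩

/-- three points on a line -/
lemma lin_of_add {x₁ y₁ x₂ y₂ x₃ y₃ : F} (h₁ : W.toAffine.Nonsingular x₁ y₁)
    (h₂ : W.toAffine.Nonsingular x₂ y₂) (h₃ : W.toAffine.Nonsingular x₃ y₃)
    (h : Point.some x₁ y₁ h₁ + Point.some x₂ y₂ h₂ = Point.some x₃ y₃ h₃) :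
    Lin W (W.toAffine.slope x₁ x₂ y₁ y₂) x₁ y₁ x₂ y₂ x₃ y₃ := by
  by_cases hxy : x₁ = x₂ ∧ y₁ = W.toAffine.negY x₂ y₂
  · rw [Point.add_of_Y_eq hxy.1 hxy.2] at h
    exact absurd h (by intro h; cases h)
  · rw [Point.add_some hxy] at h
    obtain ⟨rfl, rfl⟩ := (Point.some.injEq ..).mp h
    have hs : y₂ - y₁ = W.toAffine.slope x₁ x₂ y₁ y₂ * (x₂ - x₁) := by
      by_cases hx : x₁ = x₂
      · have hy : y₁ ≠ W.toAffine.negY x₂ y₂ := fun h => hxy ⟨hx, h⟩
        rcases hx, Y_eq_of_Y_ne h₁.1 h₂.1 hx hy with ⟨rfl, rfl⟩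
        ring
      · rw [slope_of_X_ne hx]
        have : x₁ - x₂ ≠ 0 := sub_ne_zero.2 hx
        field_simp
        ring
    have hp := addPolynomial_slope h₁.1 h₂.1 hxy
    set ℓ := W.toAffine.slope x₁ x₂ y₁ y₂ with hℓ
    rw [addPolynomial_eq, neg_inj] at hp
    obtain ⟨g1, g2⟩ := addPoly_coeffs hp
    refine ⟨hs, ?_, ?_, ?_, ?_⟩
    · simp only [addY, negY, negAddY]
      ring
    · simp only [addX]
      ring
    · linear_combination -g1
    · linear_combination g2

end lin

section alg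

variable {F : Type*} [Field F] {W : WeierstrassCurve F} {x y : Fin 5 → Fin 5 → F}
  {L : Fin 5 → Fin 5 → Fin 5 → F}

/-- the differences of the `x`-coordinates -/
lemma quad (h2 : (2 : F) ≠ 0)
    (hL : ∀ i j k, i < j → j < k → Lin W (L i j k) (x i j) (y i j) (x j k) (y j k) (x i k) (y i k))
    (hc : ∀ i j k l, i < j → j < k → k < l → L i j k + L i k l = L j k l + L i j l)
    {i j k l : Fin 5} (hij : i < j) (hjk : j < k) (hkl : k < l) :
    x i j - x k l = (L i j k - L j k l) * (L i j k + L i k l + W.a₁) ∧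
      x j k - x i l = (L i j k - L i j l) * (L i j k + L i k l + W.a₁) ∧
      x i k - x j l = (L i j k - L j k l) * (L j k l - L i k l) := by
  have e1 := (hL i j k hij hjk).2.2.1
  have e2 := (hL j k l hjk hkl).2.2.1
  have e3 := (hL i k l (hij.trans hjk) hkl).2.2.1
  have e4 := (hL i j l hij (hjk.trans hkl)).2.2.1
  have c := hc i j k l hij hjk hkl
  have c4 : L i j l = L i j k + L i k l - L j k l := by linear_combination -c
  rw [c4] at e4 ⊢
  have d1 : 2 * (x i j - x k l) = 2 * ((L i j k - L j k l) * (L i j k + L i k l + W.a₁)) := by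
    linear_combination e1 - e3 - e2 + e4
  have d2 : 2 * (x j k - x i l) =
      2 * ((L i j k - (L i j k + L i k l - L j k l)) * (L i j k + L i k l + W.a₁)) := by
    linear_combination e1 - e3 + e2 - e4
  have f1 := mul_left_cancel₀ h2 d1
  have f2 := mul_left_cancel₀ h2 d2
  refine ⟨f1, f2, ?_⟩
  linear_combination e1 - e2 - f1

/-- the parameters -/
def par (a : F) (L : Fin 5 → Fin 5 → Fin 5 → F) : Fin 6 → F :=
  ![a, L 1 2 3, L 0 2 3, L 2 3 4, L 1 3 4, L 0 3 4]

/-- the normalised case -/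
theorem norm_case (h2 : (2 : F) ≠ 0)
    (hL : ∀ i j k, i < j → j < k → Lin W (L i j k) (x i j) (y i j) (x j k) (y j k) (x i k) (y i k))
    (hc : ∀ i j k l, i < j → j < k → k < l → L i j k + L i k l = L j k l + L i j l)
    (h0 : L 0 1 2 = 0) (hx : x 0 1 = 0) (hy : y 0 1 = 0) :
    W = curveA (par W.a₁ L) ∧
      ∀ i j, i < j → x i j = xA (par W.a₁ L) i j ∧ y i j = yA (par W.a₁ L) i j := by
  have l01 : (0 : Fin 5) < 1 := by decide
  have l12 : (1 : Fin 5) < 2 := by decide
  have l23 : (2 : Fin 5) < 3 := by decide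
  have l34 : (3 : Fin 5) < 4 := by decide
  have l02 : (0 : Fin 5) < 2 := by decide
  have l03 : (0 : Fin 5) < 3 := by decide
  have l13 : (1 : Fin 5) < 3 := by decide
  have l14 : (1 : Fin 5) < 4 := by decide
  have l24 : (2 : Fin 5) < 4 := by decide
  have c0123 := hc 0 1 2 3 l01 l12 l23
  have c0234 := hc 0 2 3 4 l02 l23 l34
  have c1234 := hc 1 2 3 4 l12 l23 l34
  have c0134 := hc 0 1 3 4 l01 l13 l34
  have c0124 := hc 0 1 2 4 l01 l12 l24
  obtain ⟨p1, p2, p3⟩ := quad h2 hL hc l01 l12 l23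
  obtain ⟨q1, -, -⟩ := quad h2 hL hc l01 l13 l34
  obtain ⟨r1, r2, r3⟩ := quad h2 hL hc l01 l12 l24
  obtain ⟨s1, -, -⟩ := quad h2 hL hc l12 l23 l34
  obtain ⟨t1, -, -⟩ := quad h2 hL hc l02 l23 l34
  set a := W.a₁ with ha
  set u := L 1 2 3 with hu
  set v := L 0 2 3 with hv
  set b := L 2 3 4 with hb
  set c := L 1 3 4 with hcc
  set e := L 0 3 4 with he
  have T0 : par a L 0 = a := rfl
  have T1 : par a L 1 = u := rfl
  have T2 : par a L 2 = v := rfl
  have T3 : par a L 3 = b := rfl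
  have T4 : par a L 4 = c := rfl
  have T5 : par a L 5 = e := rfl
  have L013 : L 0 1 3 = v - u := by linear_combination h0 - c0123
  have L024 : L 0 2 4 = v + e - b := by linear_combination -c0234
  have L124 : L 1 2 4 = u + c - b := by linear_combination -c1234
  have L014 : L 0 1 4 = v - u + e - c := by linear_combination L013 - c0134
  rw [h0, hx] at p1
  rw [h0, L013] at p2
  rw [h0] at p3
  rw [hx, L013] at q1
  rw [h0, hx, L124, L024] at r1
  rw [h0, L014, L024] at r2
  rw [h0, L124, L024] at r3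
  have x23 : x 2 3 = u * (a + v) := by linear_combination -p1
  have x34 : x 3 4 = (c - v + u) * (a + e + v - u) := by linear_combination -q1
  have x24 : x 2 4 = (u + c - b) * (a + v + e - b) := by linear_combination -r1
  have x12 : x 1 2 = pm (par a L) := by
    unfold pm
    rw [T0, T1, T2, T3, T4, T5]
    linear_combination s1 + x34
  have x02 : x 0 2 = pn (par a L) := by
    unfold pn
    rw [T0, T1, T2, T3, T4, T5]
    linear_combination t1 + x34
  set m := pm (par a L) with hm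
  set n := pn (par a L) with hn
  have x13 : x 1 3 = n - u * (v - u) := by linear_combination x02 - p3
  have x03 : x 0 3 = m + (v - u) * (v + a) := by linear_combination x12 - p2
  have x14 : x 1 4 = n - (u + c - b) * (v - u + e - c) := by linear_combination x02 - r3
  have x04 : x 0 4 = m + (v - u + e - c) * (a + v + e - b) := by linear_combination x12 - r2
  obtain ⟨g1, g2, g3, g4, g5⟩ := hL 0 1 2 l01 l12
  rw [h0, hy, hx] at g1 g2 g4 g5
  rw [h0, hx] at g3
  have y12 : y 1 2 = 0 := by linear_combination g1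
  have k013 := (hL 0 1 3 l01 l13).1
  have k014 := (hL 0 1 4 l01 l14).1
  have k123 := (hL 1 2 3 l12 l23).1
  have k124 := (hL 1 2 4 l12 l24).1
  have k234 := (hL 2 3 4 l23 l34).1
  have k123' := (hL 1 2 3 l12 l23).2.1
  have k013' := (hL 0 1 3 l01 l13).2.1
  have k014' := (hL 0 1 4 l01 l14).2.1
  rw [← ha] at k123' k013' k014' g2 g3 g4
  rw [← hu] at k123 k123'
  rw [← hb] at k234
  rw [hy, hx, L013] at k013 k013'
  rw [hy, hx, L014] at k014 k014'
  rw [y12, x12] at k123 k124 k123'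
  rw [L124] at k124
  have y13 : y 1 3 = (v - u) * x 1 3 := by linear_combination k013
  have a3 : W.a₃ = pa3 (par a L) := by
    unfold pa3
    rw [T0, T1, T2, ← hm, ← hn]
    rw [y13] at k123'
    linear_combination -k123' - (v + a) * x13
  set w := pa3 (par a L) with hw
  have hw' : w = u * m - (v + a) * (n - u * (v - u)) := rfl
  rw [x12, x02] at g3 g4
  rw [x12, x02] at g5
  have a2 : W.a₂ = -(m + n) := by linear_combination g3
  have a4 : W.a₄ = m * n := by linear_combination -g4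
  have a6 : W.a₆ = 0 := by linear_combination g5
  have y02 : y 0 2 = -(a * n + w) := by
    rw [a3, x02] at g2
    linear_combination -g2
  have y23 : y 2 3 = u * (x 2 3 - m) := by linear_combination k123
  have y24 : y 2 4 = (u + c - b) * (x 2 4 - m) := by linear_combination k124
  have y34 : y 3 4 = y 2 3 + b * (x 3 4 - x 2 3) := by linear_combination k234
  have y14 : y 1 4 = (v - u + e - c) * x 1 4 := by linear_combination k014
  have y03 : y 0 3 = -((v + a) * (x 0 3 - n)) := by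
    rw [a3, hw'] at k013'
    linear_combination -k013' + u * x03
  have y04 : y 0 4 = -((v - u + e - c + a) * x 0 4) - w := by
    rw [a3] at k014'
    linear_combination -k014'
  constructor
  · ext
    · rfl
    · exact a2
    · exact a3
    · exact a4
    · exact a6
  · have X23 : RG.x23 (par a L) = x 2 3 := x23.symm
    have X34 : RG.x34 (par a L) = x 3 4 := x34.symm
    have X24 : RG.x24 (par a L) = x 2 4 := x24.symm
    have X13 : RG.x13 (par a L) = x 1 3 := x13.symm
    have X03 : RG.x03 (par a L) = x 0 3 := x03.symm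
    have X14 : RG.x14 (par a L) = x 1 4 := x14.symm
    have X04 : RG.x04 (par a L) = x 0 4 := x04.symm
    intro i j hij
    rcases cases2 hij with ⟨rfl, rfl⟩ | ⟨rfl, rfl⟩ | ⟨rfl, rfl⟩ | ⟨rfl, rfl⟩ | ⟨rfl, rfl⟩ |
      ⟨rfl, rfl⟩ | ⟨rfl, rfl⟩ | ⟨rfl, rfl⟩ | ⟨rfl, rfl⟩ | ⟨rfl, rfl⟩
    · exact ⟨hx, hy⟩
    · rw [xA02, yA02]
      exact ⟨x02, by rw [y02]; rfl⟩
    · rw [xA03, yA03, X03]
      refine ⟨rfl, ?_⟩
      rw [RG.y03, X03, y03]
      rfl
    · rw [xA04, yA04, X04]
      refine ⟨rfl, ?_⟩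
      rw [RG.y04, X04, y04]
      rfl
    · rw [xA12, yA12]
      exact ⟨x12, y12⟩
    · rw [xA13, yA13, X13]
      refine ⟨rfl, ?_⟩
      rw [RG.y13, X13, y13]
      rfl
    · rw [xA14, yA14, X14]
      refine ⟨rfl, ?_⟩
      rw [RG.y14, X14, y14]
      rfl
    · rw [xA23, yA23, X23]
      refine ⟨rfl, ?_⟩
      rw [RG.y23, X23, y23]
      rfl
    · rw [xA24, yA24, X24]
      refine ⟨rfl, ?_⟩
      rw [RG.y24, X24, y24]
      rfl
    · rw [xA34, yA34, X34]
      refine ⟨rfl, ?_⟩
      rw [RG.y34, RG.y23, X34, X23, y34, y23]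
      rfl

end alg

end Pool.Agent.K3h13.RG
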