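import Pool.Agent.K3h13.RG.Uni2
import Pool.Agent.K3h13.RG.Short

/-!
# Every elliptic curve over `ℚ` with five rational points is a member of the family
-/

set_option autoImplicit false

namespace Pool.Agent.K3h13.RG

open WeierstrassCurve WeierstrassCurve.Affine Pool.Agent.Y732

section change

variable {F : Type*} [Field F] {W : WeierstrassCurve F}

/-- the change of variables `(x, y) = (x' + r, y' + s x' + t)` -/
def chg (W : WeierstrassCurve F) (r s t : F) : WeierstrassCurve F :=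
  ⟨W.a₁ + 2 * s, W.a₂ - s * W.a₁ + 3 * r - s ^ 2, W.a₃ + r * W.a₁ + 2 * t,
    W.a₄ - s * W.a₃ + 2 * r * W.a₂ - (t + r * s) * W.a₁ + 3 * r ^ 2 - 2 * s * t,
    W.a₆ + r * W.a₄ + r ^ 2 * W.a₂ + r ^ 3 - t * W.a₃ - t ^ 2 - r * t * W.a₁⟩

lemma chg_eq (W : WeierstrassCurve F) (r s t : F) :
    (⟨1, r, s, t⟩ : VariableChange F) • W = chg W r s t := by
  rw [variableChange_def]
  unfold chg
  simp only [inv_one, Units.val_one, one_pow, one_mul]

lemma lin_chg {L x₁ y₁ x₂ y₂ x₃ y₃ : F} (h : Lin W L x₁ y₁ x₂ y₂ x₃ y₃) (r s t : F) :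
    Lin (chg W r s t) (L - s) (x₁ - r) (y₁ - s * (x₁ - r) - t) (x₂ - r) (y₂ - s * (x₂ - r) - t)
      (x₃ - r) (y₃ - s * (x₃ - r) - t) := by
  obtain ⟨h1, h2, h3, h4, h5⟩ := h
  refine ⟨?_, ?_, ?_, ?_, ?_⟩
  · linear_combination h1
  · simp only [chg]
    linear_combination h2
  · simp only [chg]
    linear_combination h3
  · simp only [chg]
    linear_combination h4 - 2 * r * h3
  · simp only [chg]
    linear_combination h5 - r * h4 + r ^ 2 * h3

/-- the general case -/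
theorem gen_case (h2 : (2 : F) ≠ 0) {x y : Fin 5 → Fin 5 → F} {L : Fin 5 → Fin 5 → Fin 5 → F}
    (hL : ∀ i j k, i < j → j < k → Lin W (L i j k) (x i j) (y i j) (x j k) (y j k) (x i k) (y i k))
    (hc : ∀ i j k l, i < j → j < k → k < l → L i j k + L i k l = L j k l + L i j l) :
    ∃ (T : Fin 6 → F) (r s t : F), (⟨1, r, s, t⟩ : VariableChange F) • W = curveA T ∧
      ∀ i j, i < j → x i j = xA T i j + r ∧ y i j = yA T i j + s * xA T i j + t := by
  set W' := chg W (x 0 1) (L 0 1 2) (y 0 1) with hW'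
  obtain ⟨h3, h4⟩ := norm_case (W := W') (x := fun i j => x i j - x 0 1)
    (y := fun i j => y i j - L 0 1 2 * (x i j - x 0 1) - y 0 1)
    (L := fun i j k => L i j k - L 0 1 2) h2
    (fun i j k hij hjk => lin_chg (hL i j k hij hjk) (x 0 1) (L 0 1 2) (y 0 1))
    (fun i j k l hij hjk hkl => by linear_combination hc i j k l hij hjk hkl)
    (sub_self _) (sub_self _) (by ring)
  refine ⟨par W'.a₁ fun i j k => L i j k - L 0 1 2, x 0 1, L 0 1 2, y 0 1, ?_, ?_⟩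
  · rw [chg_eq]
    exact h3
  · intro i j hij
    obtain ⟨h5, h6⟩ := h4 i j hij
    refine ⟨?_, ?_⟩
    · linear_combination h5
    · linear_combination h6 + L 0 1 2 * h5

/-- the short equation -/
lemma short_chg {V : WeierstrassCurve F} (h2 : (2 : F) ≠ 0) (h3 : (3 : F) ≠ 0) {D : F} (hD : D ≠ 0)
    (hu : (6 * D)⁻¹ ≠ 0) :
    (⟨Units.mk0 (6 * D)⁻¹ hu, -V.b₂ / 12, -V.a₁ / 2, V.a₁ * V.b₂ / 24 - V.a₃ / 2⟩ :
      VariableChange F) • V = Wc (D ^ 4 * (-27 * V.c₄)) (D ^ 6 * (-54 * V.c₆)) := by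
  have h6 : (6 : F) ≠ 0 := by
    have : (6 : F) = 2 * 3 := by norm_num
    rw [this]
    exact mul_ne_zero h2 h3
  have h12 : (12 : F) ≠ 0 := by
    have : (12 : F) = 2 * (2 * 3) := by norm_num
    rw [this]
    exact mul_ne_zero h2 (mul_ne_zero h2 h3)
  have h24 : (24 : F) ≠ 0 := by
    have : (24 : F) = 2 * (2 * (2 * 3)) := by norm_num
    rw [this]
    exact mul_ne_zero h2 (mul_ne_zero h2 (mul_ne_zero h2 h3))
  rw [variableChange_def]
  unfold Wc
  ext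
  · simp only [Units.val_inv_eq_inv_val, Units.val_mk0, inv_inv]
    field_simp
    ring
  · simp only [Units.val_inv_eq_inv_val, Units.val_mk0, inv_inv, b₂]
    field_simp
    ring
  · simp only [Units.val_inv_eq_inv_val, Units.val_mk0, inv_inv, b₂]
    field_simp
    ring
  · simp only [Units.val_inv_eq_inv_val, Units.val_mk0, inv_inv, c₄, b₂, b₄]
    field_simp
    ring
  · simp only [Units.val_inv_eq_inv_val, Units.val_mk0, inv_inv, c₆, b₂, b₄, b₆]
    field_simp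
    ring

end change

section scale

variable {R : Type*} [CommRing R] (c : R) (t : Fin 6 → R)

lemma pm_smul : pm (fun l => c * t l) = c ^ 2 * pm t := by unfold pm; ring
lemma pn_smul : pn (fun l => c * t l) = c ^ 2 * pn t := by unfold pn; ring
lemma pa3_smul : pa3 (fun l => c * t l) = c ^ 3 * pa3 t := by
  unfold pa3
  rw [pm_smul, pn_smul]
  ring

lemma curveA_smul : curveA (fun l => c * t l) =
    ⟨c * (curveA t).a₁, c ^ 2 * (curveA t).a₂, c ^ 3 * (curveA t).a₃, c ^ 4 * (curveA t).a₄,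
      c ^ 6 * (curveA t).a₆⟩ := by
  ext
  · rfl
  · change -(pm (fun l => c * t l) + pn (fun l => c * t l)) = c ^ 2 * (-(pm t + pn t))
    rw [pm_smul, pn_smul]
    ring
  · exact pa3_smul c t
  · change pm (fun l => c * t l) * pn (fun l => c * t l) = c ^ 4 * (pm t * pn t)
    rw [pm_smul, pn_smul]
    ring
  · change (0 : R) = c ^ 6 * 0
    rw [mul_zero]

lemma b2_smul : (curveA (fun l => c * t l)).b₂ = c ^ 2 * (curveA t).b₂ := by
  rw [curveA_smul]
  simp only [b₂]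
  ring

lemma c4_smul : (curveA (fun l => c * t l)).c₄ = c ^ 4 * (curveA t).c₄ := by
  rw [curveA_smul]
  simp only [b₂, b₄, c₄]
  ring

lemma c6_smul : (curveA (fun l => c * t l)).c₆ = c ^ 6 * (curveA t).c₆ := by
  rw [curveA_smul]
  simp only [b₂, b₄, b₆, c₆]
  ring

lemma xA_smul {i j : Fin 5} (hij : i < j) : xA (fun l => c * t l) i j = c ^ 2 * xA t i j := by
  rcases cases2 hij with ⟨rfl, rfl⟩ | ⟨rfl, rfl⟩ | ⟨rfl, rfl⟩ | ⟨rfl, rfl⟩ | ⟨rfl, rfl⟩ |
      ⟨rfl, rfl⟩ | ⟨rfl, rfl⟩ | ⟨rfl, rfl⟩ | ⟨rfl, rfl⟩ | ⟨rfl, rfl⟩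
  · rw [xA01, xA01, mul_zero]
  · rw [xA02, xA02, pn_smul]
  · rw [xA03, xA03, x03, x03, pm_smul]; ring
  · rw [xA04, xA04, x04, x04, pm_smul]; ring
  · rw [xA12, xA12, pm_smul]
  · rw [xA13, xA13, x13, x13, pn_smul]; ring
  · rw [xA14, xA14, x14, x14, pn_smul]; ring
  · rw [xA23, xA23, x23, x23]; ring
  · rw [xA24, xA24, x24, x24]; ring
  · rw [xA34, xA34, x34, x34]; ring

lemma yA_smul {i j : Fin 5} (hij : i < j) : yA (fun l => c * t l) i j = c ^ 3 * yA t i j := by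
  rcases cases2 hij with ⟨rfl, rfl⟩ | ⟨rfl, rfl⟩ | ⟨rfl, rfl⟩ | ⟨rfl, rfl⟩ | ⟨rfl, rfl⟩ |
      ⟨rfl, rfl⟩ | ⟨rfl, rfl⟩ | ⟨rfl, rfl⟩ | ⟨rfl, rfl⟩ | ⟨rfl, rfl⟩
  · rw [yA01, yA01, mul_zero]
  · rw [yA02, yA02, y02, y02, pn_smul, pa3_smul]; ring
  · rw [yA03, yA03, y03, y03, x03, x03, pm_smul, pn_smul]; ring
  · rw [yA04, yA04, y04, y04, x04, x04, pm_smul, pa3_smul]; ring
  · rw [yA12, yA12, mul_zero]
  · rw [yA13, yA13, y13, y13, x13, x13, pn_smul]; ring
  · rw [yA14, yA14, y14, y14, x14, x14, pn_smul]; ring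
  · rw [yA23, yA23, y23, y23, x23, x23, pm_smul]; ring
  · rw [yA24, yA24, y24, y24, x24, x24, pm_smul]; ring
  · rw [yA34, yA34, y34, y34, y23, y23, x34, x34, x23, x23, pm_smul]; ring

end scale

end Pool.Agent.K3h13.RG
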