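import Pool.Agent.K3h13.RG.Uni3
import Pool.Agent.K3h13.RG.TypR

/-!
# Every elliptic curve over `ℚ` with five rational points is a member of the family
-/

set_option autoImplicit false

namespace Pool.Agent.K3h13.RG

open WeierstrassCurve WeierstrassCurve.Affine Pool.Agent.Y732

/-- a common denominator -/
lemma common_denom (T : Fin 6 → ℚ) : ∃ (D : ℕ) (v : Fin 6 → ℤ), 0 < D ∧ ∀ l, (v l : ℚ) = D * T l := by
  refine ⟨∏ l, (T l).den, fun l => (T l).num * ∏ k ∈ Finset.univ.erase l, ((T k).den : ℤ),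
    Finset.prod_pos fun l _ => (T l).den_pos, fun l => ?_⟩
  have h1 : (∏ k, ((T k).den : ℚ)) = ((T l).den : ℚ) * ∏ k ∈ Finset.univ.erase l, ((T k).den : ℚ) :=
    (Finset.mul_prod_erase _ _ (Finset.mem_univ l)).symm
  have h2 : ((T l).den : ℚ) * T l = (T l).num := by
    have := Rat.mul_den_eq_num (T l)
    rw [mul_comm]
    exact this
  push_cast
  rw [h1]
  linear_combination (-(∏ k ∈ Finset.univ.erase l, ((T k).den : ℚ))) * h2

lemma pt_some {W : WeierstrassCurve ℤ} {x y : ℤ} (h : OnCurve W x y 1) (hD : W.Δ ≠ 0) :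
    ∃ hP : (WQ W).Nonsingular (x : ℚ) (y : ℚ), pt W x y 1 = .some _ _ hP := by
  obtain ⟨hP, he⟩ := pt_eq h hD
  have e1 : ((x : ℤ) : ℚ) / ((1 : ℤ) : ℚ) ^ 2 = (x : ℚ) := by simp
  have e2 : ((y : ℤ) : ℚ) / ((1 : ℤ) : ℚ) ^ 3 = (y : ℚ) := by simp
  have hP' : (WQ W).Nonsingular (x : ℚ) (y : ℚ) := by
    rw [e1, e2] at hP
    exact hP
  refine ⟨hP', ?_⟩
  rw [he]
  simp only [Affine.Point.some.injEq]
  exact ⟨e1, e2⟩

/-- The change of variables `C` identifies the member `v` of the family with `W` and the points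
`P i j` with `Q j - Q i`. -/
def Rlz (W : WeierstrassCurve ℚ) (Q : Fin 5 → W.toAffine.Point) (v : Fin 6 → ℤ) : Prop :=
  ∃ C : VariableChange ℚ, C • W = (sW v).map (Int.castRingHom ℚ) ∧
    ∀ i j : Fin 5, i < j → ∃ h : W.toAffine.Nonsingular (C.u ^ 2 * ((sX v i j : ℤ) : ℚ) + C.r)
      (C.u ^ 3 * ((sY v i j : ℤ) : ℚ) + C.u ^ 2 * C.s * ((sX v i j : ℤ) : ℚ) + C.t),
      Q j - Q i = .some _ _ h

theorem universal {W : WeierstrassCurve ℚ} (hΔ : W.Δ ≠ 0) (Q : Fin 5 → W.toAffine.Point)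
    (hQ : Function.Injective Q) : ∃ v : Fin 6 → ℤ, (sW v).Δ ≠ 0 ∧ Rlz W Q v := by
  have h0 : ∀ i j : Fin 5, ∃ x y : ℚ, i < j → ∃ h : W.toAffine.Nonsingular x y,
      Q j - Q i = .some x y h := by
    intro i j
    by_cases hij : i < j
    · have hne : Q j - Q i ≠ 0 := sub_ne_zero.2 (hQ.ne hij.ne')
      rcases hP : Q j - Q i with _ | ⟨x, y, h⟩
      · exact absurd hP hne
      · exact ⟨x, y, fun _ => ⟨h, rfl⟩⟩
    · exact ⟨0, 0, fun h => absurd h hij⟩
  choose x y hxy using h0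
  have hL : ∀ i j k, i < j → j < k → Lin W (W.toAffine.slope (x i j) (x j k) (y i j) (y j k))
      (x i j) (y i j) (x j k) (y j k) (x i k) (y i k) := by
    intro i j k hij hjk
    obtain ⟨h1, e1⟩ := hxy i j hij
    obtain ⟨h2, e2⟩ := hxy j k hjk
    obtain ⟨h3, e3⟩ := hxy i k (hij.trans hjk)
    refine lin_of_add h1 h2 h3 ?_
    rw [← e1, ← e2, ← e3]
    abel
  have hc : ∀ i j k l, i < j → j < k → k < l →
      W.toAffine.slope (x i j) (x j k) (y i j) (y j k) +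
        W.toAffine.slope (x i k) (x k l) (y i k) (y k l) =
      W.toAffine.slope (x j k) (x k l) (y j k) (y k l) +
        W.toAffine.slope (x i j) (x j l) (y i j) (y j l) := by
    intro i j k l hij hjk hkl
    obtain ⟨h1, e1⟩ := hxy i j hij
    obtain ⟨h2, e2⟩ := hxy j k hjk
    obtain ⟨h3, e3⟩ := hxy k l hkl
    obtain ⟨h4, e4⟩ := hxy i k (hij.trans hjk)
    obtain ⟨h5, e5⟩ := hxy j l (hjk.trans hkl)
    obtain ⟨h6, e6⟩ := hxy i l ((hij.trans hjk).trans hkl)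
    refine cocycle h1 h2 h3 h4 h5 h6 ?_ ?_ ?_ ?_
    · rw [← e1, ← e2, ← e4]
      abel
    · rw [← e4, ← e3, ← e6]
      abel
    · rw [← e2, ← e3, ← e5]
      abel
    · rw [← e1, ← e5, ← e6]
      abel
  obtain ⟨T, r, s, t, hC, hpt⟩ := gen_case (W := W) (by norm_num) (x := x) (y := y)
    (L := fun i j k => W.toAffine.slope (x i j) (x j k) (y i j) (y j k)) hL hc
  obtain ⟨D, v, hD, hv⟩ := common_denom T
  have hD0 : (D : ℚ) ≠ 0 := by exact_mod_cast hD.ne'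
  have hvT : (fun l => (v l : ℚ)) = fun l => (D : ℚ) * T l := funext hv
  have hu : (6 * (D : ℚ))⁻¹ ≠ 0 := inv_ne_zero (mul_ne_zero (by norm_num) hD0)
  set C₁ : VariableChange ℚ := ⟨Units.mk0 (6 * (D : ℚ))⁻¹ hu, -(curveA T).b₂ / 12,
    -(curveA T).a₁ / 2, (curveA T).a₁ * (curveA T).b₂ / 24 - (curveA T).a₃ / 2⟩ with hC₁
  have hW : (C₁ * ⟨1, r, s, t⟩) • W = (sW v).map (Int.castRingHom ℚ) := by
    rw [mul_smul, hC, hC₁, short_chg (by norm_num) (by norm_num) hD0 hu, map_sW]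
    have e : (fun l => Int.castRingHom ℚ (v l)) = fun l => (D : ℚ) * T l := by
      rw [← hvT]
      rfl
    rw [e]
    unfold sW sA sB
    rw [c4_smul, c6_smul]
    congr 1
    · ring
    · ring
  have hX : ∀ i j : Fin 5, i < j → ((sX v i j : ℤ) : ℚ) = 36 * D ^ 2 * xA T i j +
      3 * D ^ 2 * (curveA T).b₂ := by
    intro i j hij
    have h1 := map_sX (Int.castRingHom ℚ) v i j
    have e : (fun l => Int.castRingHom ℚ (v l)) = fun l => (D : ℚ) * T l := by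
      rw [← hvT]
      rfl
    rw [e] at h1
    have h2 : ((sX v i j : ℤ) : ℚ) = sX (fun l => (D : ℚ) * T l) i j := h1
    rw [h2]
    unfold sX
    rw [xA_smul _ _ hij, b2_smul]
    ring
  have hY : ∀ i j : Fin 5, i < j → ((sY v i j : ℤ) : ℚ) = 108 * D ^ 3 * (2 * yA T i j +
      T 0 * xA T i j + pa3 T) := by
    intro i j hij
    have h1 := map_sY (Int.castRingHom ℚ) v i j
    have e : (fun l => Int.castRingHom ℚ (v l)) = fun l => (D : ℚ) * T l := by
      rw [← hvT]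
      rfl
    rw [e] at h1
    have h2 : ((sY v i j : ℤ) : ℚ) = sY (fun l => (D : ℚ) * T l) i j := h1
    rw [h2]
    unfold sY
    rw [xA_smul _ _ hij, yA_smul _ _ hij, pa3_smul]
    ring
  refine ⟨v, ?_, C₁ * ⟨1, r, s, t⟩, hW, fun i j hij => ?_⟩
  · intro hd
    have h1 := congrArg WeierstrassCurve.Δ hW
    rw [variableChange_Δ, WeierstrassCurve.map_Δ, hd, map_zero] at h1
    have h2 : (((C₁ * ⟨1, r, s, t⟩ : VariableChange ℚ).u⁻¹ : ℚˣ) : ℚ) ^ 12 ≠ 0 := by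
      apply pow_ne_zero
      exact Units.ne_zero _
    exact mul_ne_zero h2 hΔ h1
  · obtain ⟨h1, e1⟩ := hxy i j hij
    obtain ⟨g1, g2⟩ := hpt i j hij
    have a1 : (curveA T).a₁ = T 0 := rfl
    have a3 : (curveA T).a₃ = pa3 T := rfl
    have ex : x i j = (C₁ * ⟨1, r, s, t⟩ : VariableChange ℚ).u ^ 2 * ((sX v i j : ℤ) : ℚ) +
        (C₁ * ⟨1, r, s, t⟩ : VariableChange ℚ).r := by
      rw [hX i j hij, g1, VariableChange.mul_def, hC₁]
      simp only [mul_one, Units.val_mk0, Units.val_one, one_pow]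
      field_simp
      ring
    have ey : y i j = (C₁ * ⟨1, r, s, t⟩ : VariableChange ℚ).u ^ 3 * ((sY v i j : ℤ) : ℚ) +
        (C₁ * ⟨1, r, s, t⟩ : VariableChange ℚ).u ^ 2 *
          (C₁ * ⟨1, r, s, t⟩ : VariableChange ℚ).s * ((sX v i j : ℤ) : ℚ) +
        (C₁ * ⟨1, r, s, t⟩ : VariableChange ℚ).t := by
      rw [hX i j hij, hY i j hij, g2, VariableChange.mul_def, hC₁]
      simp only [mul_one, one_mul, Units.val_mk0, Units.val_one, one_pow, a1, a3]
      field_simp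
      ring
    have h2 := h1
    rw [ex, ey] at h2
    refine ⟨h2, ?_⟩
    rw [e1]
    simp only [Affine.Point.some.injEq]
    exact ⟨ex, ey⟩

end Pool.Agent.K3h13.RG
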