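import Pool.Agent.K3h13.RG.Uni4

/-!
# The member of the family is unique up to a factor
-/

set_option autoImplicit false

namespace Pool.Agent.K3h13.RG

open WeierstrassCurve WeierstrassCurve.Affine Pool.Agent.Y732

/-- the slope is determined by the three points -/
lemma lin_unique {A B L L' x₁ y₁ x₂ y₂ x₃ y₃ : ℚ} (hd : 4 * A ^ 3 + 27 * B ^ 2 ≠ 0)
    (h : Lin (Wc A B) L x₁ y₁ x₂ y₂ x₃ y₃) (h' : Lin (Wc A B) L' x₁ y₁ x₂ y₂ x₃ y₃) : L = L' := by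
  obtain ⟨h1, h2, h3, h4, h5⟩ := h
  obtain ⟨g1, g2, g3, g4, g5⟩ := h'
  simp only [Wc] at h1 h2 h3 h4 h5 g1 g2 g3 g4 g5
  by_contra hne
  have hne' : L - L' ≠ 0 := sub_ne_zero.2 hne
  have e1 : x₂ = x₁ := by
    have : (L - L') * (x₂ - x₁) = 0 := by linear_combination g1 - h1
    have := (mul_eq_zero.1 this).resolve_left hne'
    linarith
  have e2 : x₃ = x₁ := by
    have : (L - L') * (x₃ - x₁) = 0 := by linear_combination g2 - h2
    have := (mul_eq_zero.1 this).resolve_left hne'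
    linarith
  have hsq : L ^ 2 = L' ^ 2 := by linear_combination g3 - h3
  have e3 : y₁ = 0 := by
    have : (L - L') * y₁ = 0 := by
      linear_combination (1 / 2 : ℚ) * (h4 - g4) + x₁ * hsq
    exact (mul_eq_zero.1 this).resolve_left hne'
  rw [e1, e2] at h3
  rw [e1, e2, e3] at h4 h5
  apply hd
  have k1 : L ^ 2 = 3 * x₁ := by linear_combination -h3
  have k2 : A = -3 * x₁ ^ 2 := by linear_combination -h4 - 2 * x₁ * k1
  have k3 : B = 2 * x₁ ^ 3 := by linear_combination h5 + x₁ ^ 2 * k1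
  rw [k2, k3]
  ring

/-- scaling -/
lemma lin_scale {A B L x₁ y₁ x₂ y₂ x₃ y₃ c : ℚ} (hc : c ≠ 0)
    (h : Lin (Wc (c ^ 4 * A) (c ^ 6 * B)) L (c ^ 2 * x₁) (c ^ 3 * y₁) (c ^ 2 * x₂) (c ^ 3 * y₂)
      (c ^ 2 * x₃) (c ^ 3 * y₃)) : Lin (Wc A B) (L / c) x₁ y₁ x₂ y₂ x₃ y₃ := by
  obtain ⟨h1, h2, h3, h4, h5⟩ := h
  obtain ⟨M, rfl⟩ : ∃ M, L = c * M := ⟨L / c, by field_simp⟩
  rw [mul_div_cancel_left₀ _ hc]
  simp only [Wc] at h1 h2 h3 h4 h5
  refine ⟨?_, ?_, ?_, ?_, ?_⟩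
  · apply mul_left_cancel₀ (pow_ne_zero 3 hc)
    linear_combination h1
  · apply mul_left_cancel₀ (pow_ne_zero 3 hc)
    simp only [Wc]
    linear_combination h2
  · apply mul_left_cancel₀ (pow_ne_zero 2 hc)
    simp only [Wc]
    linear_combination h3
  · apply mul_left_cancel₀ (pow_ne_zero 4 hc)
    simp only [Wc]
    linear_combination h4
  · apply mul_left_cancel₀ (pow_ne_zero 6 hc)
    simp only [Wc]
    linear_combination h5

lemma lin_cast {v : Fin 6 → ℤ} {i j k : Fin 5} (hij : i < j) (hjk : j < k) :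
    Lin (Wc ((sA v : ℤ) : ℚ) ((sB v : ℤ) : ℚ)) (6 * ((lam v i j k : ℤ) : ℚ) + 3 * ((v 0 : ℤ) : ℚ))
      ((sX v i j : ℤ) : ℚ) ((sY v i j : ℤ) : ℚ) ((sX v j k : ℤ) : ℚ) ((sY v j k : ℤ) : ℚ)
      ((sX v i k : ℤ) : ℚ) ((sY v i k : ℤ) : ℚ) := by
  obtain ⟨h1, h2, h3, h4, h5⟩ := lin_short v hij hjk
  simp only [sW, Wc] at h1 h2 h3 h4 h5
  refine ⟨?_, ?_, ?_, ?_, ?_⟩
  · have := congrArg (Int.cast : ℤ → ℚ) h1
    push_cast at this
    linear_combination this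
  · have := congrArg (Int.cast : ℤ → ℚ) h2
    push_cast at this
    simp only [Wc]
    linear_combination this
  · have := congrArg (Int.cast : ℤ → ℚ) h3
    push_cast at this
    simp only [Wc]
    linear_combination this
  · have := congrArg (Int.cast : ℤ → ℚ) h4
    push_cast at this
    simp only [Wc]
    linear_combination this
  · have := congrArg (Int.cast : ℤ → ℚ) h5
    push_cast at this
    simp only [Wc]
    linear_combination this

/-- the member is unique up to a factor -/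
theorem rlz_unique {W : WeierstrassCurve ℚ} {Q : Fin 5 → W.toAffine.Point} {v v' : Fin 6 → ℤ}
    (hΔ : (sW v).Δ ≠ 0) (h : Rlz W Q v) (h' : Rlz W Q v') :
    ∃ c : ℚ, c ≠ 0 ∧ ∀ l, ((v' l : ℤ) : ℚ) = c * (v l : ℤ) := by
  obtain ⟨C, hC, hP⟩ := h
  obtain ⟨C', hC', hP'⟩ := h'
  have hu : ((C.u : ℚˣ) : ℚ) ≠ 0 := Units.ne_zero _
  have hu' : ((C'.u : ℚˣ) : ℚ) ≠ 0 := Units.ne_zero _
  have key : ∀ (C : VariableChange ℚ) (v : Fin 6 → ℤ),
      C • W = (sW v).map (Int.castRingHom ℚ) →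
      W.a₁ + 2 * C.s = 0 ∧ W.a₂ - C.s * W.a₁ + 3 * C.r - C.s ^ 2 = 0 ∧
      W.a₃ + C.r * W.a₁ + 2 * C.t = 0 ∧
      W.a₄ - C.s * W.a₃ + 2 * C.r * W.a₂ - (C.t + C.r * C.s) * W.a₁ + 3 * C.r ^ 2
        - 2 * C.s * C.t = (C.u : ℚ) ^ 4 * (sA v : ℤ) ∧
      W.a₆ + C.r * W.a₄ + C.r ^ 2 * W.a₂ + C.r ^ 3 - C.t * W.a₃ - C.t ^ 2
        - C.r * C.t * W.a₁ = (C.u : ℚ) ^ 6 * (sB v : ℤ) := by
    intro C v hC
    have hu : ((C.u : ℚˣ) : ℚ) ≠ 0 := Units.ne_zero _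
    have e1 := congrArg WeierstrassCurve.a₁ hC
    have e2 := congrArg WeierstrassCurve.a₂ hC
    have e3 := congrArg WeierstrassCurve.a₃ hC
    have e4 := congrArg WeierstrassCurve.a₄ hC
    have e6 := congrArg WeierstrassCurve.a₆ hC
    rw [variableChange_a₁, Units.val_inv_eq_inv_val] at e1
    rw [variableChange_a₂, Units.val_inv_eq_inv_val] at e2
    rw [variableChange_a₃, Units.val_inv_eq_inv_val] at e3
    rw [variableChange_a₄, Units.val_inv_eq_inv_val] at e4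
    rw [variableChange_a₆, Units.val_inv_eq_inv_val] at e6
    have f1 : ((sW v).map (Int.castRingHom ℚ)).a₁ = 0 := by simp [sW, Wc]
    have f2 : ((sW v).map (Int.castRingHom ℚ)).a₂ = 0 := by simp [sW, Wc]
    have f3 : ((sW v).map (Int.castRingHom ℚ)).a₃ = 0 := by simp [sW, Wc]
    have f4 : ((sW v).map (Int.castRingHom ℚ)).a₄ = (sA v : ℤ) := by simp [sW, Wc]
    have f6 : ((sW v).map (Int.castRingHom ℚ)).a₆ = (sB v : ℤ) := by simp [sW, Wc]
    rw [f1] at e1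
    rw [f2] at e2
    rw [f3] at e3
    rw [f4] at e4
    rw [f6] at e6
    refine ⟨?_, ?_, ?_, ?_, ?_⟩
    · exact (mul_eq_zero.1 e1).resolve_left (inv_ne_zero hu)
    · exact (mul_eq_zero.1 e2).resolve_left (pow_ne_zero _ (inv_ne_zero hu))
    · exact (mul_eq_zero.1 e3).resolve_left (pow_ne_zero _ (inv_ne_zero hu))
    · rw [← e4, ← mul_assoc, ← mul_pow, mul_inv_cancel₀ hu, one_pow, one_mul]
    · rw [← e6, ← mul_assoc, ← mul_pow, mul_inv_cancel₀ hu, one_pow, one_mul]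
  obtain ⟨a1, a2, a3, a4, a6⟩ := key C v hC
  obtain ⟨b1, b2, b3, b4, b6⟩ := key C' v' hC'
  have hs : C'.s = C.s := by linarith
  rw [hs] at b2 b4
  have hr : C'.r = C.r := by linarith
  rw [hr] at b3 b4 b6
  have ht : C'.t = C.t := by linarith
  rw [ht] at b4 b6
  set c : ℚ := (C.u : ℚ) / (C'.u : ℚ) with hc
  have hc0 : c ≠ 0 := div_ne_zero hu hu'
  have huc : (C.u : ℚ) = c * (C'.u : ℚ) := by
    rw [hc]
    field_simp
  have hA : ((sA v' : ℤ) : ℚ) = c ^ 4 * (sA v : ℤ) := by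
    apply mul_left_cancel₀ (pow_ne_zero 4 hu')
    rw [huc] at a4
    linear_combination a4 - b4
  have hB : ((sB v' : ℤ) : ℚ) = c ^ 6 * (sB v : ℤ) := by
    apply mul_left_cancel₀ (pow_ne_zero 6 hu')
    rw [huc] at a6
    linear_combination a6 - b6
  have hXY : ∀ i j : Fin 5, i < j → ((sX v' i j : ℤ) : ℚ) = c ^ 2 * (sX v i j : ℤ) ∧
      ((sY v' i j : ℤ) : ℚ) = c ^ 3 * (sY v i j : ℤ) := by
    intro i j hij
    obtain ⟨h1, e1⟩ := hP i j hij
    obtain ⟨h2, e2⟩ := hP' i j hij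
    rw [e1] at e2
    simp only [Affine.Point.some.injEq] at e2
    obtain ⟨k1, k2⟩ := e2
    rw [huc, hr] at k1
    rw [huc, hs, ht] at k2
    have k3 : ((sX v' i j : ℤ) : ℚ) = c ^ 2 * (sX v i j : ℤ) := by
      apply mul_left_cancel₀ (pow_ne_zero 2 hu')
      linear_combination -k1
    refine ⟨k3, ?_⟩
    rw [k3] at k2
    apply mul_left_cancel₀ (pow_ne_zero 3 hu')
    linear_combination -k2
  have hd : 4 * ((sA v : ℤ) : ℚ) ^ 3 + 27 * ((sB v : ℤ) : ℚ) ^ 2 ≠ 0 := by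
    intro h0
    apply hΔ
    have h1 : (4 * sA v ^ 3 + 27 * sB v ^ 2 : ℤ) = 0 := by exact_mod_cast h0
    have h2 : (sW v).Δ = -16 * (4 * sA v ^ 3 + 27 * sB v ^ 2) := by
      simp only [sW, Wc, WeierstrassCurve.Δ, WeierstrassCurve.b₂, WeierstrassCurve.b₄,
        WeierstrassCurve.b₆, WeierstrassCurve.b₈]
      ring
    rw [h2, h1, mul_zero]
  have hsl : ∀ i j k : Fin 5, i < j → j < k →
      6 * ((lam v' i j k : ℤ) : ℚ) + 3 * ((v' 0 : ℤ) : ℚ) =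
        c * (6 * ((lam v i j k : ℤ) : ℚ) + 3 * ((v 0 : ℤ) : ℚ)) := by
    intro i j k hij hjk
    have h1 := lin_cast (v := v') hij hjk
    rw [hA, hB, (hXY i j hij).1, (hXY i j hij).2, (hXY j k hjk).1, (hXY j k hjk).2,
      (hXY i k (hij.trans hjk)).1, (hXY i k (hij.trans hjk)).2] at h1
    have h2 := lin_unique hd (lin_scale hc0 h1) (lin_cast (v := v) hij hjk)
    rw [div_eq_iff hc0] at h2
    rw [h2]
    ring
  refine ⟨c, hc0, ?_⟩
  have s012 := hsl 0 1 2 (by decide) (by decide)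
  have s123 := hsl 1 2 3 (by decide) (by decide)
  have s023 := hsl 0 2 3 (by decide) (by decide)
  have s234 := hsl 2 3 4 (by decide) (by decide)
  have s134 := hsl 1 3 4 (by decide) (by decide)
  have s034 := hsl 0 3 4 (by decide) (by decide)
  have l012 : ∀ w : Fin 6 → ℤ, lam w 0 1 2 = 0 := fun _ => rfl
  have l123 : ∀ w : Fin 6 → ℤ, lam w 1 2 3 = w 1 := fun _ => rfl
  have l023 : ∀ w : Fin 6 → ℤ, lam w 0 2 3 = w 2 := fun _ => rfl
  have l234 : ∀ w : Fin 6 → ℤ, lam w 2 3 4 = w 3 := fun _ => rfl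
  have l134 : ∀ w : Fin 6 → ℤ, lam w 1 3 4 = w 4 := fun _ => rfl
  have l034 : ∀ w : Fin 6 → ℤ, lam w 0 3 4 = w 5 := fun _ => rfl
  rw [l012, l012] at s012
  rw [l123, l123] at s123
  rw [l023, l023] at s023
  rw [l234, l234] at s234
  rw [l134, l134] at s134
  rw [l034, l034] at s034
  push_cast at s012
  have v0 : ((v' 0 : ℤ) : ℚ) = c * (v 0 : ℤ) := by linear_combination (1 / 3 : ℚ) * s012
  intro l
  fin_cases l
  · exact v0
  · change ((v' 1 : ℤ) : ℚ) = c * (v 1 : ℤ)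
    linear_combination (1 / 6 : ℚ) * s123 - (1 / 2 : ℚ) * v0
  · change ((v' 2 : ℤ) : ℚ) = c * (v 2 : ℤ)
    linear_combination (1 / 6 : ℚ) * s023 - (1 / 2 : ℚ) * v0
  · change ((v' 3 : ℤ) : ℚ) = c * (v 3 : ℤ)
    linear_combination (1 / 6 : ℚ) * s234 - (1 / 2 : ℚ) * v0
  · change ((v' 4 : ℤ) : ℚ) = c * (v 4 : ℤ)
    linear_combination (1 / 6 : ℚ) * s134 - (1 / 2 : ℚ) * v0
  · change ((v' 5 : ℤ) : ℚ) = c * (v 5 : ℤ)
    linear_combination (1 / 6 : ℚ) * s034 - (1 / 2 : ℚ) * v0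

end Pool.Agent.K3h13.RG
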