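import Pool.Agent.K3h13.RG.Uni5
import Pool.Agent.K3h13.RG.Tail
import Pool.Agent.K3h13.RG.All6

/-!
# Primitive parameters
-/

set_option autoImplicit false

namespace Pool.Agent.K3h13.RG

open Finset WeierstrassCurve WeierstrassCurve.Affine Pool.Agent.Y732

/-- the coordinates have no common prime factor -/
def Prim (v : Fin 6 → ℤ) : Prop := ∀ ℓ : ℕ, ℓ.Prime → ¬ ∀ l, (ℓ : ℤ) ∣ v l

lemma marked_prim {v : Fin 6 → ℤ} (h : family4.Marked v) : Prim v := by
  intro ℓ hℓ hd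
  obtain ⟨-, h2, -⟩ := h
  obtain ⟨-, -, -, h3⟩ := h2 0 1 (by decide)
  rw [family4_e, family4_x, family4_y, family4_curve] at h3
  have h4 := (h3 ℓ hℓ).resolve_left (by
    intro h5
    have h6 : (ℓ : ℤ) ∣ 1 := h5
    exact (Nat.prime_iff_prime_int.1 hℓ).not_dvd_one h6)
  have hm : (ℓ : ℤ) ∣ pm v := by
    unfold pm
    exact dvd_sub (((dvd_add (dvd_sub (hd 4) (hd 2)) (hd 1))).mul_right _)
      ((dvd_sub (hd 3) (hd 1)).mul_right _)
  apply h4
  constructor
  · have e : 2 * yA v 0 1 + (curveA v).a₁ * xA v 0 1 * 1 + (curveA v).a₃ * 1 ^ 3 = pa3 v := by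
      change 2 * (0 : ℤ) + v 0 * 0 * 1 + pa3 v * 1 ^ 3 = pa3 v
      ring
    rw [e]
    unfold pa3
    exact dvd_sub ((hd 1).mul_right _) ((dvd_add (hd 2) (hd 0)).mul_right _)
  · have e : (curveA v).a₁ * yA v 0 1 * 1 - (3 * xA v 0 1 ^ 2 + 2 * (curveA v).a₂ * xA v 0 1 *
        1 ^ 2 + (curveA v).a₄ * 1 ^ 4) = -(pm v * pn v) := by
      change v 0 * (0 : ℤ) * 1 - (3 * 0 ^ 2 + 2 * (curveA v).a₂ * 0 * 1 ^ 2 +
        (pm v * pn v) * 1 ^ 4) = _
      ring
    rw [e]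
    exact (hm.mul_right _).neg_right

open scoped Classical in
/-- a positive proportion of the parameters is primitive -/
lemma prim_count : ∃ c : ℝ, 0 < c ∧ ∃ N₀ : ℕ, ∀ N : ℕ, N₀ ≤ N →
    c * ((Cb N).card : ℝ) ≤ (((Cb N).filter fun v => Prim v).card : ℝ) := by
  obtain ⟨c, C, hc, h1, -⟩ := rank_four
  obtain ⟨N₁, hN₁⟩ := exists_nat_ge C
  refine ⟨c / 729, by positivity, max N₁ 1, fun N hN => ?_⟩
  have hN1 : 1 ≤ N := (le_max_right _ _).trans hN
  have hNC : C ≤ (N : ℝ) := hN₁.trans (by exact_mod_cast (le_max_left _ _).trans hN)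
  have h2 := h1 N hNC
  have h3 : ((((Cb N).filter fun v => family4.Marked v).card : ℝ)) ≤
      (((Cb N).filter fun v => Prim v).card : ℝ) := by
    have : ((Cb N).filter fun v => family4.Marked v) ⊆ (Cb N).filter fun v => Prim v := by
      intro v hv
      rw [mem_filter] at hv ⊢
      exact ⟨hv.1, marked_prim hv.2⟩
    exact_mod_cast card_le_card this
  have h4 : ((Cb N).card : ℝ) ≤ 729 * (N : ℝ) ^ 6 := by
    rw [card_Cb]
    have h5 : ((2 * N + 1 : ℕ) : ℝ) ≤ 3 * N := by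
      have : (1 : ℝ) ≤ N := by exact_mod_cast hN1
      push_cast
      linarith
    push_cast at h5 ⊢
    calc (2 * (N : ℝ) + 1) ^ 6 ≤ (3 * (N : ℝ)) ^ 6 := pow_le_pow_left₀ (by positivity) h5 6
      _ = _ := by ring
  calc c / 729 * ((Cb N).card : ℝ) ≤ c / 729 * (729 * (N : ℝ) ^ 6) :=
        mul_le_mul_of_nonneg_left h4 (by positivity)
    _ = c * (N : ℝ) ^ 6 := by ring
    _ ≤ _ := h2.trans h3

lemma prim_factor {v v' : Fin 6 → ℤ} (hv : Prim v) (hv' : Prim v') {c : ℚ} (hc0 : c ≠ 0)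
    (h : ∀ l, ((v' l : ℤ) : ℚ) = c * ((v l : ℤ) : ℚ)) : v' = v ∨ v' = -v := by
  have h1 : ∀ l, (c.den : ℤ) * v' l = c.num * v l := by
    intro l
    have h2 : (c.den : ℚ) * c = c.num := by
      rw [mul_comm]
      exact Rat.mul_den_eq_num c
    have h3 : ((c.den : ℤ) : ℚ) * ((v' l : ℤ) : ℚ) = ((c.num : ℤ) : ℚ) * ((v l : ℤ) : ℚ) := by
      rw [h l]
      push_cast
      linear_combination ((v l : ℤ) : ℚ) * h2
    exact_mod_cast h3
  have hco : IsCoprime (c.den : ℤ) c.num := by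
    rw [isCoprime_comm, Int.isCoprime_iff_gcd_eq_one]
    exact c.reduced
  have hden : c.den = 1 := by
    by_contra hne
    obtain ⟨ℓ, hℓ, hd⟩ := Nat.exists_prime_and_dvd hne
    have hd' : (ℓ : ℤ) ∣ (c.den : ℤ) := by exact_mod_cast hd
    apply hv ℓ hℓ
    intro l
    have h4 : (ℓ : ℤ) ∣ c.num * v l := by
      rw [← h1 l]
      exact hd'.mul_right _
    exact (IsCoprime.of_isCoprime_of_dvd_left hco hd').dvd_of_dvd_mul_left h4
  have hnum : c.num.natAbs = 1 := by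
    by_contra hne
    obtain ⟨ℓ, hℓ, hd⟩ := Nat.exists_prime_and_dvd hne
    have hd' : (ℓ : ℤ) ∣ c.num := Int.natCast_dvd.2 hd
    apply hv' ℓ hℓ
    intro l
    have h4 : (ℓ : ℤ) ∣ (c.den : ℤ) * v' l := by
      rw [h1 l]
      exact hd'.mul_right _
    exact (IsCoprime.of_isCoprime_of_dvd_left hco.symm hd').dvd_of_dvd_mul_left h4
  rw [hden] at h1
  rcases Int.natAbs_eq c.num with h5 | h5
  · rw [hnum] at h5
    left
    funext l
    have := h1 l
    rw [h5] at this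
    push_cast at this
    linarith
  · rw [hnum] at h5
    right
    funext l
    have := h1 l
    rw [h5] at this
    push_cast at this
    rw [Pi.neg_apply]
    linarith

lemma exists_prim {v : Fin 6 → ℤ} (hv : v ≠ 0) : ∃ (w : Fin 6 → ℤ) (g : ℤ), Prim w ∧ g ≠ 0 ∧
    ∀ l, v l = g * w l := by
  obtain ⟨w, h1, h2⟩ := Finset.extract_gcd (s := (univ : Finset (Fin 6))) v ⟨0, mem_univ _⟩
  refine ⟨w, univ.gcd v, ?_, ?_, fun l => h1 l (mem_univ l)⟩
  · intro ℓ hℓ hd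
    have h3 : (ℓ : ℤ) ∣ univ.gcd w := Finset.dvd_gcd fun l _ => hd l
    rw [h2] at h3
    exact (Nat.prime_iff_prime_int.1 hℓ).not_dvd_one h3
  · intro h0
    apply hv
    funext l
    rw [h1 l (mem_univ l), h0, zero_mul]
    rfl

/-- multiples of a member -/
theorem rlz_smul {W : WeierstrassCurve ℚ} {Q : Fin 5 → W.toAffine.Point} {v v' : Fin 6 → ℤ}
    {c : ℚ} (hc : c ≠ 0) (h : ∀ l, ((v' l : ℤ) : ℚ) = c * ((v l : ℤ) : ℚ)) (hv : Rlz W Q v) :
    Rlz W Q v' := by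
  obtain ⟨C, hC, hP⟩ := hv
  have e : (fun l => Int.castRingHom ℚ (v' l)) = fun l => c * (Int.castRingHom ℚ (v l)) := funext h
  have hX : ∀ i j : Fin 5, i < j → ((sX v' i j : ℤ) : ℚ) = c ^ 2 * ((sX v i j : ℤ) : ℚ) := by
    intro i j hij
    have h1 := map_sX (Int.castRingHom ℚ) v' i j
    have h2 := map_sX (Int.castRingHom ℚ) v i j
    rw [e] at h1
    have h3 : ((sX v' i j : ℤ) : ℚ) = sX (fun l => c * (Int.castRingHom ℚ (v l))) i j := h1
    have h4 : ((sX v i j : ℤ) : ℚ) = sX (fun l => Int.castRingHom ℚ (v l)) i j := h2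
    rw [h3, h4]
    unfold sX
    rw [xA_smul c (fun l => Int.castRingHom ℚ (v l)) hij, b2_smul]
    ring
  have hY : ∀ i j : Fin 5, i < j → ((sY v' i j : ℤ) : ℚ) = c ^ 3 * ((sY v i j : ℤ) : ℚ) := by
    intro i j hij
    have h1 := map_sY (Int.castRingHom ℚ) v' i j
    have h2 := map_sY (Int.castRingHom ℚ) v i j
    rw [e] at h1
    have h3 : ((sY v' i j : ℤ) : ℚ) = sY (fun l => c * (Int.castRingHom ℚ (v l))) i j := h1
    have h4 : ((sY v i j : ℤ) : ℚ) = sY (fun l => Int.castRingHom ℚ (v l)) i j := h2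
    rw [h3, h4]
    unfold sY
    rw [xA_smul c (fun l => Int.castRingHom ℚ (v l)) hij,
      yA_smul c (fun l => Int.castRingHom ℚ (v l)) hij, pa3_smul]
    ring
  have hci : c⁻¹ ≠ 0 := inv_ne_zero hc
  refine ⟨⟨Units.mk0 c⁻¹ hci, 0, 0, 0⟩ * C, ?_, fun i j hij => ?_⟩
  · rw [mul_smul, hC, map_sW, map_sW, e]
    unfold sW sA sB
    rw [c4_smul, c6_smul, variableChange_def]
    unfold Wc
    simp only [Units.val_inv_eq_inv_val, Units.val_mk0, inv_inv]
    ext
    · simp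
    · simp
    · simp
    · simp only
      ring
    · simp only
      ring
  · obtain ⟨h1, e1⟩ := hP i j hij
    have ex : ((⟨Units.mk0 c⁻¹ hci, 0, 0, 0⟩ * C : VariableChange ℚ).u : ℚ) ^ 2 *
        ((sX v' i j : ℤ) : ℚ) + (⟨Units.mk0 c⁻¹ hci, 0, 0, 0⟩ * C : VariableChange ℚ).r =
        C.u ^ 2 * ((sX v i j : ℤ) : ℚ) + C.r := by
      rw [hX i j hij, VariableChange.mul_def]
      simp only [Units.val_mul, Units.val_mk0]
      field_simp
      ring
    have ey : ((⟨Units.mk0 c⁻¹ hci, 0, 0, 0⟩ * C : VariableChange ℚ).u : ℚ) ^ 3 *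
        ((sY v' i j : ℤ) : ℚ) + ((⟨Units.mk0 c⁻¹ hci, 0, 0, 0⟩ * C : VariableChange ℚ).u : ℚ) ^ 2 *
          (⟨Units.mk0 c⁻¹ hci, 0, 0, 0⟩ * C : VariableChange ℚ).s * ((sX v' i j : ℤ) : ℚ) +
          (⟨Units.mk0 c⁻¹ hci, 0, 0, 0⟩ * C : VariableChange ℚ).t =
        C.u ^ 3 * ((sY v i j : ℤ) : ℚ) + C.u ^ 2 * C.s * ((sX v i j : ℤ) : ℚ) + C.t := by
      rw [hX i j hij, hY i j hij, VariableChange.mul_def]
      simp only [Units.val_mul, Units.val_mk0]
      field_simp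
      ring
    rw [ex, ey]
    exact ⟨h1, e1⟩

/-- every member is an elliptic curve with five points -/
theorem rlz_self {v : Fin 6 → ℤ} (hΔ : (sW v).Δ ≠ 0) :
    ∃ Q : Fin 5 → (WQ (sW v)).Point, Function.Injective Q ∧
      Rlz ((sW v).map (Int.castRingHom ℚ)) Q v := by
  set Q : Fin 5 → (WQ (sW v)).Point := fun j => if j = 0 then 0 else sP v 0 j with hQ
  have hd : ∀ i j : Fin 5, i < j → Q j - Q i = sP v i j := by
    intro i j hij
    have hj : j ≠ 0 := ne_of_gt (lt_of_le_of_lt (Fin.zero_le i) hij)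
    by_cases hi : i = 0
    · subst hi
      rw [hQ]
      simp only [if_neg hj, if_true, sub_zero]
    · rw [hQ]
      simp only [if_neg hj, if_neg hi]
      rw [← sP_add hΔ (Fin.pos_of_ne_zero hi) hij, add_sub_cancel_left]
  have hs : ∀ i j : Fin 5, i < j → ∃ hP : (WQ (sW v)).Nonsingular ((sX v i j : ℤ) : ℚ)
      ((sY v i j : ℤ) : ℚ), sP v i j = .some _ _ hP := fun i j hij =>
    pt_some (on_short v hij) hΔ
  have hlt : ∀ i j : Fin 5, i < j → Q i ≠ Q j := by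
    intro i j hij he
    have h1 := hd i j hij
    obtain ⟨hP, h2⟩ := hs i j hij
    rw [he, sub_self, h2] at h1
    exact absurd h1.symm (by intro h; cases h)
  refine ⟨Q, ?_, 1, one_smul _ _, fun i j hij => ?_⟩
  · intro i j hij
    rcases lt_trichotomy i j with h | h | h
    · exact absurd hij (hlt i j h)
    · exact h
    · exact absurd hij.symm (hlt j i h)
  · obtain ⟨hP, h2⟩ := hs i j hij
    have ex : ((1 : VariableChange ℚ).u : ℚ) ^ 2 * ((sX v i j : ℤ) : ℚ) +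
        (1 : VariableChange ℚ).r = ((sX v i j : ℤ) : ℚ) := by
      rw [VariableChange.one_def]
      simp only [Units.val_one]
      ring
    have ey : ((1 : VariableChange ℚ).u : ℚ) ^ 3 * ((sY v i j : ℤ) : ℚ) +
        ((1 : VariableChange ℚ).u : ℚ) ^ 2 * (1 : VariableChange ℚ).s * ((sX v i j : ℤ) : ℚ) +
        (1 : VariableChange ℚ).t = ((sY v i j : ℤ) : ℚ) := by
      rw [VariableChange.one_def]
      simp only [Units.val_one]
      ring
    rw [ex, ey]
    exact ⟨hP, by rw [hd i j hij, h2]⟩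

lemma disc_zero : (sW (0 : Fin 6 → ℤ)).Δ = 0 := by decide

/-- **The moduli space.** -/
theorem moduli {W : WeierstrassCurve ℚ} (hΔ : W.Δ ≠ 0) {Q : Fin 5 → W.toAffine.Point}
    (hQ : Function.Injective Q) : ∃ v : Fin 6 → ℤ, Prim v ∧ (sW v).Δ ≠ 0 ∧ Rlz W Q v ∧
      ∀ v', Prim v' → Rlz W Q v' → v' = v ∨ v' = -v := by
  obtain ⟨u, hu, hr⟩ := universal hΔ Q hQ
  have hu0 : u ≠ 0 := by
    intro h0
    rw [h0] at hu
    exact hu disc_zero
  obtain ⟨v, g, hv, hg, hug⟩ := exists_prim hu0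
  have hgQ : (g : ℚ) ≠ 0 := by exact_mod_cast hg
  have hrv : Rlz W Q v := by
    refine rlz_smul (c := (g : ℚ)⁻¹) (inv_ne_zero hgQ) (fun l => ?_) hr
    rw [hug l]
    push_cast
    field_simp
  have hvΔ : (sW v).Δ ≠ 0 := by
    intro h0
    apply hu
    have h1 : (curveA u).Δ = g ^ 12 * (curveA v).Δ := by
      have : u = fun l => g * v l := funext hug
      rw [this, curveA_smul]
      simp only [WeierstrassCurve.Δ, WeierstrassCurve.b₂, WeierstrassCurve.b₄,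
        WeierstrassCurve.b₆, WeierstrassCurve.b₈]
      ring
    rw [sW_disc] at h0 ⊢
    have h2 : (curveA v).Δ = 0 := (mul_eq_zero.1 h0).resolve_left (by norm_num)
    rw [h1, h2, mul_zero, mul_zero]
  refine ⟨v, hv, hvΔ, hrv, fun v' hv' hr' => ?_⟩
  obtain ⟨c, hc, h⟩ := rlz_unique hvΔ hrv hr'
  exact prim_factor hv hv' hc h

end Pool.Agent.K3h13.RG
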